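import Pool.Agent.Lib.MP_c59c01_pr.TH.BadP

set_option autoImplicit false

open MeasureTheory ProbabilityTheory Set Filter Topology
open scoped ENNReal

namespace Pool.Agent.Lib.MP_c59c01_pr.TH

/-! The probability that a jump fails. -/

/-- the column `x` is open and both its ends are good up to distance `k` -/
def Loc (c : E2 → Bool) (z : ℤ) (r : ℕ) (z' : ℤ) (r' k x : ℕ) : Prop :=
  (∀ j < k, ¬ Dn c z r x j) ∧ (∀ j < k, ¬ Up c z' r' x j) ∧
    ∀ t : ℤ, z + 2 * r ≤ t → t < z' → c (x, t, false) = true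

variable {pr : E2 → unitInterval} {z z' : ℤ} {r r' : ℕ} {p : ℝ}

/-- the vertical edges of the column `x` between the heights `a` and `b` -/
noncomputable def arcCol (x a b : ℤ) : Finset E2 :=
  (Finset.Ico a b).map ⟨fun t => (x, t, false), fun s t h => by simpa using h⟩

theorem arcCol_mem {x a b : ℤ} {e : E2} (he : e ∈ arcCol x a b) :
    ∃ t, a ≤ t ∧ t < b ∧ e = (x, t, false) := by
  obtain ⟨t, ht, rfl⟩ := Finset.mem_map.1 he
  exact ⟨t, (Finset.mem_Ico.1 ht).1, (Finset.mem_Ico.1 ht).2, rfl⟩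

theorem arcCol_allEq (x a b : ℤ) (c : E2 → Bool) :
    c ∈ allEq (arcCol x a b) true ↔ ∀ t : ℤ, a ≤ t → t < b → c (x, t, false) = true := by
  constructor
  · intro h t h1 h2
    exact h _ (Finset.mem_map.2 ⟨t, Finset.mem_Ico.2 ⟨h1, h2⟩, rfl⟩)
  · intro h e he
    obtain ⟨t, h1, h2, rfl⟩ := arcCol_mem he
    exact h t h1 h2

theorem arcP_alg_mono {S T : Set E2} (h : S ⊆ T) : coordAlg S ≤ coordAlg T :=
  iSup₂_le fun e he => le_iSup₂_of_le (f := fun e (_ : e ∈ T) =>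
    MeasurableSpace.comap (fun ω : E2 → Bool => ω e) inferInstance) e (h he) le_rfl

theorem arcP_meas_loc (k x : ℕ) :
    MeasurableSet[coordAlg {f : E2 | |f.1 - (x : ℤ)| ≤ k}] {c | ¬ Loc c z r z' r' k x} := by
  have h1 : {c | ¬ Loc c z r z' r' k x} =
      ((⋂ j ∈ Finset.range k, {c | Bad c z r (x, z + 2 * r - 1 - j, false) (j / 2)}ᶜ) ∩
        ((⋂ j ∈ Finset.range k, {c | Bad c z' r' (x, z' + j, false) (j / 2)}ᶜ) ∩
          allEq (arcCol x (z + 2 * r) z') true))ᶜ := by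
    ext c
    simp only [Loc, Dn, Up, mem_ofPred_eq, mem_compl_iff, mem_inter_iff, mem_iInter,
      Finset.mem_range, arcCol_allEq]
  rw [h1]
  refine MeasurableSet.compl (MeasurableSet.inter ?_ (MeasurableSet.inter ?_ ?_))
  · refine Finset.measurableSet_biInter _ fun j hj => MeasurableSet.compl ?_
    have := Finset.mem_range.1 hj
    exact measurableSet_bad ((x : ℤ), z + 2 * r - 1 - j, false) (by omega)
  · refine Finset.measurableSet_biInter _ fun j hj => MeasurableSet.compl ?_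
    have := Finset.mem_range.1 hj
    exact measurableSet_bad ((x : ℤ), z' + j, false) (by omega)
  · refine measurableSet_allEq_coordAlg (fun e he => ?_) true
    obtain ⟨t, _, _, rfl⟩ := arcCol_mem he
    simp

/-- The column is a set `allEq F true` of `g` edges outside both rectangles; `far_le` with
`k = 0` twice. -/
theorem loc_ge (hp : 0 ≤ p) (h0 : ∀ e, p ≤ pr e)
    (h : ∀ e, inR z r e ∨ inR z' r' e → (999 / 1000 : ℝ) ≤ pr e) {g : ℕ} (hz : z' = z + 2 * r + g)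
    (k x : ℕ) : PB pr {c | ¬ Loc c z r z' r' k x} ≤ ENNReal.ofReal (1 - p ^ g / 2) := by
  set B := allEq (arcCol x (z + 2 * r) z') true with hB
  have hm1 : MeasurableSet[coordAlg {e | inR z r e}ᶜ] B := by
    refine measurableSet_allEq_coordAlg (fun e he => ?_) true
    obtain ⟨t, h1, _, rfl⟩ := arcCol_mem he
    intro hh
    have := hh.2.2.2.2
    simp [tgt] at this
    omega
  have hm2 : MeasurableSet[coordAlg {e | inR z' r' e}ᶜ] B := by
    refine measurableSet_allEq_coordAlg (fun e he => ?_) true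
    obtain ⟨t, _, h2, rfl⟩ := arcCol_mem he
    intro hh
    have := hh.1.2.2.1
    simp [src] at this
    omega
  have f1 := far_le (pr := pr) (fun e he => h e (Or.inl he)) hm1
    (fun j => ((x : ℤ), z + 2 * r - 1 - j, false)) 0
  have f2 := far_le (pr := pr) (fun e he => h e (Or.inr he)) hm2
    (fun j => ((x : ℤ), z' + j, false)) 0
  have hsub : {c | ¬ Loc c z r z' r' k x} ⊆ Bᶜ ∪
      (B ∩ {c | ∃ j : ℕ, 0 ≤ j ∧ Bad c z r ((x : ℤ), z + 2 * r - 1 - j, false) (j / 2)} ∪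
        B ∩ {c | ∃ j : ℕ, 0 ≤ j ∧ Bad c z' r' ((x : ℤ), z' + j, false) (j / 2)}) := by
    intro c hc
    by_cases hcB : c ∈ B
    · right
      by_contra hcon
      apply hc
      refine ⟨fun j _ hj => hcon (Or.inl ⟨hcB, j, Nat.zero_le _, hj⟩),
        fun j _ hj => hcon (Or.inr ⟨hcB, j, Nat.zero_le _, hj⟩), (arcCol_allEq _ _ _ c).1 hcB⟩
    · exact Or.inl hcB
  have hlow : ENNReal.ofReal (p ^ g) ≤ PB pr B := by
    have hcard : (arcCol x (z + 2 * r) z').card = g := by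
      rw [arcCol, Finset.card_map, Int.card_Ico, hz]
      simp
    rw [hB, PB_allEq_true, ENNReal.ofReal_pow hp, ← hcard, ← Finset.prod_const]
    refine Finset.prod_le_prod' fun e _ => ?_
    rw [ENNReal.ofReal_le_iff_le_toReal ENNReal.coe_ne_top]
    exact h0 e
  obtain ⟨a, ha0, ha⟩ : ∃ a : ℝ, 0 ≤ a ∧ PB pr B = ENNReal.ofReal a :=
    ⟨(PB pr B).toReal, ENNReal.toReal_nonneg, (ENNReal.ofReal_toReal (measure_ne_top _ _)).symm⟩
  have ha1 : a ≤ 1 := by
    have : PB pr B ≤ 1 := prob_le_one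
    rwa [ha, ENNReal.ofReal_le_one] at this
  have hpa : p ^ g ≤ a := by
    rwa [ha, ENNReal.ofReal_le_ofReal_iff ha0] at hlow
  have hq : PB pr B * (4⁻¹ * 4⁻¹ ^ 0) = ENNReal.ofReal (a / 4) := by
    rw [ha, pow_zero, mul_one, ENNReal.ofReal_div_of_pos (by norm_num), div_eq_mul_inv]
    simp
  have hc : PB pr Bᶜ = ENNReal.ofReal (1 - a) := by
    rw [prob_compl_eq_one_sub (measurableSet_allEq _ _), ha, ENNReal.ofReal_sub _ ha0]
    simp
  refine (measure_mono hsub).trans ((measure_union_le _ _).trans ?_)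
  refine (add_le_add le_rfl ((measure_union_le _ _).trans (add_le_add f1 f2))).trans ?_
  rw [hq, hc, ← ENNReal.ofReal_add (by positivity) (by positivity),
    ← ENNReal.ofReal_add (by linarith) (by positivity)]
  exact ENNReal.ofReal_le_ofReal (by linarith)

/-- The events for the columns `i (2 k + 1)` depend on disjoint sets of edges
(`measurableSet_bad`, `indep_coordAlg`, induction on `n`). -/
theorem loc_all {b : ℝ≥0∞} (k n : ℕ) (h : ∀ x, PB pr {c | ¬ Loc c z r z' r' k x} ≤ b) :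
    PB pr {c | ∀ i < n, ¬ Loc c z r z' r' k (i * (2 * k + 1))} ≤ b ^ n := by
  induction n with
  | zero => simp
  | succ n ih =>
    have h1 : {c | ∀ i < n + 1, ¬ Loc c z r z' r' k (i * (2 * k + 1))} =
        {c | ∀ i < n, ¬ Loc c z r z' r' k (i * (2 * k + 1))} ∩
          {c | ¬ Loc c z r z' r' k (n * (2 * k + 1))} := by
      ext c
      simp only [mem_ofPred_eq, mem_inter_iff, Nat.forall_lt_succ_right]
    have h2 : MeasurableSet[coordAlg {f : E2 | |f.1 - ((n * (2 * k + 1) : ℕ) : ℤ)| ≤ k}ᶜ]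
        {c | ∀ i < n, ¬ Loc c z r z' r' k (i * (2 * k + 1))} := by
      have h3 : {c | ∀ i < n, ¬ Loc c z r z' r' k (i * (2 * k + 1))} =
          ⋂ i ∈ Finset.range n, {c | ¬ Loc c z r z' r' k (i * (2 * k + 1))} := by
        ext c
        simp only [mem_ofPred_eq, mem_iInter, Finset.mem_range]
      rw [h3]
      refine Finset.measurableSet_biInter _ fun i hi => ?_
      refine arcP_alg_mono ?_ _ (arcP_meas_loc k (i * (2 * k + 1)))
      intro f hf hf2
      have hi2 : (i + 1) * (2 * k + 1) ≤ n * (2 * k + 1) :=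
        Nat.mul_le_mul_right _ (Finset.mem_range.1 hi)
      rw [add_mul, one_mul] at hi2
      rw [mem_ofPred_eq, abs_le] at hf hf2
      have a1 := hf.2
      have a2 := hf2.1
      omega
    have h4 := (Indep_iff _ _ _).1 (indep_coordAlg pr disjoint_compl_left) _ _ h2
      (arcP_meas_loc (z := z) (z' := z') (r := r) (r' := r') k (n * (2 * k + 1)))
    rw [h1, h4, pow_succ]
    exact mul_le_mul' ih (h _)

theorem arc_cube (k : ℕ) : (k + 1) ^ 3 ≤ 8 * 4 ^ k := by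
  induction k with
  | zero => norm_num
  | succ k ih =>
    cases k with
    | zero => norm_num
    | succ k =>
      have h : (k + 1 + 1 + 1) ^ 3 ≤ 4 * (k + 1 + 1) ^ 3 := by
        nlinarith [Nat.zero_le k, Nat.zero_le (k ^ 2), Nat.zero_le (k ^ 3)]
      rw [pow_succ 4]
      omega

/-- `p ^ 2 ≥ 2 ^ (- c / 8)`, so `p ^ (2 H) ≥ v ^ (- 1 / 8)`; `k = sqrt v / 2 ≥ v ^ (1 / 2) / 4` for
`v ≥ 16`, `1 - s ≤ exp (- s)`. -/
theorem arc_num (hp : 0 < p) (hp1 : p ≤ 1) : ∃ c C : ℕ, ∀ v H : ℕ, 2 ^ (c * H) ≤ v →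
    (1 - p ^ (2 * H) / 2) ^ (v.sqrt / 2) + 2 * (v.sqrt / 2 : ℕ) * (1 / 4 : ℝ) ^ (v.sqrt / 2) +
      2 / v ≤ C / v := by
  obtain ⟨c, hc⟩ := pow_unbounded_of_one_lt ((p ^ 16)⁻¹) (one_lt_two (α := ℝ))
  have hc1 : 1 ≤ p ^ 16 * 2 ^ c := by
    have h16 : 0 < p ^ 16 := by positivity
    have := mul_le_mul_of_nonneg_left hc.le h16.le
    rwa [mul_inv_cancel₀ h16.ne'] at this
  refine ⟨c, 2 * 65536 * 40320 + 64 + 2, fun v H hv => ?_⟩
  have hv1 : 1 ≤ v := (Nat.one_le_two_pow).trans hv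
  have hvr : (1 : ℝ) ≤ v := by exact_mod_cast hv1
  have hv0 : (0 : ℝ) < v := by linarith
  obtain ⟨k, hk⟩ : ∃ k, k = v.sqrt / 2 := ⟨_, rfl⟩
  rw [← hk]
  have hvk : (v : ℝ) ≤ 4 * (k + 1) ^ 2 := by
    have h1 := Nat.lt_succ_sqrt' v
    have h2 : v.sqrt.succ ≤ 2 * (k + 1) := by omega
    have h3 : v ≤ 4 * (k + 1) ^ 2 := by
      have := Nat.pow_le_pow_left h2 2
      nlinarith
    exact_mod_cast h3
  obtain ⟨s, hs⟩ : ∃ s, s = p ^ (2 * H) := ⟨_, rfl⟩
  rw [← hs]
  have hs0 : 0 < s := by rw [hs]; positivity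
  have hs1 : s ≤ 1 := by rw [hs]; exact pow_le_one₀ hp.le hp1
  have hsv : 1 ≤ s ^ 8 * v := by
    have h1 : ((2 : ℝ) ^ c) ^ H ≤ v := by rw [← pow_mul]; exact_mod_cast hv
    have h2 : s ^ 8 = (p ^ 16) ^ H := by
      rw [hs, ← pow_mul, ← pow_mul]; congr 1; ring
    have h3 : 1 ≤ (p ^ 16 * 2 ^ c) ^ H := one_le_pow₀ hc1
    rw [mul_pow] at h3
    rw [h2]
    exact h3.trans (mul_le_mul_of_nonneg_left h1 (by positivity))
  have t1 : (1 - s / 2) ^ k ≤ 2 * 65536 * 40320 / v := by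
    obtain ⟨y, hy⟩ : ∃ y, y = s / 2 * (k + 1) := ⟨_, rfl⟩
    have hy0 : 0 ≤ y := by rw [hy]; positivity
    have a1 : (1 - s / 2) ^ (k + 1) ≤ Real.exp (-y) := by
      have b1 : 1 - s / 2 ≤ Real.exp (-(s / 2)) := by
        have := Real.add_one_le_exp (-(s / 2)); linarith
      refine (pow_le_pow_left₀ (by linarith) b1 _).trans (le_of_eq ?_)
      rw [← Real.exp_nat_mul, hy]; congr 1; push_cast; ring
    have a2 : (1 - s / 2) ^ k ≤ 2 * Real.exp (-y) := by
      rw [pow_succ] at a1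
      have : 0 ≤ (1 - s / 2) ^ k := pow_nonneg (by linarith) _
      nlinarith
    have a3 : y ^ 8 / 40320 ≤ Real.exp y := by
      have := Real.pow_div_factorial_le_exp y hy0 8
      norm_num [Nat.factorial] at this
      exact this
    have a4 : (v : ℝ) ≤ 65536 * y ^ 8 := by
      have b1 : (v : ℝ) ^ 4 ≤ (4 * (k + 1) ^ 2) ^ 4 := pow_le_pow_left₀ hv0.le hvk 4
      have b2 : 65536 * y ^ 8 = s ^ 8 * (4 * (k + 1) ^ 2) ^ 4 := by rw [hy]; ring
      have b3 : (v : ℝ) ≤ v ^ 3 := le_self_pow₀ hvr (by norm_num)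
      have b4 : (v : ℝ) ^ 3 ≤ s ^ 8 * v ^ 4 := by
        have := mul_le_mul_of_nonneg_right hsv (pow_nonneg hv0.le 3)
        calc (v : ℝ) ^ 3 = 1 * v ^ 3 := by ring
          _ ≤ s ^ 8 * v * v ^ 3 := this
          _ = _ := by ring
      rw [b2]
      exact b3.trans (b4.trans (mul_le_mul_of_nonneg_left b1 (by positivity)))
    refine a2.trans ?_
    rw [Real.exp_neg, le_div_iff₀ hv0, mul_assoc, mul_assoc, ← div_eq_inv_mul]
    refine mul_le_mul_of_nonneg_left ?_ (by norm_num)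
    rw [div_le_iff₀ (Real.exp_pos y)]
    linarith
  have t2 : 2 * (k : ℝ) * (1 / 4 : ℝ) ^ k ≤ 64 / v := by
    have a1 : ((k : ℝ) + 1) ^ 3 ≤ 8 * 4 ^ k := by exact_mod_cast arc_cube k
    have a2 : (0 : ℝ) < 4 ^ k := by positivity
    have a3 : (0 : ℝ) ≤ k := Nat.cast_nonneg k
    rw [one_div, inv_pow, ← div_eq_mul_inv, div_le_div_iff₀ a2 hv0]
    have a4 : 2 * (k : ℝ) * v ≤ 2 * (k + 1) * (4 * (k + 1) ^ 2) :=
      mul_le_mul (by linarith) hvk hv0.le (by positivity)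
    nlinarith
  have e : ((2 * 65536 * 40320 + 64 + 2 : ℕ) : ℝ) / v =
      2 * 65536 * 40320 / v + 64 / v + 2 / v := by push_cast; ring
  rw [e]
  linarith

/-- `v = min r r'`, `k = n = sqrt v / 2`, so the columns are at most `v`. `loc_all`, `loc_ge`,
`far_le`, `mid_le`, `arc_num`. -/
theorem arc_le (hp : 0 < p) (hp1 : p ≤ 1) : ∃ c C : ℕ, ∀ (pr : E2 → unitInterval) (z z' : ℤ)
    (r r' H : ℕ), (∀ e, p ≤ pr e) → (∀ e, inR z r e ∨ inR z' r' e → (999 / 1000 : ℝ) ≤ pr e) →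
    z' = z + 2 * r + 2 * H → 2 ^ (c * H) ≤ min r r' →
    PB pr {c | ¬ ArcOK c z r z' r'} ≤ C * ((min r r' : ℕ) : ℝ≥0∞)⁻¹ := by
  obtain ⟨c, C, hC⟩ := arc_num hp hp1
  refine ⟨c, C, fun pr z z' r r' H h0 h hz hv => ?_⟩
  obtain ⟨v, hvv⟩ : ∃ v, v = min r r' := ⟨_, rfl⟩
  rw [← hvv] at hv ⊢
  have hnum := hC v H hv
  have hv1 : 1 ≤ v := (Nat.one_le_two_pow).trans hv
  have hv0 : (0 : ℝ) < v := by exact_mod_cast hv1
  obtain ⟨k, hk⟩ : ∃ k, k = v.sqrt / 2 := ⟨_, rfl⟩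
  rw [← hk] at hnum
  have hcol : ∀ i < k, i * (2 * k + 1) ≤ v := fun i hi => by
    have h1 := Nat.sqrt_le v
    have h2 : 2 * k ≤ v.sqrt := by omega
    have h3 := Nat.mul_le_mul h2 h2
    nlinarith
  let D : ℕ → Set (E2 → Bool) := fun i => {c | ∃ j, k ≤ j ∧ Dn c z r (i * (2 * k + 1)) j}
  let U : ℕ → Set (E2 → Bool) := fun i => {c | ∃ j, k ≤ j ∧ Up c z' r' (i * (2 * k + 1)) j}
  have hsub : {c | ¬ ArcOK c z r z' r'} ⊆
      ({c | ∀ i < k, ¬ Loc c z r z' r' k (i * (2 * k + 1))} ∪ ⋃ i ∈ Finset.range k, (D i ∪ U i)) ∪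
        ({c | Mid c z r} ∪ {c | Mid c z' r'}) := by
    intro ω hω
    by_contra hn
    simp only [mem_union, mem_iUnion, mem_ofPred_eq, not_or, not_forall, not_exists, not_not,
      Finset.mem_range, D, U, not_and] at hn
    obtain ⟨⟨⟨i, hi, l1, l2, l3⟩, h2⟩, m1, m2⟩ := hn
    have := hcol i hi
    refine hω ⟨m1, m2, i * (2 * k + 1), by omega, by omega, fun j _ => ?_, fun j _ => ?_, l3⟩
    · exact (lt_or_ge j k).elim (l1 j) ((h2 i hi).1 j)
    · exact (lt_or_ge j k).elim (l2 j) ((h2 i hi).2 j)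
  have q4 : (4⁻¹ * 4⁻¹ ^ k : ℝ≥0∞) ≤ ENNReal.ofReal ((1 / 4) ^ k) := by
    rw [ENNReal.ofReal_pow (by norm_num), one_div, ENNReal.ofReal_inv_of_pos (by norm_num),
      ENNReal.ofReal_ofNat]
    exact mul_le_of_le_one_left' (ENNReal.inv_le_one.2 (by norm_num))
  have hD : ∀ i, PB pr (D i) ≤ ENNReal.ofReal ((1 / 4) ^ k) := fun i => by
    have := far_le (pr := pr) (z := z) (r := r) (fun e he => h e (Or.inl he)) MeasurableSet.univ
      (fun j => (((i * (2 * k + 1) : ℕ) : ℤ), z + 2 * r - 1 - j, false)) k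
    rw [univ_inter, measure_univ, one_mul] at this
    exact this.trans q4
  have hU : ∀ i, PB pr (U i) ≤ ENNReal.ofReal ((1 / 4) ^ k) := fun i => by
    have := far_le (pr := pr) (z := z') (r := r') (fun e he => h e (Or.inr he)) MeasurableSet.univ
      (fun j => (((i * (2 * k + 1) : ℕ) : ℤ), z' + j, false)) k
    rw [univ_inter, measure_univ, one_mul] at this
    exact this.trans q4
  have hs1 : p ^ (2 * H) ≤ 1 := pow_le_one₀ hp.le hp1
  have b1 : PB pr {c | ∀ i < k, ¬ Loc c z r z' r' k (i * (2 * k + 1))} ≤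
      ENNReal.ofReal ((1 - p ^ (2 * H) / 2) ^ k) := by
    rw [ENNReal.ofReal_pow (by linarith)]
    exact loc_all k k (loc_ge hp.le h0 h (g := 2 * H) (by rw [hz]; push_cast; ring) k)
  have b2 : PB pr (⋃ i ∈ Finset.range k, (D i ∪ U i)) ≤
      ENNReal.ofReal (2 * (k : ℝ) * (1 / 4) ^ k) := by
    refine (measure_biUnion_finset_le _ _).trans ((Finset.sum_le_card_nsmul _ _ _ fun i _ =>
      (measure_union_le _ _).trans (add_le_add (hD i) (hU i))).trans (le_of_eq ?_))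
    rw [Finset.card_range, ← ENNReal.ofReal_add (by positivity) (by positivity), nsmul_eq_mul,
      ← ENNReal.ofReal_natCast, ← ENNReal.ofReal_mul (Nat.cast_nonneg _)]
    congr 1
    ring
  have hinv : ∀ t : ℕ, v ≤ t → (t : ℝ≥0∞)⁻¹ ≤ ENNReal.ofReal (1 / v) := fun t ht => by
    rw [one_div, ENNReal.ofReal_inv_of_pos hv0, ENNReal.ofReal_natCast]
    exact ENNReal.inv_le_inv.2 (by exact_mod_cast ht)
  have b3 : PB pr ({c | Mid c z r} ∪ {c | Mid c z' r'}) ≤ ENNReal.ofReal (2 / v) := by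
    refine (measure_union_le _ _).trans ((add_le_add
      ((mid_le (fun e he => h e (Or.inl he)) (by omega)).trans (hinv r (by omega)))
      ((mid_le (fun e he => h e (Or.inr he)) (by omega)).trans (hinv r' (by omega)))).trans
      (le_of_eq ?_))
    rw [← ENNReal.ofReal_add (by positivity) (by positivity)]
    congr 1
    ring
  refine (measure_mono hsub).trans ((measure_union_le _ _).trans
    ((add_le_add ((measure_union_le _ _).trans (add_le_add b1 b2)) b3).trans ?_))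
  have n1 : 0 ≤ (1 - p ^ (2 * H) / 2) ^ k := pow_nonneg (by linarith) _
  rw [← ENNReal.ofReal_add n1 (by positivity),
    ← ENNReal.ofReal_add (add_nonneg n1 (by positivity)) (by positivity)]
  refine (ENNReal.ofReal_le_ofReal hnum).trans (le_of_eq ?_)
  rw [div_eq_mul_inv, ENNReal.ofReal_mul (Nat.cast_nonneg _), ENNReal.ofReal_natCast,
    ENNReal.ofReal_inv_of_pos hv0, ENNReal.ofReal_natCast]

end Pool.Agent.Lib.MP_c59c01_pr.TH
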