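import Pool.Agent.Lib.MP_c59c01_pr.TH.Lists

set_option autoImplicit false

open MeasureTheory ProbabilityTheory Set Filter Topology
open scoped ENNReal

namespace Pool.Agent.Lib.MP_c59c01_pr.TH

/-! Consequences of the two limits. -/

variable {μ : Measure ℕ} [IsProbabilityMeasure μ] {θ : ℝ}

/-- If the tail vanished somewhere the quotient would be `0 / 0 = 0` from there on. -/
theorem tl_pos (h1 : Tendsto (fun n => tl μ (2 * n) / tl μ n) atTop (𝓝 1)) (n : ℕ) :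
    0 < tl μ n := by
  by_contra hn
  have h0 : ∀ m, n ≤ m → tl μ m = 0 := fun m hm =>
    le_antisymm ((tl_anti μ hm).trans (not_lt.1 hn)) measureReal_nonneg
  have h2 : Tendsto (fun n => tl μ (2 * n) / tl μ n) atTop (𝓝 0) := by
    refine tendsto_const_nhds.congr' ?_
    filter_upwards [eventually_ge_atTop n] with m hm
    rw [h0 m hm, div_zero]
  exact one_ne_zero (tendsto_nhds_unique h1 h2)

theorem asym_step (h1 : Tendsto (fun n => tl μ (2 * n) / tl μ n) atTop (𝓝 1)) {δ : ℝ}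
    (hδ : 0 < δ) : ∀ᶠ m in atTop, tl μ m ≤ (1 + δ) * tl μ (m + 1) := by
  have hlt : (1 + δ)⁻¹ < 1 := inv_lt_one_of_one_lt₀ (by linarith)
  filter_upwards [h1.eventually (lt_mem_nhds hlt), eventually_ge_atTop 1] with m hm h1m
  rw [lt_div_iff₀ (tl_pos h1 m), inv_mul_lt_iff₀ (by linarith)] at hm
  have h2 : tl μ (2 * m) ≤ tl μ (m + 1) := tl_anti μ (by omega)
  exact hm.le.trans (mul_le_mul_of_nonneg_left h2 (by linarith))

/-- `tl (2 n) ≥ (4 / 5) tl n` from some point on, so `2 ^ k * tl (2 ^ (k + 1)) ^ 2` grows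
geometrically. -/
theorem asym_sqrt (h1 : Tendsto (fun n => tl μ (2 * n) / tl μ n) atTop (𝓝 1)) :
    ∀ᶠ y : ℕ in atTop, 1 ≤ (y : ℝ) * tl μ (y + 1) ^ 2 := by
  obtain ⟨N, hN⟩ := eventually_atTop.1
    ((h1.eventually (lt_mem_nhds (by norm_num : (4 / 5 : ℝ) < 1))).and (eventually_ge_atTop 1))
  have hN1 : 1 ≤ N := (hN N le_rfl).2
  have ht := tl_pos h1 N
  have hk : ∀ k : ℕ, (4 / 5 : ℝ) ^ k * tl μ N ≤ tl μ (2 ^ k * N) := by
    intro k
    induction k with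
    | zero => simp
    | succ k ih =>
      have h2 := (hN (2 ^ k * N) (Nat.le_mul_of_pos_left N (by positivity))).1
      rw [lt_div_iff₀ (tl_pos h1 _)] at h2
      rw [show 2 ^ (k + 1) * N = 2 * (2 ^ k * N) by ring, pow_succ]
      linarith
  obtain ⟨K, hK⟩ := eventually_atTop.1
    ((tendsto_pow_atTop_atTop_of_one_lt (by norm_num : (1 : ℝ) < 32 / 25)).eventually_ge_atTop
      (25 / 16 / tl μ N ^ 2))
  filter_upwards [eventually_ge_atTop (2 ^ K * N)] with y hy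
  obtain ⟨k, hkd⟩ : ∃ k, k = Nat.log 2 (y / N) := ⟨_, rfl⟩
  have a0 : 2 ^ K ≤ y / N := (Nat.le_div_iff_mul_le hN1).2 hy
  have a1 : K ≤ k := hkd ▸ Nat.le_log_of_pow_le (by norm_num) a0
  have a2 : 2 ^ k ≤ y / N :=
    hkd ▸ Nat.pow_log_le_self 2 (lt_of_lt_of_le (by positivity) a0).ne'
  have a3 : y / N < 2 ^ (k + 1) := hkd ▸ Nat.lt_pow_succ_log_self (by norm_num) _
  have a4 : y + 1 ≤ 2 ^ (k + 1) * N := (Nat.div_lt_iff_lt_mul hN1).1 a3
  have a5 : (2 : ℝ) ^ k ≤ y := by exact_mod_cast a2.trans (Nat.div_le_self _ _)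
  have a6 : (4 / 5 : ℝ) ^ (k + 1) * tl μ N ≤ tl μ (y + 1) := (hk (k + 1)).trans (tl_anti μ a4)
  have a7 := hK k a1
  rw [div_le_iff₀ (by positivity)] at a7
  have a8 : (2 : ℝ) ^ k * ((4 / 5 : ℝ) ^ (k + 1) * tl μ N) ^ 2 =
      16 / 25 * ((32 / 25) ^ k * tl μ N ^ 2) := by
    rw [show (32 / 25 : ℝ) = 2 * (4 / 5) * (4 / 5) by norm_num, mul_pow, mul_pow, mul_pow]
    ring
  calc (1 : ℝ) ≤ (2 : ℝ) ^ k * ((4 / 5 : ℝ) ^ (k + 1) * tl μ N) ^ 2 := by rw [a8]; linarith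
    _ ≤ (y : ℝ) * tl μ (y + 1) ^ 2 := by gcongr

/-- `x > 2 ^ (y - 1)` for `y = clog 2 x`, and `asym_step`. -/
theorem asym_low (h1 : Tendsto (fun n => tl μ (2 * n) / tl μ n) atTop (𝓝 1))
    (h2 : Tendsto (fun n => tl μ (2 ^ n) / tl μ n) atTop (𝓝 θ)) (hθ : θ < 1 / 2) :
    ∃ (a : ℝ) (L : ℕ), 0 ≤ a ∧ a < 1 / 2 ∧ ∀ x, L ≤ x → tl μ x ≤ a * tl μ (Nat.clog 2 x) := by
  obtain ⟨b, hb0, hb1, hb2⟩ : ∃ b : ℝ, 0 < b ∧ θ < b ∧ b < 1 / 2 := by
    refine ⟨(max θ 0 + 1 / 2) / 2, ?_, ?_, ?_⟩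
    · linarith [le_max_right θ 0]
    · linarith [le_max_left θ 0]
    · linarith [max_lt hθ (by norm_num : (0 : ℝ) < 1 / 2)]
  have hδ : 0 < 1 / 2 - b := by linarith
  obtain ⟨N, hN⟩ := eventually_atTop.1
    ((h2.eventually (gt_mem_nhds hb1)).and (asym_step h1 hδ))
  refine ⟨b * (1 + (1 / 2 - b)), 2 ^ N + 1, by positivity, by nlinarith, fun x hx => ?_⟩
  have a1 : N < Nat.clog 2 x := (Nat.lt_clog_iff_pow_lt (by norm_num)).2 hx
  have a2 : 2 ^ (Nat.clog 2 x).pred < x :=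
    Nat.pow_pred_clog_lt_self (by norm_num) (lt_of_lt_of_le (by simp) hx)
  obtain ⟨y, hy⟩ : ∃ y, Nat.clog 2 x = y + 1 := ⟨Nat.clog 2 x - 1, by omega⟩
  rw [hy] at a1 a2 ⊢
  obtain ⟨a3, a4⟩ := hN y (by omega)
  rw [div_lt_iff₀ (tl_pos h1 y)] at a3
  have a5 : tl μ x ≤ tl μ (2 ^ y) := tl_anti μ a2.le
  calc tl μ x ≤ b * tl μ y := a5.trans a3.le
    _ ≤ b * ((1 + (1 / 2 - b)) * tl μ (y + 1)) := mul_le_mul_of_nonneg_left a4 hb0.le
    _ = _ := by ring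

/-- `tl (2 ^ (4 u)) / tl (2 ^ u)` is the product of `tl (2 ^ (4 u)) / tl (4 u)`,
`tl (4 u) / tl u` and the inverse of `tl (2 ^ u) / tl u`. -/
theorem asym_four (h1 : Tendsto (fun n => tl μ (2 * n) / tl μ n) atTop (𝓝 1))
    (h2 : Tendsto (fun n => tl μ (2 ^ n) / tl μ n) atTop (𝓝 θ)) (hθ : 0 < θ) :
    Tendsto (fun u => tl μ (2 ^ (4 * u)) / tl μ (2 ^ u)) atTop (𝓝 1) := by
  have m4 : Tendsto (fun u : ℕ => 4 * u) atTop atTop :=
    tendsto_atTop_mono (fun u => by change u ≤ 4 * u; omega) tendsto_id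
  have m2 : Tendsto (fun u : ℕ => 2 * u) atTop atTop :=
    tendsto_atTop_mono (fun u => by change u ≤ 2 * u; omega) tendsto_id
  have h := (((h2.comp m4).mul (h1.comp m2)).mul h1).div h2 hθ.ne'
  rw [mul_one, mul_one, div_self hθ.ne'] at h
  refine h.congr fun u => ?_
  have a1 := (tl_pos h1 u).ne'
  have a2 := (tl_pos h1 (2 * u)).ne'
  have a3 := (tl_pos h1 (4 * u)).ne'
  have a4 := (tl_pos h1 (2 ^ u)).ne'
  simp only [Pi.div_apply, Function.comp_apply, show 2 * (2 * u) = 4 * u by ring]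
  field_simp

theorem asym_anti9 {m n : ℕ} (h : m ≤ n) : tl μ n ≤ tl μ m :=
  measureReal_mono (Ici_subset_Ici.2 h)

theorem asym_log9 : Tendsto (Nat.log 2) atTop atTop :=
  tendsto_atTop_atTop.2 fun b => ⟨2 ^ b, fun _ ha => Nat.le_log_of_pow_le (by norm_num) ha⟩

theorem asym_y9 (c : ℕ) : Tendsto (fun l => Nat.sqrt (Nat.log 2 l / (c + 1))) atTop atTop := by
  refine tendsto_atTop_atTop.2 fun b => ⟨2 ^ (b * b * (c + 1)), fun l hl => ?_⟩
  rw [Nat.le_sqrt, Nat.le_div_iff_mul_le (Nat.succ_pos c)]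
  exact Nat.le_log_of_pow_le (by norm_num) hl

theorem asym_n9 {c y : ℕ} (h : c + 2 ≤ Nat.log 2 (y + 1)) :
    (c + 1) * ((y + 1) * (y + 1)) ≤ 2 ^ (4 * Nat.log 2 (y + 1)) := by
  set u := Nat.log 2 (y + 1) with hu
  have a1 : y + 1 ≤ 2 ^ (u + 1) := (Nat.lt_pow_succ_log_self (by norm_num) _).le
  have a2 : c + 1 ≤ 2 ^ c := Nat.lt_two_pow_self
  calc (c + 1) * ((y + 1) * (y + 1)) ≤ 2 ^ c * (2 ^ (u + 1) * 2 ^ (u + 1)) :=
        Nat.mul_le_mul a2 (Nat.mul_le_mul a1 a1)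
    _ = 2 ^ (c + (u + 1 + (u + 1))) := by rw [← pow_add, ← pow_add]
    _ ≤ 2 ^ (4 * u) := Nat.pow_le_pow_right (by norm_num) (by omega)

/-- `y l = sqrt (log 2 l / (c + 1))`; `l + 1 ≤ 2 ^ n` for `n = (c + 1) (y + 1) ^ 2`, and with
`u = log 2 (y + 1)`: `2 ^ u ≤ y + 1`, `n ≤ 2 ^ (4 u)` for large `y`. -/
theorem asym_high (h1 : Tendsto (fun n => tl μ (2 * n) / tl μ n) atTop (𝓝 1))
    (h2 : Tendsto (fun n => tl μ (2 ^ n) / tl μ n) atTop (𝓝 θ)) (hθ : 1 / 2 < θ) (c : ℕ) :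
    ∃ (a : ℝ) (y : ℕ → ℕ), 1 / 2 < a ∧ Tendsto y atTop atTop ∧
      ∀ᶠ l in atTop, 2 ^ (c * (y l * y l)) ≤ l ∧ y l ≤ l ∧ a * tl μ (y l + 1) ≤ tl μ (l + 1) := by
  set s := (1 / 2 + θ) / 2 with hs
  have s1 : 1 / 2 < s := by linarith
  have s2 : s < θ := by linarith
  have s0 : 0 < s := by linarith
  set b := (1 / 2 + s) / 2 / s with hb
  have b1 : b < 1 := (div_lt_one s0).2 (by linarith)
  have b2 : s * b = (1 / 2 + s) / 2 := mul_div_cancel₀ _ s0.ne'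
  have hy := asym_y9 c
  have hy1 : Tendsto (fun l => Nat.sqrt (Nat.log 2 l / (c + 1)) + 1) atTop atTop :=
    tendsto_atTop_mono (fun _ => Nat.le_succ _) hy
  have hu := asym_log9.comp hy1
  have hn : Tendsto (fun l => (c + 1) * ((Nat.sqrt (Nat.log 2 l / (c + 1)) + 1) *
      (Nat.sqrt (Nat.log 2 l / (c + 1)) + 1))) atTop atTop :=
    tendsto_atTop_mono (fun l => (Nat.le_mul_self _).trans
      (Nat.le_mul_of_pos_left _ (Nat.succ_pos c))) hy1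
  have e1 := hn.eventually (h2.eventually (lt_mem_nhds s2))
  have e2 := hu.eventually ((asym_four h1 h2 (by linarith)).eventually (lt_mem_nhds b1))
  refine ⟨s * b, fun l => Nat.sqrt (Nat.log 2 l / (c + 1)), by linarith, hy, ?_⟩
  filter_upwards [e1, e2, hu.eventually_ge_atTop (c + 2), eventually_ge_atTop 1] with l k1 k2 k3 k4
  simp only [Function.comp_apply] at k2 k3
  generalize hyl : Nat.sqrt (Nat.log 2 l / (c + 1)) = y at k1 k2 k3 ⊢
  have q1 : y * y * (c + 1) ≤ Nat.log 2 l := by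
    rw [← Nat.le_div_iff_mul_le (Nat.succ_pos c), ← hyl]
    exact Nat.sqrt_le _
  have q2 : Nat.log 2 l < (y + 1) * (y + 1) * (c + 1) := by
    rw [← Nat.div_lt_iff_lt_mul (Nat.succ_pos c), ← hyl]
    exact Nat.lt_succ_sqrt _
  have q3 : 2 ^ Nat.log 2 l ≤ l := Nat.pow_log_le_self 2 (by omega)
  have q4 : l + 1 ≤ 2 ^ ((c + 1) * ((y + 1) * (y + 1))) :=
    (Nat.lt_pow_succ_log_self (b := 2) (by norm_num) l).trans_le
      (Nat.pow_le_pow_right (by norm_num) (by rw [mul_comm]; exact q2))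
  refine ⟨(Nat.pow_le_pow_right (by norm_num) (by nlinarith)).trans q3, ?_, ?_⟩
  · have := Nat.log_le_self 2 l
    nlinarith [Nat.le_mul_self y]
  · rw [lt_div_iff₀ (tl_pos h1 _)] at k1 k2
    have t1 : tl μ (y + 1) ≤ tl μ (2 ^ Nat.log 2 (y + 1)) :=
      asym_anti9 (Nat.pow_log_le_self 2 (by omega))
    have t2 := asym_anti9 (μ := μ) (asym_n9 k3)
    have t3 := asym_anti9 (μ := μ) q4
    have b0 : 0 ≤ b := by positivity
    have t4 := mul_le_mul_of_nonneg_left t1 b0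
    have t5 : b * tl μ (y + 1) ≤ tl μ ((c + 1) * ((y + 1) * (y + 1))) := by linarith
    have t6 := mul_le_mul_of_nonneg_left t5 s0.le
    rw [mul_assoc]
    linarith

end Pool.Agent.Lib.MP_c59c01_pr.TH
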