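import Pool.Agent.Lib.MP_c59c01_pr.TH.Base

set_option autoImplicit false

open MeasureTheory ProbabilityTheory Set Filter Topology
open scoped ENNReal

namespace Pool.Agent.Lib.MP_c59c01_pr.TH

/-! The probability of a closed chain. -/

variable {pr : E2 → unitInterval} {z : ℤ} {r : ℕ}

lemma badP_closed (h : ∀ e, inR z r e → (999 / 1000 : ℝ) ≤ pr e) {B : Set (E2 → Bool)}
    (hB : MeasurableSet[coordAlg {e | inR z r e}ᶜ] B) (F : Finset E2) (hF : ∀ e ∈ F, inR z r e) :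
    PB pr (B ∩ allEq F false) ≤ PB pr B * (1000⁻¹ : ℝ≥0∞) ^ F.card := by
  have h1 := (Indep_iff _ _ _).1
    (indep_coordAlg pr (S := {e | inR z r e}ᶜ) (T := {e | inR z r e}) disjoint_compl_left)
    B (allEq F false) hB (measurableSet_allEq_coordAlg hF false)
  rw [h1, PB_allEq_false]
  gcongr
  refine Finset.prod_le_pow_card _ _ _ fun e he => ?_
  have h2 := h e (hF e he)
  have h3 : (1000⁻¹ : ℝ≥0∞) = ((1000⁻¹ : NNReal) : ℝ≥0∞) := by
    rw [ENNReal.coe_inv (by norm_num)]; rfl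
  rw [h3, ENNReal.coe_le_coe, ← NNReal.coe_le_coe]
  change 1 - (pr e : ℝ) ≤ _
  push_cast
  linarith

/-- the neighbours of an edge -/
noncomputable def badP_nb (e : E2) : Finset E2 :=
  Finset.Icc (e.1 - 1) (e.1 + 1) ×ˢ Finset.Icc (e.2.1 - 1) (e.2.1 + 1) ×ˢ Finset.univ

lemma badP_card (e : E2) : (badP_nb e).card = 18 := by
  have h : ∀ a : ℤ, (a + 1 + 1 - (a - 1)).toNat = 3 := fun a => by omega
  simp only [badP_nb, Finset.card_product, Int.card_Icc, h, Finset.card_univ, Fintype.card_bool]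

lemma badP_mem {e f : E2} (h : near e f) : f ∈ badP_nb e := by
  obtain ⟨h1, h2⟩ := h
  rw [abs_le] at h1 h2
  simp only [badP_nb, Finset.mem_product, Finset.mem_Icc, Finset.mem_univ, and_true]
  omega

lemma badP_aux (h : ∀ e, inR z r e → (999 / 1000 : ℝ) ≤ pr e) {B : Set (E2 → Bool)}
    (hB : MeasurableSet[coordAlg {e | inR z r e}ᶜ] B) (n : ℕ) :
    ∀ (F : Finset E2) (e : E2), (∀ f ∈ F, inR z r f) →
      PB pr (B ∩ allEq F false ∩ {c | ∃ l : List E2, l.length = n ∧ (e :: l).Nodup ∧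
        (e :: l).IsChain near ∧ ∀ f ∈ e :: l, inR z r f ∧ f ∉ F ∧ c f = false}) ≤
      PB pr B * (1000⁻¹ : ℝ≥0∞) ^ F.card * (18 * 1000⁻¹) ^ (n + 1) := by
  classical
  have h0 : ∀ n (F : Finset E2) (e : E2), ¬ (inR z r e ∧ e ∉ F) →
      B ∩ allEq F false ∩ {c | ∃ l : List E2, l.length = n ∧ (e :: l).Nodup ∧
        (e :: l).IsChain near ∧ ∀ f ∈ e :: l, inR z r f ∧ f ∉ F ∧ c f = false} = ∅ := by
    intro n F e he
    refine eq_empty_of_forall_notMem ?_
    rintro c ⟨-, l, -, -, -, h4⟩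
    exact he ⟨(h4 e List.mem_cons_self).1, (h4 e List.mem_cons_self).2.1⟩
  induction n with
  | zero =>
    intro F e hF
    by_cases he : inR z r e ∧ e ∉ F
    · refine le_trans (measure_mono ?_) ((badP_closed h hB (insert e F)
        (Finset.forall_mem_insert _ _ _ |>.2 ⟨he.1, hF⟩)).trans ?_)
      · rintro c ⟨⟨h1, h2⟩, l, -, -, -, h4⟩
        exact ⟨h1, Finset.forall_mem_insert _ _ _ |>.2 ⟨(h4 e List.mem_cons_self).2.2, h2⟩⟩
      · rw [Finset.card_insert_of_notMem he.2, pow_succ, zero_add, pow_one, mul_assoc]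
        gcongr
        exact le_mul_of_one_le_left' (by norm_num)
    · rw [h0 _ _ _ he, measure_empty]
      exact zero_le
  | succ n ih =>
    intro F e hF
    by_cases he : inR z r e ∧ e ∉ F
    · have hs : B ∩ allEq F false ∩ {c | ∃ l : List E2, l.length = n + 1 ∧ (e :: l).Nodup ∧
          (e :: l).IsChain near ∧ ∀ f ∈ e :: l, inR z r f ∧ f ∉ F ∧ c f = false} ⊆
          ⋃ g ∈ badP_nb e, B ∩ allEq (insert e F) false ∩
            {c | ∃ l : List E2, l.length = n ∧ (g :: l).Nodup ∧ (g :: l).IsChain near ∧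
              ∀ f ∈ g :: l, inR z r f ∧ f ∉ insert e F ∧ c f = false} := by
        rintro c ⟨⟨h1, h2⟩, l, h3, h4, h5, h6⟩
        obtain _ | ⟨g, l⟩ := l
        · simp at h3
        rw [List.isChain_cons_cons] at h5
        rw [List.nodup_cons] at h4
        refine mem_biUnion (badP_mem h5.1) ⟨⟨h1, Finset.forall_mem_insert _ _ _ |>.2
          ⟨(h6 e List.mem_cons_self).2.2, h2⟩⟩, l, by simpa using h3, h4.2, h5.2, fun f hf => ?_⟩
        have h7 := h6 f (List.mem_cons_of_mem _ hf)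
        refine ⟨h7.1, fun h8 => ?_, h7.2.2⟩
        rcases Finset.mem_insert.1 h8 with rfl | h8
        exacts [h4.1 hf, h7.2.1 h8]
      refine (measure_mono hs).trans ((measure_biUnion_finset_le _ _).trans ?_)
      refine (Finset.sum_le_card_nsmul _ _ _ fun g _ => ih (insert e F) g
        (Finset.forall_mem_insert _ _ _ |>.2 ⟨he.1, hF⟩)).trans (le_of_eq ?_)
      rw [badP_card, Finset.card_insert_of_notMem he.2, nsmul_eq_mul]
      push_cast
      ring
    · rw [h0 _ _ _ he, measure_empty]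
      exact zero_le

lemma badP_dist (l : List E2) : ∀ e : E2, (e :: l).IsChain near → ∀ f ∈ e :: l,
    |f.1 - e.1| ≤ l.length := by
  induction l with
  | nil => intro e _ f hf; simp_all
  | cons g l ih =>
    intro e h f hf
    rw [List.isChain_cons_cons] at h
    rcases List.mem_cons.1 hf with rfl | hf
    · rw [sub_self, abs_zero]; positivity
    · have h1 := ih g h.2 f hf
      have h2 := h.1.1
      rw [abs_le] at *
      simp only [List.length_cons]
      push_cast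
      omega

/-- Induction on `n` over chains that avoid a finite set of closed edges, as in
`measure_longTrail_le`; an edge has at most 18 neighbours and is closed with probability at most
`1 / 1000`. -/
theorem bad_le (h : ∀ e, inR z r e → (999 / 1000 : ℝ) ≤ pr e) {B : Set (E2 → Bool)}
    (hB : MeasurableSet[coordAlg {e | inR z r e}ᶜ] B) (e : E2) (n : ℕ) :
    PB pr (B ∩ {c | Bad c z r e n}) ≤ PB pr B * (32⁻¹ : ℝ≥0∞) ^ (n + 1) := by
  refine le_trans (measure_mono ?_) ((badP_aux h hB n ∅ e (by simp)).trans ?_)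
  · rintro c ⟨h1, l, h2, h3, h4, h5⟩
    exact ⟨⟨h1, by simp [allEq]⟩, l, h2, h3, h4, fun f hf => ⟨(h5 f hf).1, by simp, (h5 f hf).2⟩⟩
  · rw [Finset.card_empty, pow_zero, mul_one]
    gcongr
    rw [← div_eq_mul_inv, ENNReal.le_inv_iff_mul_le, ← ENNReal.mul_div_right_comm]
    exact ENNReal.div_le_of_le_mul (by norm_num)

/-- A chain moves the first coordinate by at most one in each step. -/
theorem measurableSet_bad (e : E2) {n k : ℕ} (hn : n ≤ k) :
    MeasurableSet[coordAlg {f : E2 | |f.1 - e.1| ≤ k}] {c | Bad c z r e n} := by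
  classical
  have : {c | Bad c z r e n} = ⋃ l : List E2, ⋃ (_ : l.length = n ∧ (e :: l).Nodup ∧
      (e :: l).IsChain near ∧ ∀ f ∈ e :: l, inR z r f), allEq (e :: l).toFinset false := by
    ext c
    simp only [Bad, mem_ofPred_eq, mem_iUnion, allEq, List.mem_toFinset, exists_prop]
    exact exists_congr fun l => ⟨fun h => ⟨⟨h.1, h.2.1, h.2.2.1, fun f hf => (h.2.2.2 f hf).1⟩,
      fun f hf => (h.2.2.2 f hf).2⟩,
      fun h => ⟨h.1.1, h.1.2.1, h.1.2.2.1, fun f hf => ⟨h.1.2.2.2 f hf, h.2 f hf⟩⟩⟩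
  rw [this]
  refine MeasurableSet.iUnion fun l => MeasurableSet.iUnion fun hl =>
    measurableSet_allEq_coordAlg (fun f hf => ?_) false
  refine (badP_dist l e hl.2.2.1 f (List.mem_toFinset.1 hf)).trans ?_
  rw [hl.1]
  exact_mod_cast hn

theorem mid_le (h : ∀ e, inR z r e → (999 / 1000 : ℝ) ≤ pr e) (hr : 1 ≤ r) :
    PB pr {c | Mid c z r} ≤ (r : ℝ≥0∞)⁻¹ := by
  have hs : {c | Mid c z r} ⊆
      ⋃ i ∈ Finset.range r, univ ∩ {c | Bad c z r ((i : ℕ), z + r, true) (r / 2)} := by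
    rintro c ⟨i, h1, h2⟩
    exact mem_biUnion (Finset.mem_range.2 h1) ⟨trivial, h2⟩
  refine (measure_mono hs).trans ((measure_biUnion_finset_le _ _).trans ?_)
  refine (Finset.sum_le_card_nsmul _ _ _ fun i _ => bad_le h MeasurableSet.univ _ _).trans ?_
  have h1 : r * r ≤ 32 ^ (r / 2 + 1) := by
    have h2 : r / 2 + 1 < 2 ^ (r / 2 + 1) := Nat.lt_two_pow_self
    have h3 : r ≤ 2 * 2 ^ (r / 2 + 1) := by omega
    have h4 : 4 ≤ 8 ^ (r / 2 + 1) := le_trans (by norm_num) (Nat.le_self_pow (by omega) 8)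
    calc r * r ≤ 2 * 2 ^ (r / 2 + 1) * (2 * 2 ^ (r / 2 + 1)) := Nat.mul_le_mul h3 h3
      _ = 4 * (2 ^ (r / 2 + 1) * 2 ^ (r / 2 + 1)) := by ring
      _ ≤ 8 ^ (r / 2 + 1) * (2 ^ (r / 2 + 1) * 2 ^ (r / 2 + 1)) := Nat.mul_le_mul_right _ h4
      _ = _ := by rw [← mul_pow, ← mul_pow]; norm_num
  rw [Finset.card_range, measure_univ, one_mul, nsmul_eq_mul, ENNReal.le_inv_iff_mul_le,
    ← ENNReal.inv_pow, mul_right_comm, ← div_eq_mul_inv]
  refine ENNReal.div_le_of_le_mul ?_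
  rw [one_mul]
  exact_mod_cast h1

/-- `32⁻¹ ^ (j / 2 + 1) ≤ 5⁻¹ ^ (j + 1)`, and the sum of these over `j ≥ k` is `4⁻¹ * 5⁻¹ ^ k`. -/
theorem far_le (h : ∀ e, inR z r e → (999 / 1000 : ℝ) ≤ pr e) {B : Set (E2 → Bool)}
    (hB : MeasurableSet[coordAlg {e | inR z r e}ᶜ] B) (e : ℕ → E2) (k : ℕ) :
    PB pr (B ∩ {c | ∃ j, k ≤ j ∧ Bad c z r (e j) (j / 2)}) ≤ PB pr B * (4⁻¹ * 4⁻¹ ^ k) := by
  have hs : B ∩ {c | ∃ j, k ≤ j ∧ Bad c z r (e j) (j / 2)} ⊆
      ⋃ i, B ∩ {c | Bad c z r (e (k + i)) ((k + i) / 2)} := by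
    rintro c ⟨h1, j, h2, h3⟩
    obtain ⟨i, rfl⟩ := Nat.exists_eq_add_of_le h2
    exact mem_iUnion.2 ⟨i, h1, h3⟩
  have h1 : ∀ j : ℕ, (32⁻¹ : ℝ≥0∞) ^ (j / 2 + 1) ≤ 5⁻¹ ^ (j + 1) := fun j => by
    rw [← ENNReal.inv_pow, ← ENNReal.inv_pow, ENNReal.inv_le_inv]
    have : 5 ^ (j + 1) ≤ 32 ^ (j / 2 + 1) :=
      calc 5 ^ (j + 1) ≤ 5 ^ (2 * (j / 2 + 1)) := Nat.pow_le_pow_right (by norm_num) (by omega)
        _ = 25 ^ (j / 2 + 1) := by rw [pow_mul]; norm_num
        _ ≤ _ := Nat.pow_le_pow_left (by norm_num) _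
    exact_mod_cast this
  have h2 : (5⁻¹ : ℝ≥0∞) * (1 - 5⁻¹)⁻¹ = 4⁻¹ := by
    rw [← ENNReal.mul_inv (by norm_num) (by norm_num), ENNReal.mul_sub (by norm_num),
      ENNReal.mul_inv_cancel (by norm_num) (by norm_num), mul_one]
    congr 1
    exact ENNReal.sub_eq_of_eq_add (by norm_num) (by norm_num)
  refine (measure_mono hs).trans ((measure_iUnion_le _).trans ?_)
  calc _ ≤ ∑' i, PB pr B * (5⁻¹ ^ k * 5⁻¹) * 5⁻¹ ^ i := ENNReal.tsum_le_tsum fun i =>
        (bad_le h hB _ _).trans ((mul_le_mul_right (h1 _) _).trans (le_of_eq (by ring)))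
    _ = PB pr B * (4⁻¹ * 5⁻¹ ^ k) := by
        rw [ENNReal.tsum_mul_left, ENNReal.tsum_geometric, ← h2]
        ring
    _ ≤ _ := by
        gcongr
        norm_num

end Pool.Agent.Lib.MP_c59c01_pr.TH
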