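import Pool.Agent.Lib.MP_c59c01_pr.Env

set_option autoImplicit false

open MeasureTheory ProbabilityTheory Set Filter Topology
open scoped ENNReal

namespace Pool.Agent.Lib.MP_c59c01_pr.TH

/-! Internal definitions for the threshold theorem. -/

/-- tail -/
noncomputable def tl (μ : Measure ℕ) (n : ℕ) : ℝ := μ.real (Ici n)

/-- one-sided environment -/
noncomputable def nu (μ : Measure ℕ) : Measure (ℕ → ℕ) := Measure.infinitePi fun _ : ℕ => μ

/-- weight of a word -/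
noncomputable def wt (μ : Measure ℕ) (w : List ℕ) : ℝ≥0∞ := (w.map fun y => μ {y}).prod

/-- weighted sum over all words -/
noncomputable def sm (μ : Measure ℕ) (f : List ℕ → ℝ≥0∞) : ℝ≥0∞ := ∑' w, wt μ w * f w

open Classical in
/-- indicator of a proposition -/
noncomputable def ind (p : Prop) : ℝ≥0∞ := if p then 1 else 0

/-- the word `w` is read in `Y` from position `s` on -/
def Occ (Y : ℕ → ℕ) (s : ℕ) (w : List ℕ) : Prop := ∀ i (h : i < w.length), Y (s + i) = w[i]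

/-- sum of the values strictly between two positions -/
def gap (Y : ℕ → ℕ) (a b : ℕ) : ℕ := ∑ i ∈ Finset.Ioo a b, Y i

/-- A branch of the splitting tree of the word that reaches the level `L`. -/
inductive Cut (L K : ℕ) : ℕ → List ℕ → Prop
  | stop (x m : ℕ) (w : List ℕ) : m ∈ w → (∀ y ∈ w, y ≤ m) → m < L → x ≤ 2 ^ m → w.length ≤ K →
      Cut L K x w
  | left (x m : ℕ) (u v : List ℕ) : (∀ y ∈ u, y ≤ m) → (∀ y ∈ v, y ≤ m) → L ≤ m → x ≤ 2 ^ m →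
      Cut L K m u → Cut L K x (u ++ m :: v)
  | right (x m : ℕ) (u v : List ℕ) : (∀ y ∈ u, y ≤ m) → (∀ y ∈ v, y ≤ m) → L ≤ m → x ≤ 2 ^ m →
      Cut L K m v → Cut L K x (u ++ m :: v)

/-- A one-sided cut at scale `x`: the block is `n, ..., n + k - 1`. -/
def Side (J K x : ℕ) (Y : ℕ → ℕ) : Prop :=
  ∃ n k : ℕ, 1 ≤ k ∧ k ≤ K ∧ (∀ i < k, Y (n + i) ≤ K) ∧ J ≤ ∑ i ∈ Finset.range k, Y (n + i) ∧
    (∀ a < n, Y a ≤ 2 ^ x) ∧ (∃ a < n, x ≤ Y a) ∧
    ∀ a b, a < n → n + k ≤ b → min (Y a) (Y b) ≤ 2 ^ gap Y a b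

/-- the environment above the origin -/
def up (X : ℤ → ℕ) (i : ℕ) : ℕ := X (i + 1)

/-- the environment below the origin -/
def dn (X : ℤ → ℕ) (i : ℕ) : ℕ := X (-1 - i)

/-- an admissible jump -/
def Arc (c : ℕ) (Y : ℕ → ℕ) (a : ℕ × ℕ) : Prop :=
  a.1 < a.2 ∧ 2 ^ (c * gap Y a.1 a.2) ≤ min (Y a.1) (Y a.2)

/-- the cost of a family of jumps -/
noncomputable def cost (Y : ℕ → ℕ) (A : Set (ℕ × ℕ)) : ℝ≥0∞ :=
  ∑' a : ℕ × ℕ, A.indicator (fun a => ((min (Y a.1) (Y a.2) : ℕ) : ℝ≥0∞)⁻¹) a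

/-- a family of jumps that leads from `s` to `e` -/
def Seg (c : ℕ) (Y : ℕ → ℕ) (s e : ℕ) (t : ℝ≥0∞) : Prop :=
  ∃ A : Set (ℕ × ℕ), (∃ b, (s, b) ∈ A) ∧
    (∀ a ∈ A, Arc c Y a ∧ (a.2 = e ∨ ∃ b, (a.2, b) ∈ A)) ∧ cost Y A ≤ t

/-- a family of jumps that leads to infinity -/
def Path (c : ℕ) (Y : ℕ → ℕ) (t : ℝ≥0∞) : Prop :=
  ∃ A : Set (ℕ × ℕ), A.Nonempty ∧ (∀ a ∈ A, Arc c Y a ∧ ∃ b, (a.2, b) ∈ A) ∧ cost Y A ≤ t

/-- the cost of crossing the word `w` between two values that are at least `l` -/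
noncomputable def V (c l : ℕ) (w : List ℕ) : ℝ≥0∞ :=
  sInf {t | ∀ (Y : ℕ → ℕ) (s : ℕ), Occ Y (s + 1) w → l ≤ Y s → l ≤ Y (s + 1 + w.length) →
    Seg c Y s (s + 1 + w.length) t}

/-- edges of the square lattice: lower left end and `true` for horizontal -/
abbrev E2 : Type := ℤ × ℤ × Bool

/-- first end -/
def src (e : E2) : ℤ × ℤ := (e.1, e.2.1)

/-- second end -/
def tgt (e : E2) : ℤ × ℤ := if e.2.2 = true then (e.1 + 1, e.2.1) else (e.1, e.2.1 + 1)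

/-- the ends of `e` are `a` and `b` -/
def Ends (e : E2) (a b : ℤ × ℤ) : Prop := (src e = a ∧ tgt e = b) ∨ (src e = b ∧ tgt e = a)

/-- neighbouring edges -/
def near (e f : E2) : Prop := |e.1 - f.1| ≤ 1 ∧ |e.2.1 - f.2.1| ≤ 1

/-- vertices of the rectangle of width `r`, height `2 r` and bottom `z` -/
def inV (z : ℤ) (r : ℕ) (a : ℤ × ℤ) : Prop := 0 ≤ a.1 ∧ a.1 ≤ r ∧ z ≤ a.2 ∧ a.2 ≤ z + 2 * r

/-- edges of the rectangle -/
def inR (z : ℤ) (r : ℕ) (e : E2) : Prop := inV z r (src e) ∧ inV z r (tgt e)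

/-- `S` is connected inside the rectangle -/
def ConnOn (z : ℤ) (r : ℕ) (S : Set (ℤ × ℤ)) : Prop :=
  ∀ a b, inV z r a → inV z r b → a ∈ S → b ∈ S →
    Relation.ReflTransGen (fun a b => a ∈ S ∧ b ∈ S ∧ ∃ e, inR z r e ∧ Ends e a b) a b

/-- an edge of the rectangle with exactly one end in `S` -/
def Bd (z : ℤ) (r : ℕ) (S : Set (ℤ × ℤ)) (e : E2) : Prop := inR z r e ∧ (src e ∈ S ↔ tgt e ∉ S)

/-- joined by open edges -/
def Reach (c : E2 → Bool) : ℤ × ℤ → ℤ × ℤ → Prop :=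
  Relation.ReflTransGen fun a b => ∃ e, c e = true ∧ Ends e a b

/-- a chain of `n + 1` distinct closed edges of the rectangle that starts at `e` -/
def Bad (c : E2 → Bool) (z : ℤ) (r : ℕ) (e : E2) (n : ℕ) : Prop :=
  ∃ l : List E2, l.length = n ∧ (e :: l).Nodup ∧ (e :: l).IsChain near ∧
    ∀ f ∈ e :: l, inR z r f ∧ c f = false

/-- a long closed chain from the column `x`, counted from the bottom -/
def Up (c : E2 → Bool) (z : ℤ) (r x j : ℕ) : Prop := Bad c z r (x, z + j, false) (j / 2)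

/-- a long closed chain from the column `x`, counted from the top -/
def Dn (c : E2 → Bool) (z : ℤ) (r x j : ℕ) : Prop :=
  Bad c z r (x, z + 2 * r - 1 - j, false) (j / 2)

/-- a long closed chain from the middle row -/
def Mid (c : E2 → Bool) (z : ℤ) (r : ℕ) : Prop := ∃ i : ℕ, i < r ∧ Bad c z r (i, z + r, true) (r / 2)

/-- an open column joins good points of two rectangles -/
def ArcOK (c : E2 → Bool) (z : ℤ) (r : ℕ) (z' : ℤ) (r' : ℕ) : Prop :=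
  ¬ Mid c z r ∧ ¬ Mid c z' r' ∧ ∃ x : ℕ, x ≤ r ∧ x ≤ r' ∧ (∀ j < r, ¬ Dn c z r x j) ∧
    (∀ j < r', ¬ Up c z' r' x j) ∧ ∀ t : ℤ, z + 2 * r ≤ t → t < z' → c (x, t, false) = true

end Pool.Agent.Lib.MP_c59c01_pr.TH
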