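import Pool.Agent.Lib.MP_c59c01_pr.TH.Base

set_option autoImplicit false

open MeasureTheory ProbabilityTheory Set Filter Topology
open scoped ENNReal

namespace Pool.Agent.Lib.MP_c59c01_pr.TH

/-! The edge boundary of a connected set with connected complement is connected. -/

/-- `ψ` sums `φ` along the bottom row and then up the column. -/
theorem cob {z : ℤ} {r : ℕ} (φ : E2 → ZMod 2)
    (h : ∀ x y : ℤ, inV z r (x, y) → inV z r (x + 1, y + 1) →
      φ (x, y, true) + φ (x, y + 1, true) + φ (x, y, false) + φ (x + 1, y, false) = 0) :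
    ∃ ψ : ℤ × ℤ → ZMod 2, ∀ e, inR z r e → φ e = ψ (src e) + ψ (tgt e) := by
  have two : ∀ a : ZMod 2, a + a = 0 := by decide
  have row : ∀ (x : ℤ) (n : ℕ), 0 ≤ x → x + 1 ≤ r → (n : ℤ) ≤ 2 * r →
      φ (x, z + n, true) = φ (x, z, true) + (∑ j ∈ Finset.range n, φ (x, z + j, false)) +
        ∑ j ∈ Finset.range n, φ (x + 1, z + j, false) := by
    intro x n hx hx1
    induction n with
    | zero => intro _; simp
    | succ n ih =>
      intro hn
      push_cast at hn
      have h0 := ih (by omega)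
      have h1 := h x (z + n) ⟨hx, by omega, by simp only; omega, by simp only; omega⟩
        ⟨by simp only; omega, by simp only; omega, by simp only; omega, by simp only; omega⟩
      rw [Finset.sum_range_succ, Finset.sum_range_succ]
      have e1 : z + ((n + 1 : ℕ) : ℤ) = z + n + 1 := by push_cast; ring
      rw [e1]
      have h2 := two (φ (x, z + n, true))
      have h3 := two (φ (x, z + n, false))
      have h4 := two (φ (x + 1, z + n, false))
      linear_combination h0 + h1 - h2 - h3 - h4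
  refine ⟨fun a => (∑ i ∈ Finset.range a.1.toNat, φ (i, z, true)) +
    ∑ j ∈ Finset.range (a.2 - z).toNat, φ (a.1, z + j, false), ?_⟩
  rintro ⟨x, y, b⟩ ⟨⟨h1, h2, h3, h4⟩, ⟨h5, h6, h7, h8⟩⟩
  obtain ⟨n, rfl⟩ : ∃ n : ℕ, y = z + n := ⟨(y - z).toNat, by simp only [src] at h3; omega⟩
  obtain ⟨m, rfl⟩ : ∃ m : ℕ, x = m := ⟨x.toNat, by simp only [src] at h1; omega⟩
  have a1 : (z + n - z).toNat = n := by omega
  cases b with
  | true =>
    simp only [src, tgt, if_true] at *
    have a2 : ((m : ℤ) + 1).toNat = m + 1 := by omega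
    rw [a1, a2, Int.toNat_natCast, Finset.sum_range_succ, row m n h1 h6 (by omega)]
    have h9 := two (∑ i ∈ Finset.range m, φ (i, z, true))
    linear_combination -h9
  | false =>
    simp only [src, tgt, Bool.false_eq_true, if_false] at *
    have a2 : (z + n + 1 - z).toNat = n + 1 := by omega
    rw [a1, a2, Int.toNat_natCast, Finset.sum_range_succ]
    have h9 := two (∑ i ∈ Finset.range m, φ (i, z, true))
    have h10 := two (∑ j ∈ Finset.range n, φ (m, z + j, false))
    linear_combination -h9 - h10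

theorem bd_const {z : ℤ} {r : ℕ} {S : Set (ℤ × ℤ)} (h1 : ConnOn z r S) (ψ : ℤ × ℤ → ZMod 2)
    (hψ : ∀ g, inR z r g → src g ∈ S → tgt g ∈ S → ψ (src g) = ψ (tgt g))
    {a b : ℤ × ℤ} (ha : inV z r a) (hb : inV z r b) (haS : a ∈ S) (hbS : b ∈ S) : ψ a = ψ b := by
  have key : ∀ b, Relation.ReflTransGen
      (fun a b => a ∈ S ∧ b ∈ S ∧ ∃ e, inR z r e ∧ Ends e a b) a b → ψ a = ψ b := by
    intro b h
    induction h with
    | refl => rfl
    | tail _ hs ih =>
      obtain ⟨hp, hq, g, hg, hE⟩ := hs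
      rw [ih]
      rcases hE with ⟨e1, e2⟩ | ⟨e1, e2⟩
      · have := hψ g hg (e1 ▸ hp) (e2 ▸ hq)
        rwa [e1, e2] at this
      · have := hψ g hg (e1 ▸ hq) (e2 ▸ hp)
        rw [e1, e2] at this
        exact this.symm
  exact key b (h1 a b ha hb haS hbS)

theorem bd_of_reach {z : ℤ} {r : ℕ} {S : Set (ℤ × ℤ)} {e g : E2} (he : Bd z r S e)
    (h : Relation.ReflTransGen (fun a b => Bd z r S b ∧ near a b) e g) : Bd z r S g := by
  induction h with
  | refl => exact he
  | tail _ hs _ => exact hs.1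

theorem zmod_eq_of_add {a b : ZMod 2} (h : 0 = a + b) : a = b := by
  revert a b; decide

theorem zmod_four (p q s t : Prop) [Decidable p] [Decidable q] [Decidable s] [Decidable t]
    [Decidable (p ↔ ¬ q)] [Decidable (s ↔ ¬ t)] [Decidable (p ↔ ¬ s)] [Decidable (q ↔ ¬ t)] :
    ((if (p ↔ ¬ q) then 1 else 0 : ZMod 2) + (if (s ↔ ¬ t) then 1 else 0) +
      (if (p ↔ ¬ s) then 1 else 0) + (if (q ↔ ¬ t) then 1 else 0)) = 0 := by
  by_cases hp : p <;> by_cases hq : q <;> by_cases hs : s <;> by_cases ht : t <;>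
    simp [hp, hq, hs, ht] <;> decide

/-- `φ` is the indicator of the edges reached from `e`. The four edges of a unit square are
pairwise near and an even number of them is in the boundary. `ψ` is constant on `S` and on its
complement, so `φ` takes the same value at all boundary edges. -/
theorem bd_conn {z : ℤ} {r : ℕ} {S : Set (ℤ × ℤ)} (h1 : ConnOn z r S) (h2 : ConnOn z r Sᶜ)
    {e f : E2} (he : Bd z r S e) (hf : Bd z r S f) :
    Relation.ReflTransGen (fun a b => Bd z r S b ∧ near a b) e f := by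
  classical
  set R : E2 → Prop := fun g => Relation.ReflTransGen (fun a b => Bd z r S b ∧ near a b) e g
    with hR
  have hsq : ∀ x y : ℤ, inV z r (x, y) → inV z r (x + 1, y + 1) →
      (if R (x, y, true) then 1 else 0 : ZMod 2) + (if R (x, y + 1, true) then 1 else 0) +
        (if R (x, y, false) then 1 else 0) + (if R (x + 1, y, false) then 1 else 0) = 0 := by
    intro x y hv hw
    have hv1 : inV z r (x + 1, y) := by
      simp only [inV] at hv hw ⊢; omega
    have hv2 : inV z r (x, y + 1) := by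
      simp only [inV] at hv hw ⊢; omega
    have ia : inR z r (x, y, true) := ⟨hv, hv1⟩
    have ib : inR z r (x, y + 1, true) := ⟨hv2, hw⟩
    have ic : inR z r (x, y, false) := ⟨hv, hv2⟩
    have id : inR z r (x + 1, y, false) := ⟨hv1, hw⟩
    have step : ∀ g, R g → |g.1 - x| ≤ 1 → |g.1 - (x + 1)| ≤ 1 ∨ g.2.1 = y + 1 ∧ g.1 = x →
        |g.2.1 - y| ≤ 1 → |g.2.1 - (y + 1)| ≤ 1 →
        (if R (x, y, true) then 1 else 0 : ZMod 2) + (if R (x, y + 1, true) then 1 else 0) +
        (if R (x, y, false) then 1 else 0) + (if R (x + 1, y, false) then 1 else 0) = 0 := by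
      intro g hg n1 n2 n3 n4
      have n2' : |g.1 - (x + 1)| ≤ 1 := by
        rcases n2 with n2 | ⟨_, n2⟩
        · exact n2
        · rw [n2]; simp
      have iff : ∀ k, near g k → inR z r k → (R k ↔ (src k ∈ S ↔ ¬ tgt k ∈ S)) := by
        intro k hk hi
        exact ⟨fun h => (bd_of_reach he h).2, fun h => Relation.ReflTransGen.tail hg ⟨⟨hi, h⟩, hk⟩⟩
      have ea := iff (x, y, true) ⟨n1, n3⟩ ia
      have eb := iff (x, y + 1, true) ⟨n1, n4⟩ ib
      have ec := iff (x, y, false) ⟨n1, n3⟩ ic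
      have ed := iff (x + 1, y, false) ⟨n2', n3⟩ id
      simp only [ea, eb, ec, ed]
      exact zmod_four ((x, y) ∈ S) ((x + 1, y) ∈ S) ((x, y + 1) ∈ S) ((x + 1, y + 1) ∈ S)
    by_cases ha : R (x, y, true)
    · exact step _ ha (by simp) (by simp) (by simp) (by simp)
    by_cases hb : R (x, y + 1, true)
    · exact step _ hb (by simp) (by simp) (by simp) (by simp)
    by_cases hc : R (x, y, false)
    · exact step _ hc (by simp) (by simp) (by simp) (by simp)
    by_cases hd : R (x + 1, y, false)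
    · exact step _ hd (by simp) (by simp) (by simp) (by simp)
    simp [ha, hb, hc, hd]
  obtain ⟨ψ, hψ⟩ := cob (z := z) (r := r) (fun g => if R g then 1 else 0) hsq
  have hz : ∀ g, inR z r g → ¬ Bd z r S g → ψ (src g) = ψ (tgt g) := by
    intro g hg hn
    have h0 : ¬ R g := fun h => hn (bd_of_reach he h)
    have := hψ g hg
    simp only [h0, if_false] at this
    exact zmod_eq_of_add this
  have c1 : ∀ a b, inV z r a → inV z r b → a ∈ S → b ∈ S → ψ a = ψ b := fun a b ha hb haS hbS =>
    bd_const h1 ψ (fun g hg s t => hz g hg fun h => h.2.1 s t) ha hb haS hbS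
  have c2 : ∀ a b, inV z r a → inV z r b → a ∉ S → b ∉ S → ψ a = ψ b := fun a b ha hb haS hbS =>
    bd_const h2 ψ (fun g hg s t => hz g hg fun h => s (h.2.2 t)) ha hb haS hbS
  have hsum : ψ (src f) + ψ (tgt f) = ψ (src e) + ψ (tgt e) := by
    by_cases s : src e ∈ S <;> by_cases t : src f ∈ S
    · rw [c1 _ _ hf.1.1 he.1.1 t s, c2 _ _ hf.1.2 he.1.2 (hf.2.1 t) (he.2.1 s)]
    · rw [c2 _ _ hf.1.1 he.1.2 t (he.2.1 s),
        c1 _ _ hf.1.2 he.1.1 (not_not.1 fun h => t (hf.2.2 h)) s, add_comm]
    · rw [c1 _ _ hf.1.1 he.1.2 t (not_not.1 fun h => s (he.2.2 h)),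
        c2 _ _ hf.1.2 he.1.1 (hf.2.1 t) s, add_comm]
    · rw [c2 _ _ hf.1.1 he.1.1 t s, c1 _ _ hf.1.2 he.1.2 (not_not.1 fun h => t (hf.2.2 h))
        (not_not.1 fun h => s (he.2.2 h))]
  have e1 := hψ e he.1
  have e2 := hψ f hf.1
  have hre : R e := Relation.ReflTransGen.refl
  simp only [hre, if_true] at e1
  rw [hsum, ← e1] at e2
  by_contra hn
  have hn' : ¬ R f := hn
  simp only [hn', if_false] at e2
  exact absurd e2 (by decide)

/-- the graph of near edges with the property `p` -/
def nearG (p : E2 → Prop) : SimpleGraph E2 where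
  Adj a b := a ≠ b ∧ p a ∧ p b ∧ near a b
  symm := ⟨fun a b h => ⟨h.1.symm, h.2.2.1, h.2.1, by
    rw [abs_sub_comm]; exact h.2.2.2.1, by rw [abs_sub_comm]; exact h.2.2.2.2⟩⟩
  loopless := ⟨fun a h => h.1 rfl⟩

theorem nearG_walk {p : E2 → Prop} {e f : E2} (q : (nearG p).Walk e f) (he : p e) :
    (∀ g ∈ q.support, p g) ∧ |e.1 - f.1| ≤ q.length ∧ |e.2.1 - f.2.1| ≤ q.length := by
  induction q with
  | nil => simp [he]
  | cons hab q ih =>
    obtain ⟨i1, i2, i3⟩ := ih hab.2.2.1
    obtain ⟨n1, n2⟩ := hab.2.2.2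
    refine ⟨?_, ?_, ?_⟩
    · intro g hg
      rw [SimpleGraph.Walk.support_cons, List.mem_cons] at hg
      rcases hg with rfl | hg
      · exact he
      · exact i1 g hg
    · rw [SimpleGraph.Walk.length_cons]
      push_cast
      rw [abs_le] at *
      constructor <;> linarith [n1.1, n1.2, i2.1, i2.2]
    · rw [SimpleGraph.Walk.length_cons]
      push_cast
      rw [abs_le] at *
      constructor <;> linarith [n2.1, n2.2, i3.1, i3.2]

/-- Pass to a simple graph, take a path and the first `n + 1` entries of its support. -/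
theorem chain_of {p : E2 → Prop} {e f : E2} (he : p e)
    (h : Relation.ReflTransGen (fun a b => p b ∧ near a b) e f) {n : ℕ}
    (hn : (n : ℤ) ≤ |e.1 - f.1| ∨ (n : ℤ) ≤ |e.2.1 - f.2.1|) :
    ∃ l : List E2, l.length = n ∧ (e :: l).Nodup ∧ (e :: l).IsChain near ∧ ∀ g ∈ e :: l, p g := by
  classical
  have hr : p f ∧ (nearG p).Reachable e f := by
    clear hn
    induction h with
    | refl => exact ⟨he, SimpleGraph.Reachable.refl _⟩
    | @tail b c _ hbc ih =>
      refine ⟨hbc.1, ?_⟩
      by_cases hh : b = c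
      · exact hh ▸ ih.2
      · exact ih.2.trans (SimpleGraph.Adj.reachable (G := nearG p) ⟨hh, ih.1, hbc.1, hbc.2⟩)
  obtain ⟨q, hq⟩ := hr.2.exists_isPath
  obtain ⟨w1, w2, w3⟩ := nearG_walk q he
  have hl : n ≤ q.length := by
    rcases hn with hn | hn
    · exact_mod_cast hn.trans w2
    · exact_mod_cast hn.trans w3
  have hs : q.support = e :: q.support.tail := q.cons_tail_support.symm
  have ht : q.support.tail.length = q.length := by
    rw [List.length_tail, SimpleGraph.Walk.length_support]; rfl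
  have hp : e :: q.support.tail.take n = q.support.take (n + 1) := by
    conv_rhs => rw [hs]
    rfl
  refine ⟨q.support.tail.take n, ?_, ?_, ?_, ?_⟩
  · rw [List.length_take, ht]; exact min_eq_left hl
  · rw [hp]; exact hq.support_nodup.sublist (List.take_sublist _ _)
  · rw [hp]; exact (q.isChain_adj_support.imp fun a b hab => hab.2.2.2).take _
  · intro g hg
    rw [hp] at hg
    exact w1 g (List.mem_of_mem_take hg)

end Pool.Agent.Lib.MP_c59c01_pr.TH
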