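import Pool.Agent.Lib.MP_c59c01_pr.TH.Cob

set_option autoImplicit false

open MeasureTheory ProbabilityTheory Set Filter Topology
open scoped ENNReal

namespace Pool.Agent.Lib.MP_c59c01_pr.TH

/-! Good points of a rectangle are joined. -/

variable {z : ℤ} {r : ℕ}

lemma Conn_ends_symm {e : E2} {a b : ℤ × ℤ} (h : Ends e a b) : Ends e b a := Or.symm h

lemma Conn_ends_inV {e : E2} {a b : ℤ × ℤ} (he : inR z r e) (h : Ends e a b) :
    inV z r a ∧ inV z r b := by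
  rcases h with ⟨h1, h2⟩ | ⟨h1, h2⟩
  · exact ⟨h1 ▸ he.1, h2 ▸ he.2⟩
  · exact ⟨h2 ▸ he.2, h1 ▸ he.1⟩

lemma Conn_ends_row {e : E2} {a b : ℤ × ℤ} (h : Ends e a b) : b.2 ≤ a.2 + 1 := by
  obtain ⟨x, y, t⟩ := e
  rcases h with ⟨h1, h2⟩ | ⟨h1, h2⟩ <;> subst h1 h2 <;> cases t <;> simp [src, tgt] <;> omega

lemma Conn_rev {α : Type*} {R : α → α → Prop} (hs : ∀ a b, R a b → R b a) {a b : α}
    (h : Relation.ReflTransGen R a b) : Relation.ReflTransGen R b a := by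
  induction h with
  | refl => exact .refl
  | tail _ h2 ih => exact .head (hs _ _ h2) ih

lemma Conn_line {R : ℤ × ℤ → ℤ × ℤ → Prop} (hs : ∀ a b, R a b → R b a) (g : ℤ → ℤ × ℤ)
    {lo hi : ℤ} (hg : ∀ t, lo ≤ t → t + 1 ≤ hi → R (g t) (g (t + 1))) {u v : ℤ}
    (h1 : lo ≤ u) (h2 : u ≤ hi) (h3 : lo ≤ v) (h4 : v ≤ hi) :
    Relation.ReflTransGen R (g u) (g v) := by
  have key : ∀ t, lo ≤ t → t ≤ hi → Relation.ReflTransGen R (g lo) (g t) := by
    intro t ht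
    induction t, ht using Int.leInduction with
    | base => exact fun _ => .refl
    | succ t ht ih => exact fun h => (ih (by omega)).tail (hg t ht h)
  exact (Conn_rev hs (key u h1 h2)).trans (key v h3 h4)

lemma Conn_rect {a b : ℤ × ℤ} (ha : inV z r a) (hb : inV z r b) :
    Relation.ReflTransGen (fun a b => ∃ e, inR z r e ∧ Ends e a b) a b := by
  have hs : ∀ a b : ℤ × ℤ, (∃ e, inR z r e ∧ Ends e a b) → ∃ e, inR z r e ∧ Ends e b a :=
    fun _ _ ⟨e, h1, h2⟩ => ⟨e, h1, Conn_ends_symm h2⟩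
  obtain ⟨a1, a2, a3, a4⟩ := ha
  obtain ⟨b1, b2, b3, b4⟩ := hb
  have s1 := Conn_line hs (fun t => (t, a.2)) (lo := 0) (hi := r) (fun t h1 h2 =>
    ⟨(t, a.2, true), ⟨⟨h1, by simp only [src]; omega, a3, a4⟩,
      ⟨by simp only [tgt, if_true]; omega, h2, a3, a4⟩⟩, Or.inl ⟨rfl, rfl⟩⟩) a1 a2 b1 b2
  have s2 := Conn_line hs (fun t => (b.1, t)) (lo := z) (hi := z + 2 * r) (fun t h1 h2 =>
    ⟨(b.1, t, false), ⟨⟨b1, b2, h1, by simp only [src]; omega⟩,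
      ⟨b1, b2, by change z ≤ t + 1; omega, h2⟩⟩, Or.inl ⟨rfl, rfl⟩⟩) a3 a4 b3 b4
  exact s1.trans s2

lemma Conn_flip (P : ℤ → Prop) {u v : ℤ} (h : u ≤ v) :
    (P u ↔ ¬ P v) → ∃ w, u ≤ w ∧ w + 1 ≤ v ∧ (P w ↔ ¬ P (w + 1)) := by
  induction v, h using Int.leInduction with
  | base => intro h; tauto
  | succ v hv ih =>
    intro h
    by_cases h2 : P u ↔ ¬ P v
    · obtain ⟨w, h3, h4, h5⟩ := ih h2
      exact ⟨w, h3, by omega, h5⟩
    · exact ⟨v, hv, le_rfl, by tauto⟩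

lemma Conn_flip2 (P : ℤ → Prop) {u v lo hi : ℤ} (h1 : lo ≤ u) (h2 : u ≤ hi) (h3 : lo ≤ v)
    (h4 : v ≤ hi) (hu : P u) (hv : ¬ P v) : ∃ w, lo ≤ w ∧ w + 1 ≤ hi ∧ (P w ↔ ¬ P (w + 1)) := by
  rcases le_total u v with h | h
  · obtain ⟨w, a, b, c⟩ := Conn_flip P h (by tauto)
    exact ⟨w, by omega, by omega, c⟩
  · obtain ⟨w, a, b, c⟩ := Conn_flip P h (by tauto)
    exact ⟨w, by omega, by omega, c⟩

lemma Conn_row {S : Set (ℤ × ℤ)} {p q : ℤ × ℤ} (hp : inV z r p) (hq : inV z r q)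
    (h : p.2 = q.2) (h1 : p ∈ S) (h2 : q ∉ S) : ∃ x, Bd z r S (x, p.2, true) := by
  obtain ⟨w, a, b, c⟩ := Conn_flip2 (fun x => (x, p.2) ∈ S) hp.1 hp.2.1 hq.1 hq.2.1 h1
    (by rw [h]; exact h2)
  exact ⟨w, ⟨⟨a, by simp only [src]; omega, hp.2.2.1, hp.2.2.2⟩,
    ⟨by simp only [tgt, if_true]; omega, b, hp.2.2.1, hp.2.2.2⟩⟩, c⟩

lemma Conn_col {S : Set (ℤ × ℤ)} {x t t' : ℤ} (hp : inV z r (x, t)) (hq : inV z r (x, t'))
    (h1 : (x, t) ∈ S) (h2 : (x, t') ∉ S) : ∃ y, Bd z r S (x, y, false) := by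
  obtain ⟨w, a, b, c⟩ := Conn_flip2 (fun y => (x, y) ∈ S) hp.2.2.1 hp.2.2.2 hq.2.2.1 hq.2.2.2 h1 h2
  exact ⟨w, ⟨⟨hp.1, hp.2.1, a, by simp only [src]; omega⟩,
    ⟨hp.1, hp.2.1, by change z ≤ w + 1; omega, b⟩⟩, c⟩

lemma Conn_meet {S : Set (ℤ × ℤ)} (h : ConnOn z r S) {a b : ℤ × ℤ} (ha : inV z r a)
    (hb : inV z r b) (s1 : a ∈ S) (s2 : b ∈ S) {t : ℤ} (h1 : a.2 ≤ t) (h2 : t ≤ b.2) :
    ∃ p, inV z r p ∧ p ∈ S ∧ p.2 = t := by
  have h3 := h a b ha hb s1 s2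
  clear hb s2
  induction h3 with
  | refl => exact ⟨a, ha, s1, by omega⟩
  | @tail u v _ h5 ih =>
    obtain ⟨-, hv, e, he, h6⟩ := h5
    by_cases h7 : t ≤ u.2
    · exact ih h7
    · have := Conn_ends_row h6
      exact ⟨v, (Conn_ends_inV he h6).2, hv, by omega⟩

/-- Let `C` be the set reached from `a` by open edges of the rectangle, `D` the set reached from
`b` by edges of the rectangle with both ends off `C`, and `S` the complement of `D`. A point of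
`S` off `C` is joined to `C` inside `S`: walk from it to `a` in the rectangle until `C` is met. -/
theorem exists_sep {c : E2 → Bool} {a b : ℤ × ℤ} (ha : inV z r a) (hb : inV z r b)
    (h : ¬ Reach c a b) : ∃ S : Set (ℤ × ℤ), a ∈ S ∧ b ∉ S ∧ ConnOn z r S ∧ ConnOn z r Sᶜ ∧
      ∀ e, Bd z r S e → c e = false := by
  let C : Set (ℤ × ℤ) :=
    {p | Relation.ReflTransGen (fun u v => ∃ e, inR z r e ∧ c e = true ∧ Ends e u v) a p}
  let D : Set (ℤ × ℤ) :=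
    {p | Relation.ReflTransGen (fun u v => v ∉ C ∧ ∃ e, inR z r e ∧ Ends e u v) b p}
  have haC : a ∈ C := Relation.ReflTransGen.refl
  have hbD : b ∈ D := Relation.ReflTransGen.refl
  have hCR : ∀ p ∈ C, Reach c a p := by
    intro p hp
    induction hp with
    | refl => exact .refl
    | tail _ h2 ih =>
      obtain ⟨e, -, h3, h4⟩ := h2
      exact Relation.ReflTransGen.tail ih ⟨e, h3, h4⟩
  have hbC : b ∉ C := fun hb => h (hCR b hb)
  have hDC : ∀ p ∈ D, p ∉ C := by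
    intro p hp
    induction hp with
    | refl => exact hbC
    | tail _ h2 _ => exact h2.1
  have hstep : ∀ u v e, u ∈ D → v ∉ C → inR z r e → Ends e u v → v ∈ D :=
    fun u v e hu hv he h2 => Relation.ReflTransGen.tail hu ⟨hv, e, he, h2⟩
  have hsy : ∀ (T : Set (ℤ × ℤ)) (u v : ℤ × ℤ), (u ∈ T ∧ v ∈ T ∧ ∃ e, inR z r e ∧ Ends e u v) →
      v ∈ T ∧ u ∈ T ∧ ∃ e, inR z r e ∧ Ends e v u :=
    fun _ _ _ ⟨h1, h2, e, h3, h4⟩ => ⟨h2, h1, e, h3, Conn_ends_symm h4⟩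
  have hC : ∀ p ∈ C, Relation.ReflTransGen
      (fun u v => u ∈ Dᶜ ∧ v ∈ Dᶜ ∧ ∃ e, inR z r e ∧ Ends e u v) a p := by
    intro p hp
    induction hp with
    | refl => exact .refl
    | @tail u v h1 h2 ih =>
      have hv : v ∈ C := Relation.ReflTransGen.tail h1 h2
      obtain ⟨e, h3, -, h4⟩ := h2
      exact ih.tail ⟨fun hu => hDC u hu h1, fun hv' => hDC v hv' hv, e, h3, h4⟩
  have hS : ∀ p, inV z r p → p ∈ Dᶜ → Relation.ReflTransGen
      (fun u v => u ∈ Dᶜ ∧ v ∈ Dᶜ ∧ ∃ e, inR z r e ∧ Ends e u v) p a := by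
    intro p hp
    have h1 := Conn_rect hp ha
    clear hp
    induction h1 using Relation.ReflTransGen.head_induction_on with
    | refl => exact fun _ => .refl
    | @head u v h2 _ ih =>
      intro hu
      by_cases h3 : u ∈ C
      · exact Conn_rev (hsy _) (hC u h3)
      · obtain ⟨e, h4, h5⟩ := h2
        have hv : v ∈ Dᶜ := fun hv => hu (hstep v u e hv h3 h4 (Conn_ends_symm h5))
        exact .head ⟨hu, hv, e, h4, h5⟩ (ih hv)
  have hD : ∀ p ∈ D, Relation.ReflTransGen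
      (fun u v => u ∈ D ∧ v ∈ D ∧ ∃ e, inR z r e ∧ Ends e u v) b p := by
    intro p hp
    induction hp with
    | refl => exact .refl
    | @tail u v h1 h2 ih => exact ih.tail ⟨h1, Relation.ReflTransGen.tail h1 h2, h2.2⟩
  refine ⟨Dᶜ, fun hD => hDC a hD haC, fun hb => hb hbD, ?_, ?_, ?_⟩
  · intro p q hp hq h1 h2
    exact (hS p hp h1).trans (Conn_rev (hsy _) (hS q hq h2))
  · rw [compl_compl]
    intro p q _ _ h1 h2
    exact (Conn_rev (hsy _) (hD p h1)).trans (hD q h2)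
  · rintro e ⟨he, h1⟩
    by_contra hc
    have hc : c e = true := by simpa using hc
    have key : ∀ u v, Ends e u v → u ∈ D → v ∈ D := by
      intro u v h2 hu
      refine hstep u v e hu (fun hv => hDC u hu ?_) he h2
      exact Relation.ReflTransGen.tail hv ⟨e, he, hc, Conn_ends_symm h2⟩
    have k1 := key _ _ (Or.inl ⟨rfl, rfl⟩)
    have k2 := key _ _ (Or.inr ⟨rfl, rfl⟩)
    simp only [mem_compl_iff] at h1
    tauto

/-- `S` meets all rows from `z` to `z + j` and its complement all rows from `z + 2 r - j` to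
`z + 2 r`. If a row lies in `S` and a row in the complement, every column holds a vertical
boundary edge; otherwise `j + 1` consecutive rows hold a horizontal boundary edge. -/
theorem far_edge {S : Set (ℤ × ℤ)} (h1 : ConnOn z r S) (h2 : ConnOn z r Sᶜ) {j : ℕ} (hj : j ≤ r)
    {a a' b b' : ℤ × ℤ} (ha : inV z r a) (ha' : inV z r a') (hb : inV z r b) (hb' : inV z r b')
    (s1 : a ∈ S) (s2 : a' ∈ S) (s3 : b ∉ S) (s4 : b' ∉ S) (r1 : a.2 = z) (r2 : z + j ≤ a'.2)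
    (r3 : b.2 = z + 2 * r) (r4 : b'.2 ≤ z + 2 * r - j) (e : E2) :
    ∃ f, Bd z r S f ∧ (((j / 2 : ℕ) : ℤ) ≤ |e.1 - f.1| ∨ ((j / 2 : ℕ) : ℤ) ≤ |e.2.1 - f.2.1|) := by
  have far : ∀ (u t : ℤ) (k : ℕ), j ≤ k →
      ((j / 2 : ℕ) : ℤ) ≤ |u - t| ∨ ((j / 2 : ℕ) : ℤ) ≤ |u - (t + k)| := by
    intro u t k hk
    simp only [le_abs]
    omega
  have two : ∀ t : ℤ, (∃ x, Bd z r S (x, t, true)) → (∃ x, Bd z r S (x, t + j, true)) →
      ∃ f, Bd z r S f ∧
        (((j / 2 : ℕ) : ℤ) ≤ |e.1 - f.1| ∨ ((j / 2 : ℕ) : ℤ) ≤ |e.2.1 - f.2.1|) := by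
    rintro t ⟨x, hx⟩ ⟨y, hy⟩
    rcases far e.2.1 t j le_rfl with h | h
    · exact ⟨_, hx, Or.inr h⟩
    · exact ⟨_, hy, Or.inr h⟩
  obtain ⟨p, hp, sp, rp⟩ := Conn_meet h1 ha ha' s1 s2 (t := z + j) (by omega) r2
  obtain ⟨q, hq, sq, rq⟩ := Conn_meet h2 hb' hb s4 s3 (t := z + 2 * r - j) r4 (by omega)
  by_cases hA : ∃ t, z ≤ t ∧ t ≤ z + 2 * r ∧ ∀ x : ℤ, 0 ≤ x → x ≤ r → (x, t) ∈ S
  · by_cases hB : ∃ t, z ≤ t ∧ t ≤ z + 2 * r ∧ ∀ x : ℤ, 0 ≤ x → x ≤ r → (x, t) ∉ S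
    · obtain ⟨t, t1, t2, ht⟩ := hA
      obtain ⟨t', t1', t2', ht'⟩ := hB
      have col : ∀ x : ℤ, 0 ≤ x → x ≤ r → ∃ y, Bd z r S (x, y, false) := fun x h3 h4 =>
        Conn_col ⟨h3, h4, t1, t2⟩ ⟨h3, h4, t1', t2'⟩ (ht x h3 h4) (ht' x h3 h4)
      rcases far e.1 0 r hj with h | h
      · obtain ⟨y, hy⟩ := col 0 le_rfl (by omega)
        exact ⟨_, hy, Or.inl h⟩
      · obtain ⟨y, hy⟩ := col (0 + r) (by omega) (by omega)
        exact ⟨_, hy, Or.inl h⟩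
    · push Not at hB
      have row : ∀ u : ℤ × ℤ, inV z r u → u ∉ S → ∃ x, Bd z r S (x, u.2, true) := by
        intro u hu su
        obtain ⟨x, x1, x2, hx⟩ := hB u.2 hu.2.2.1 hu.2.2.2
        exact Conn_row (p := (x, u.2)) ⟨x1, x2, hu.2.2.1, hu.2.2.2⟩ hu rfl hx su
      refine two (z + 2 * r - j) (rq ▸ row q hq sq) ?_
      have e1 : z + 2 * r - j + j = b.2 := by omega
      rw [e1]
      exact row b hb s3
  · push Not at hA
    have row : ∀ u : ℤ × ℤ, inV z r u → u ∈ S → ∃ x, Bd z r S (x, u.2, true) := by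
      intro u hu su
      obtain ⟨x, x1, x2, hx⟩ := hA u.2 hu.2.2.1 hu.2.2.2
      exact Conn_row (q := (x, u.2)) hu ⟨x1, x2, hu.2.2.1, hu.2.2.2⟩ rfl su hx
    exact two z (r1 ▸ row a ha s1) (rp ▸ row p hp sp)

theorem conn_step {P : ℕ → Prop} {n : ℕ} (h0 : P 0) (hn : ¬ P n) :
    ∃ j < n, P j ∧ ¬ P (j + 1) := by
  induction n with
  | zero => exact absurd h0 hn
  | succ n ih =>
    by_cases h : P n
    · exact ⟨n, Nat.lt_succ_self n, h, hn⟩
    · obtain ⟨j, h1, h2⟩ := ih h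
      exact ⟨j, Nat.lt_succ_of_lt h1, h2⟩

/-- Walk up the column `x` to the middle row, along it to the column `x'` and up: some edge is in
the boundary of the set of `exists_sep`; `far_edge`, `bd_conn`, `chain_of`. -/
theorem conn {c : E2 → Bool} {x x' : ℕ} (hx : x ≤ r) (hx' : x' ≤ r)
    (h1 : ∀ j < r, ¬ Up c z r x j) (h2 : ∀ j < r, ¬ Dn c z r x' j) (h3 : ¬ Mid c z r) :
    Reach c (x, z) (x', z + 2 * r) := by
  by_contra hc
  have ha : inV z r (x, z) := by simp only [inV]; omega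
  have hb : inV z r (x', z + 2 * r) := by simp only [inV]; omega
  obtain ⟨S, s1, s3, c1, c2, hcl⟩ := exists_sep ha hb hc
  have key : ∀ (j : ℕ) (a' b' : ℤ × ℤ) (e : E2), j ≤ r → inV z r a' → inV z r b' → a' ∈ S →
      b' ∉ S → z + j ≤ a'.2 → b'.2 ≤ z + 2 * r - j → Bd z r S e → Bad c z r e (j / 2) := by
    intro j a' b' e hj ha' hb' s2 s4 r2 r4 he
    obtain ⟨f, hf, hd⟩ := far_edge c1 c2 hj ha ha' hb hb' s1 s2 s3 s4 rfl r2 rfl r4 e
    obtain ⟨l, l1, l2, l3, l4⟩ := chain_of (p := Bd z r S) he (bd_conn c1 c2 he hf) hd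
    exact ⟨l, l1, l2, l3, fun g hg => ⟨(l4 g hg).1, hcl g (l4 g hg)⟩⟩
  by_cases m1 : ((x : ℤ), z + r) ∈ S
  · by_cases m2 : ((x' : ℤ), z + r) ∈ S
    · obtain ⟨j, hj, p1, p2⟩ := conn_step (P := fun j : ℕ => ((x' : ℤ), z + 2 * r - j) ∉ S)
        (n := r) (by simpa using s3)
        (by rw [not_not, show z + 2 * (r : ℤ) - r = z + r by ring]; exact m2)
      rw [not_not, show z + 2 * (r : ℤ) - ((j + 1 : ℕ) : ℤ) = z + 2 * r - 1 - j by
        push_cast; ring] at p2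
      have i1 : inV z r (x', z + 2 * r - 1 - j) := by simp only [inV]; omega
      have i2 : inV z r (x', z + 2 * r - j) := by simp only [inV]; omega
      have e1 : tgt ((x' : ℤ), z + 2 * r - 1 - j, false) = ((x' : ℤ), z + 2 * r - j) := by
        simp only [tgt, Bool.false_eq_true, if_false, Prod.mk.injEq, true_and]; ring
      refine h2 j hj (key j _ _ _ hj.le i1 i2 p2 p1 (by simp only; omega) le_rfl ⟨⟨i1, ?_⟩, ?_⟩)
      · rw [e1]; exact i2
      · rw [e1]; exact iff_of_true p2 p1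
    · have hex : ∃ i : ℕ, i < r ∧ ((((i : ℕ) : ℤ), z + r) ∈ S ↔ (((i + 1 : ℕ) : ℤ), z + r) ∉ S) := by
        by_cases h0 : (((0 : ℕ) : ℤ), z + r) ∈ S
        · obtain ⟨i, hi, p1, p2⟩ := conn_step (P := fun i : ℕ => ((i : ℤ), z + r) ∈ S) h0 m2
          exact ⟨i, by omega, iff_of_true p1 p2⟩
        · obtain ⟨i, hi, p1, p2⟩ := conn_step (P := fun i : ℕ => ((i : ℤ), z + r) ∉ S) h0
            (not_not.2 m1)
          exact ⟨i, by omega, iff_of_false p1 p2⟩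
      obtain ⟨i, hi, p⟩ := hex
      have e1 : tgt ((i : ℤ), z + r, true) = (((i + 1 : ℕ) : ℤ), z + r) := by simp [tgt]
      refine h3 ⟨i, hi, key r (x, z + r) (x', z + r) _ le_rfl (by simp only [inV]; omega)
        (by simp only [inV]; omega) m1 m2 le_rfl (by simp only; omega) ⟨⟨?_, ?_⟩, ?_⟩⟩
      · simp only [inV, src]; omega
      · rw [e1]; simp only [inV]; omega
      · rw [e1]; exact p
  · obtain ⟨j, hj, p1, p2⟩ := conn_step (P := fun j : ℕ => ((x : ℤ), z + j) ∈ S) (n := r)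
      (by simpa using s1) m1
    have i1 : inV z r (x, z + j) := by simp only [inV]; omega
    have i2 : inV z r (x, z + (j + 1 : ℕ)) := by simp only [inV]; omega
    have e1 : tgt ((x : ℤ), z + j, false) = ((x : ℤ), z + ((j + 1 : ℕ) : ℤ)) := by
      simp only [tgt, Bool.false_eq_true, if_false, Prod.mk.injEq, true_and]; push_cast; ring
    refine h1 j hj (key j _ _ _ hj.le i1 i2 p1 p2 le_rfl (by simp only; omega) ⟨⟨i1, ?_⟩, ?_⟩)
    · rw [e1]; exact i2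
    · rw [e1]; exact iff_of_true p1 p2

end Pool.Agent.Lib.MP_c59c01_pr.TH
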