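import Pool.Agent.Lib.MP_c59c01_pr.TH.Occ

set_option autoImplicit false

open MeasureTheory ProbabilityTheory Set Filter Topology
open scoped ENNReal

namespace Pool.Agent.Lib.MP_c59c01_pr.TH

/-! From a branch of the tree to a cut. -/

theorem cutdet_le {a g : ℕ} (h : a ≤ g) : a ≤ 2 ^ g :=
  h.trans (Nat.lt_two_pow_self).le

theorem cutdet_cross {x m s p e : ℕ} {Y : ℕ → ℕ} (hw : ∀ i, s < i → i < e → Y i ≤ m)
    (hp : Y p = m) (hxm : x ≤ 2 ^ m) (hm : min (Y s) (Y e) ≤ x) {a b : ℕ} (ha : s ≤ a)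
    (hap : a < p) (hpb : p < b) (hb : b ≤ e) : min (Y a) (Y b) ≤ 2 ^ gap Y a b := by
  have hg : m ≤ gap Y a b := hp ▸ le_gap hap hpb
  rcases ha.eq_or_lt with rfl | ha'
  · rcases hb.eq_or_lt with rfl | hb'
    · exact hm.trans (hxm.trans (Nat.pow_le_pow_right (by norm_num) hg))
    · exact (min_le_right _ _).trans (cutdet_le ((hw b (by omega) hb').trans hg))
  · exact (min_le_left _ _).trans (cutdet_le ((hw a ha' (by omega)).trans hg))

theorem cutdet_split {m s : ℕ} {u v : List ℕ} {Y : ℕ → ℕ} (hu : ∀ y ∈ u, y ≤ m)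
    (hv : ∀ y ∈ v, y ≤ m) (ho : Occ Y (s + 1) (u ++ m :: v)) :
    Occ Y (s + 1) u ∧ Y (s + 1 + u.length) = m ∧ Occ Y (s + 1 + u.length + 1) v ∧
      ∀ i, s < i → i < s + 1 + (u ++ m :: v).length → Y i ≤ m := by
  obtain ⟨h1, h2⟩ := occ_append.1 ho
  obtain ⟨h3, h4⟩ := occ_cons.1 h2
  refine ⟨h1, h3, h4, fun i hi hi' => ?_⟩
  have := ho.mem (i := i) hi hi'
  rw [List.mem_append, List.mem_cons] at this
  rcases this with h | h | h
  · exact hu _ h
  · exact h.le
  · exact hv _ h

/-- Induction on the cut, for all `s`. A pair that is not inside the chosen part has the maximum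
`m` strictly between its positions (`le_gap`), and its smaller value is at most `m` unless it is
the pair of end points, where it is at most `x ≤ 2 ^ m`. -/
theorem cut_block {L K x : ℕ} {w : List ℕ} (h : Cut L K x w) (hx : L ≤ x) {Y : ℕ → ℕ} {s : ℕ}
    (ho : Occ Y (s + 1) w) (hm : min (Y s) (Y (s + 1 + w.length)) ≤ x) :
    ∃ n k : ℕ, s < n ∧ n + k ≤ s + 1 + w.length ∧ 1 ≤ k ∧ k ≤ K ∧ (∀ i < k, Y (n + i) < L) ∧
      L ≤ 2 ^ ∑ i ∈ Finset.range k, Y (n + i) ∧
      ∀ a b, s ≤ a → a < n → n + k ≤ b → b ≤ s + 1 + w.length →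
        min (Y a) (Y b) ≤ 2 ^ gap Y a b := by
  induction h generalizing s with
  | stop x m w hmw hle hmL hxm hK =>
    obtain ⟨i, hi, hi'⟩ := List.getElem_of_mem hmw
    have hY : Y (s + 1 + i) = m := (ho i hi).trans hi'
    have hall : ∀ j, s < j → j < s + 1 + w.length → Y j ≤ m := fun j hj hj' =>
      hle _ (ho.mem hj hj')
    refine ⟨s + 1, w.length, by omega, le_rfl, by omega, hK, fun j hj => ?_, ?_, ?_⟩
    · exact lt_of_le_of_lt (hall _ (by omega) (by omega)) hmL
    · refine hx.trans (hxm.trans (Nat.pow_le_pow_right (by norm_num) ?_))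
      rw [← hY]
      exact Finset.single_le_sum (f := fun j => Y (s + 1 + j)) (fun _ _ => Nat.zero_le _)
        (Finset.mem_range.2 hi)
    · intro a b ha ha' hb hb'
      exact cutdet_cross hall hY hxm hm ha (by omega) (by omega) hb'
  | left x m u v hu hv hLm hxm _ ih =>
    obtain ⟨h1, h2, -, h4⟩ := cutdet_split hu hv ho
    obtain ⟨n, k, g1, g2, g3, g4, g5, g6, g7⟩ := ih hLm h1 ((min_le_right _ _).trans h2.le)
    have hl : (u ++ m :: v).length = u.length + 1 + v.length := by
      rw [List.length_append, List.length_cons]; omega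
    refine ⟨n, k, g1, by omega, g3, g4, g5, g6, fun a b ha ha' hb hb' => ?_⟩
    by_cases hc : b ≤ s + 1 + u.length
    · exact g7 a b ha ha' hb hc
    · exact cutdet_cross h4 h2 hxm hm ha (by omega) (by omega) hb'
  | right x m u v hu hv hLm hxm _ ih =>
    obtain ⟨-, h2, h3, h4⟩ := cutdet_split hu hv ho
    obtain ⟨n, k, g1, g2, g3, g4, g5, g6, g7⟩ := ih hLm h3 ((min_le_left _ _).trans h2.le)
    have hl : (u ++ m :: v).length = u.length + 1 + v.length := by
      rw [List.length_append, List.length_cons]; omega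
    refine ⟨n, k, by omega, by omega, g3, g4, g5, g6, fun a b ha ha' hb hb' => ?_⟩
    by_cases hc : s + 1 + u.length ≤ a
    · exact g7 a b hc ha' hb (by omega)
    · exact cutdet_cross h4 h2 hxm hm ha (by omega) (by omega) hb'

theorem side_of_cut {J L K x m : ℕ} {u w : List ℕ} {Y : ℕ → ℕ} (hJ : 2 ^ J ≤ L) (hK : L ≤ K)
    (hx : L ≤ x) (ho : Occ Y 0 (u ++ m :: w)) (hu : ∀ y ∈ u, y < x) (h1 : x ≤ m) (h2 : m ≤ 2 ^ x)
    (hw : ∀ y ∈ w, y < m) (he : m ≤ Y (u.length + 1 + w.length)) (hc : Cut L K m w) :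
    Side J K x Y := by
  obtain ⟨o1, o2⟩ := occ_append.1 ho
  rw [zero_add] at o2
  obtain ⟨o3, o4⟩ := occ_cons.1 o2
  obtain ⟨n, k, g1, g2, g3, g4, g5, g6, g7⟩ := cut_block hc (hx.trans h1) o4
    ((min_le_left _ _).trans o3.le)
  have hlow : ∀ a, a < u.length → Y a < x := fun a ha =>
    hu _ (o1.mem (Nat.zero_le a) (by omega))
  have hmid : ∀ a, u.length ≤ a → a < n → Y a ≤ m := by
    intro a ha ha'
    rcases ha.eq_or_lt with rfl | h
    · exact o3.le
    · exact (hw _ (o4.mem h (by omega))).le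
  refine ⟨n, k, g3, g4, fun i hi => (g5 i hi).le.trans hK, ?_, fun a ha => ?_,
    ⟨u.length, g1, o3 ▸ h1⟩, fun a b ha hb => ?_⟩
  · exact (Nat.pow_le_pow_iff_right (by norm_num : 1 < 2)).1 (hJ.trans g6)
  · by_cases h : a < u.length
    · exact (hlow a h).le.trans (h1.trans h2)
    · exact (hmid a (by omega) ha).trans h2
  · by_cases h : a < u.length
    · have hg : m ≤ gap Y a b := o3 ▸ le_gap h (by omega)
      exact (min_le_left _ _).trans (cutdet_le ((hlow a h).le.trans (h1.trans hg)))
    · by_cases h' : b ≤ u.length + 1 + w.length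
      · exact g7 a b (by omega) ha hb h'
      · have hg : Y (u.length + 1 + w.length) ≤ gap Y a b := le_gap (by omega) (by omega)
        exact (min_le_left _ _).trans (cutdet_le ((hmid a (by omega) ha).trans (he.trans hg)))

theorem side_modify {J K x N : ℕ} {Y Y' : ℕ → ℕ} (h : Side J K x Y) (he : ∀ i, N ≤ i → Y i = Y' i)
    (h1 : ∀ i < N, Y i < x) (h2 : ∀ i < N, Y' i < x) : Side J K x Y' := by
  obtain ⟨n, k, hk1, hk2, hb, hJ, hu, ⟨a₀, ha₀, hx⟩, hp⟩ := h
  have hN : N ≤ a₀ := by
    by_contra hlt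
    exact absurd (h1 a₀ (not_le.1 hlt)) (not_lt.2 hx)
  have hbl : ∀ i, Y' (n + i) = Y (n + i) := fun i => (he _ (by omega)).symm
  refine ⟨n, k, hk1, hk2, fun i hi => (hbl i).symm ▸ hb i hi, ?_, fun a ha => ?_,
    ⟨a₀, ha₀, he a₀ hN ▸ hx⟩, fun a b ha hb' => ?_⟩
  · simp only [hbl]
    exact hJ
  · by_cases haN : a < N
    · exact ((h2 a haN).trans Nat.lt_two_pow_self).le
    · rw [← he a (not_lt.1 haN)]
      exact hu a ha
  · by_cases haN : a < N
    · have h3 : Y' a₀ ≤ gap Y' a b := le_gap (by omega) (by omega)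
      have h4 : x ≤ Y' a₀ := he a₀ hN ▸ hx
      have h5 := h2 a haN
      have h6 : gap Y' a b < 2 ^ gap Y' a b := Nat.lt_two_pow_self
      have h7 := min_le_left (Y' a) (Y' b)
      omega
    · have h3 : gap Y' a b = gap Y a b :=
        Finset.sum_congr rfl fun i hi => (he i (by
          have := (Finset.mem_Ioo.1 hi).1
          omega)).symm
      rw [h3, ← he a (not_lt.1 haN), ← he b (by omega)]
      exact hp a b ha hb'

theorem cutdet_mle {f g : (ℕ → ℕ) → ℕ} (hf : Measurable f) (hg : Measurable g) :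
    Measurable fun Y => f Y ≤ g Y :=
  measurableSet_setOfPred.1 (measurableSet_le hf hg)

theorem measurableSet_side (J K x : ℕ) : MeasurableSet {Y : ℕ → ℕ | Side J K x Y} := by
  refine measurableSet_setOfPred.2 ?_
  unfold Side
  refine Measurable.exists fun n => Measurable.exists fun k => measurable_const.and
    (measurable_const.and (Measurable.and ?_ (Measurable.and ?_ (Measurable.and ?_
      (Measurable.and ?_ ?_)))))
  · exact Measurable.forall fun i => measurable_const.imp
      (cutdet_mle (measurable_pi_apply _) measurable_const)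
  · exact cutdet_mle measurable_const
      (Finset.measurable_sum _ fun i _ => measurable_pi_apply _)
  · exact Measurable.forall fun a => measurable_const.imp
      (cutdet_mle (measurable_pi_apply _) measurable_const)
  · exact Measurable.exists fun a => measurable_const.and
      (cutdet_mle measurable_const (measurable_pi_apply _))
  · refine Measurable.forall fun a => Measurable.forall fun b => measurable_const.imp
      (measurable_const.imp (cutdet_mle ((measurable_pi_apply a).min (measurable_pi_apply b)) ?_))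
    exact (measurable_of_countable fun m : ℕ => 2 ^ m).comp
      (Finset.measurable_sum _ fun i _ => measurable_pi_apply i)

end Pool.Agent.Lib.MP_c59c01_pr.TH
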