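import Pool.Agent.Lib.MP_c59c01_pr.TH.SegV

set_option autoImplicit false

open MeasureTheory ProbabilityTheory Set Filter Topology
open scoped ENNReal

namespace Pool.Agent.Lib.MP_c59c01_pr.TH

/-! A cheap family of jumps exists with positive probability. -/

/-- total cost of the runs that follow the records of value at least `x` -/
noncomputable def tot (c x : ℕ) (Y : ℕ → ℕ) : ℝ≥0∞ :=
  ∑' a : List ℕ × ℕ × List ℕ × ℕ, ind (Occ Y 0 (a.1 ++ a.2.1 :: (a.2.2.1 ++ [a.2.2.2]))) *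
    (ind ((∀ v ∈ a.1, v ≤ a.2.1) ∧ x ≤ a.2.1 ∧ (∀ v ∈ a.2.2.1, v < a.2.1) ∧ a.2.1 ≤ a.2.2.2) *
      V c a.2.1 a.2.2.1)

lemma envB_ind_pos {p : Prop} (h : p) : ind p = 1 := if_pos h

lemma envB_ind_neg {p : Prop} (h : ¬ p) : ind p = 0 := if_neg h

/-- `R` is the set of positions `s` with `x ≤ Y s` and `Y i ≤ Y s` for `i < s`. For `s ∈ R` take the
word before `s` (`exists_occ`) and the run after it (`exists_run`); its end is in `R`. The terms
of `tot` for different `s` are different (length of the first word). Leave room for the infimum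
with `ENNReal.exists_pos_sum_of_countable`; `path_of_segs`. -/
theorem path_of_tot {c x : ℕ} {Y : ℕ → ℕ} (hu : ∀ s x, ∃ i, s ≤ i ∧ x ≤ Y i) {ε : ℝ≥0∞}
    (h : tot c x Y < ε) : Path c Y ε := by
  classical
  choose u hu1 hu2 using fun s => exists_occ Y 0 s
  choose w hw1 hw2 hw3 using fun s => exists_run (hu (s + 1) (Y s))
  let R : Set ℕ := {s | x ≤ Y s ∧ ∀ i, i < s → Y i ≤ Y s}
  have hex : ∃ s, x ≤ Y s := by
    obtain ⟨i, -, hi⟩ := hu 0 x
    exact ⟨i, hi⟩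
  have hR : R.Nonempty := by
    refine ⟨Nat.find hex, Nat.find_spec hex, fun i hi => ?_⟩
    exact le_trans (not_le.1 (Nat.find_min hex hi)).le (Nat.find_spec hex)
  have he : ∀ s ∈ R, s + 1 + (w s).length ∈ R := by
    intro s hs
    refine ⟨le_trans hs.1 (hw3 s), fun i hi => le_trans ?_ (hw3 s)⟩
    rcases lt_trichotomy i s with h1 | h1 | h1
    · exact hs.2 i h1
    · rw [h1]
    · exact (hw2 s _ ((hw1 s).mem h1 hi)).le
  let a : ℕ → List ℕ × ℕ × List ℕ × ℕ := fun s => (u s, Y s, w s, Y (s + 1 + (w s).length))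
  have ha : Function.Injective a := by
    intro s t hst
    have h1 : u s = u t := congrArg Prod.fst hst
    rw [← hu1 s, h1, hu1 t]
  have hsum : ∑' s, R.indicator (fun s => V c (Y s) (w s)) s ≤ tot c x Y := by
    refine le_trans (ENNReal.tsum_le_tsum fun s => ?_)
      (ENNReal.tsum_comp_le_tsum_of_injective ha _)
    by_cases hs : s ∈ R
    · rw [Set.indicator_of_mem hs]
      have h1 : Occ Y 0 (u s ++ Y s :: (w s ++ [Y (s + 1 + (w s).length)])) := by
        rw [occ_append, hu1 s, zero_add, occ_cons, occ_append, occ_cons]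
        exact ⟨hu2 s, rfl, hw1 s, rfl, fun i hi => absurd hi (Nat.not_lt_zero i)⟩
      have h2 : ∀ v ∈ u s, v ≤ Y s := by
        intro v hv
        obtain ⟨i, hi, rfl⟩ := List.getElem_of_mem hv
        rw [← hu2 s i hi, zero_add]
        exact hs.2 i (by rw [← hu1 s]; exact hi)
      show V c (Y s) (w s) ≤
        ind (Occ Y 0 (u s ++ Y s :: (w s ++ [Y (s + 1 + (w s).length)]))) *
          (ind ((∀ v ∈ u s, v ≤ Y s) ∧ x ≤ Y s ∧ (∀ v ∈ w s, v < Y s) ∧
            Y s ≤ Y (s + 1 + (w s).length)) * V c (Y s) (w s))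
      rw [envB_ind_pos h1, envB_ind_pos ⟨h2, hs.1, hw2 s, hw3 s⟩, one_mul, one_mul]
    · rw [Set.indicator_of_notMem hs]
      exact zero_le
  obtain ⟨δ, hδ1, hδ2⟩ := ENNReal.exists_pos_sum_of_countable (tsub_pos_of_lt h).ne' ℕ
  have hseg : ∀ s ∈ R, ∃ e ∈ R, Seg c Y s e (V c (Y s) (w s) + δ s) := by
    intro s hs
    refine ⟨_, he s hs, ?_⟩
    have h1 : V c (Y s) (w s) ≤ tot c x Y := by
      refine le_trans ?_ (le_trans (ENNReal.le_tsum s) hsum)
      rw [Set.indicator_of_mem hs]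
    have h2 : V c (Y s) (w s) < V c (Y s) (w s) + δ s :=
      ENNReal.lt_add_right (ne_top_of_lt (lt_of_le_of_lt h1 h)) (by exact_mod_cast (hδ1 s).ne')
    obtain ⟨t, ht1, ht2⟩ := sInf_lt_iff.1 h2
    obtain ⟨A, hA1, hA2, hA3⟩ := ht1 Y s (hw1 s) le_rfl (hw3 s)
    exact ⟨A, hA1, hA2, le_trans hA3 ht2.le⟩
  obtain ⟨A, hA1, hA2, hA3⟩ := path_of_segs (t := fun s => V c (Y s) (w s) + δ s) hR hseg
  refine ⟨A, hA1, hA2, le_trans hA3 ?_⟩
  calc ∑' s, R.indicator (fun s => V c (Y s) (w s) + δ s) s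
      ≤ ∑' s, (R.indicator (fun s => V c (Y s) (w s)) s + δ s) := by
        refine ENNReal.tsum_le_tsum fun s => ?_
        by_cases hs : s ∈ R
        · rw [Set.indicator_of_mem hs, Set.indicator_of_mem hs]
        · rw [Set.indicator_of_notMem hs]
          exact zero_le
    _ = ∑' s, R.indicator (fun s => V c (Y s) (w s)) s + ∑' s, (δ s : ℝ≥0∞) := ENNReal.tsum_add
    _ ≤ tot c x Y + (ε - tot c x Y) := add_le_add hsum hδ2.le
    _ = ε := add_tsub_cancel_of_le h.le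

lemma envB_measurable (c x : ℕ) : Measurable (tot c x) := by
  classical
  unfold tot
  refine Measurable.tsum fun a => Measurable.mul_const ?_ _
  unfold ind
  exact Measurable.ite (measurableSet_occ 0 _) measurable_const measurable_const

variable (μ : Measure ℕ) [IsProbabilityMeasure μ]

theorem envb_ind_eq (w : List ℕ) :
    (fun Y : ℕ → ℕ => ind (Occ Y 0 w)) = {Y : ℕ → ℕ | Occ Y 0 w}.indicator 1 := by
  funext Y
  by_cases h : Occ Y 0 w <;> simp [ind, h]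

omit [IsProbabilityMeasure μ] in
theorem envb_term (c x : ℕ) (u : List ℕ) (m : ℕ) (w : List ℕ) (y : ℕ) :
    wt μ (u ++ m :: (w ++ [y])) *
      (ind ((∀ v ∈ u, v ≤ m) ∧ x ≤ m ∧ (∀ v ∈ w, v < m) ∧ m ≤ y) * V c m w) ≤
    ind (x ≤ m) * μ {m} * ((wt μ u * ind (∀ v ∈ u, v < m + 1)) *
      ((wt μ w * (ind (∀ v ∈ w, v ≤ m) * V c m w)) * (μ {y} * ind (m ≤ y)))) := by
  by_cases h : (∀ v ∈ u, v ≤ m) ∧ x ≤ m ∧ (∀ v ∈ w, v < m) ∧ m ≤ y
  · have a1 : ∀ v ∈ u, v < m + 1 := fun v hv => Nat.lt_succ_of_le (h.1 v hv)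
    have a2 : ∀ v ∈ w, v ≤ m := fun v hv => (h.2.2.1 v hv).le
    have e : wt μ [] = 1 := rfl
    unfold ind
    rw [if_pos h, if_pos h.2.1, if_pos a1, if_pos a2, if_pos h.2.2.2, wt_append, wt_cons, wt_append,
      wt_cons, e]
    exact le_of_eq (by ring)
  · unfold ind
    rw [if_neg h, zero_mul, mul_zero]
    exact zero_le

/-- `lintegral_tsum`, `nu_occ`, `wt_append`, `sm_lt`, `tsum_ge`: the term for the record value `m`
is at most `μ {m} * Φ m * tl m / tl (m + 1)`. -/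
theorem lintegral_tot (h : ∀ n, 0 < tl μ n) {c x : ℕ} {Φ : ℕ → ℝ} (hΦ : ∀ l, 0 ≤ Φ l)
    (h1 : ∀ l, x ≤ l → sm μ (fun w => ind (∀ v ∈ w, v ≤ l) * V c l w) ≤ ENNReal.ofReal (Φ l))
    (h2 : ∀ l, x ≤ l → tl μ l ≤ 2 * tl μ (l + 1)) :
    ∫⁻ Y, tot c x Y ∂(nu μ) ≤
      ∑' m, ind (x ≤ m) * ENNReal.ofReal (2 * ((tl μ m - tl μ (m + 1)) * Φ m)) := by
  have hm : ∀ w : List ℕ, Measurable fun Y : ℕ → ℕ => ind (Occ Y 0 w) := fun w => by
    rw [envb_ind_eq]
    exact measurable_one.indicator (measurableSet_occ 0 w)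
  have hi : ∀ w : List ℕ, ∫⁻ Y, ind (Occ Y 0 w) ∂(nu μ) = wt μ w := fun w => by
    rw [envb_ind_eq, lintegral_indicator_one (measurableSet_occ 0 w), nu_occ]
  unfold tot
  rw [lintegral_tsum fun a => ((hm _).mul_const _).aemeasurable]
  simp only [lintegral_mul_const _ (hm _), hi]
  refine (ENNReal.tsum_le_tsum fun a : List ℕ × ℕ × List ℕ × ℕ =>
    envb_term μ c x a.1 a.2.1 a.2.2.1 a.2.2.2).trans ?_
  simp only [ENNReal.tsum_prod']
  rw [ENNReal.tsum_comm]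
  refine ENNReal.tsum_le_tsum fun m => ?_
  simp only [ENNReal.tsum_mul_left, ENNReal.tsum_mul_right]
  by_cases hx : x ≤ m
  · rw [mul_assoc]
    refine mul_le_mul_right ?_ _
    have b1 := sm_lt μ (h (m + 1))
    have b2 := h1 m hx
    have d0 : 0 ≤ tl μ m - tl μ (m + 1) := sub_nonneg.2 (tl_anti μ (Nat.le_succ m))
    have t1 := h (m + 1)
    rw [tsum_ge, mu_single]
    refine (mul_le_mul_right (mul_le_mul' b1 (mul_le_mul_left b2 _)) _).trans ?_
    rw [← ENNReal.ofReal_mul (hΦ m), ← ENNReal.ofReal_mul (inv_nonneg.2 t1.le),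
      ← ENNReal.ofReal_mul d0]
    refine ENNReal.ofReal_le_ofReal ?_
    have b3 : (tl μ (m + 1))⁻¹ * tl μ m ≤ 2 := by
      rw [inv_mul_le_iff₀ t1]
      linarith [h2 m hx]
    have b4 := mul_le_mul_of_nonneg_left b3 (mul_nonneg d0 (hΦ m))
    linarith
  · simp [ind, hx]

/-- The tail of the series is small; Markov's inequality, `ae_unbounded`. -/
theorem path_prob (h : ∀ n, 0 < tl μ n) {c : ℕ} {Φ : ℕ → ℝ} (hΦ : ∀ l, 0 ≤ Φ l)
    (hs : Summable fun m => (tl μ m - tl μ (m + 1)) * Φ m)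
    (h1 : ∀ l, 1 ≤ l → sm μ (fun w => ind (∀ v ∈ w, v ≤ l) * V c l w) ≤ ENNReal.ofReal (Φ l))
    (h2 : ∀ᶠ l in atTop, tl μ l ≤ 2 * tl μ (l + 1)) {ε : ℝ≥0∞} (hε : 0 < ε) :
    nu μ {Y | ¬ Path c Y ε} < 1 := by
  let g : ℕ → ℝ≥0∞ := fun m => ENNReal.ofReal (2 * ((tl μ m - tl μ (m + 1)) * Φ m))
  have hg : ∑' m, g m ≠ ∞ := (hs.mul_left 2).tsum_ofReal_ne_top
  have h3 : ∀ᶠ x in atTop, ∑' k, g (k + x) < ε :=
    (ENNReal.tendsto_sum_nat_add g hg).eventually (gt_mem_nhds hε)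
  obtain ⟨x0, hx0⟩ := eventually_atTop.1 h2
  obtain ⟨x, hx1, hx2, hx3⟩ := (h3.and ((eventually_ge_atTop x0).and (eventually_ge_atTop 1))).exists
  have h4 := lintegral_tot μ h (c := c) (x := x) hΦ (fun l hl => h1 l (le_trans hx3 hl))
    (fun l hl => hx0 l (le_trans hx2 hl))
  have h5 : ∑' m, ind (x ≤ m) * g m = ∑' k, g (k + x) := by
    rw [← Summable.sum_add_tsum_nat_add' (f := fun m => ind (x ≤ m) * g m) (k := x)
      ENNReal.summable, Finset.sum_eq_zero, zero_add]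
    · refine tsum_congr fun k => ?_
      rw [envB_ind_pos (Nat.le_add_left x k), one_mul]
    · intro m hm
      rw [envB_ind_neg (not_le.2 (Finset.mem_range.1 hm)), zero_mul]
  have h6 : ∫⁻ Y, tot c x Y ∂(nu μ) < ε := lt_of_le_of_lt (le_trans h4 h5.le) hx1
  have h7 := mul_meas_ge_le_lintegral₀ (μ := nu μ) (envB_measurable c x).aemeasurable ε
  have h8 : nu μ {Y | ¬ Path c Y ε} ≤ nu μ {Y | ε ≤ tot c x Y} := by
    refine measure_mono_ae ?_
    filter_upwards [ae_unbounded μ h] with Y hY hP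
    exact not_lt.1 fun hlt => hP (path_of_tot hY hlt)
  refine lt_of_le_of_lt h8 (not_le.1 fun h9 => ?_)
  have h10 : ε ≤ ε * nu μ {Y | ε ≤ tot c x Y} := le_mul_of_one_le_right' h9
  exact absurd (le_trans h10 h7) (not_le.2 h6)

end Pool.Agent.Lib.MP_c59c01_pr.TH
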