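import Pool.Agent.Lib.MP_c59c01_pr.TH.Lists

set_option autoImplicit false

open MeasureTheory ProbabilityTheory Set Filter Topology
open scoped ENNReal

namespace Pool.Agent.Lib.MP_c59c01_pr.TH

/-! Survival of the splitting tree. -/

variable (μ : Measure ℕ) [IsProbabilityMeasure μ]

/-- weight of the words below `x` without a cut -/
noncomputable def Nf (L K x : ℕ) : ℝ≥0∞ := sm μ fun w => ind ((∀ y ∈ w, y < x) ∧ ¬ Cut L K x w)

theorem gw_ind_pos {p : Prop} (h : p) : ind p = 1 := if_pos h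

theorem gw_ind_neg {p : Prop} (h : ¬ p) : ind p = 0 := if_neg h

theorem gw_ind_ne {p : Prop} (h : ind p ≠ 0) : p := by
  by_contra hp
  exact h (gw_ind_neg hp)

omit [IsProbabilityMeasure μ] in
theorem gw_sm_prod (a : ℝ≥0∞) (p q : List ℕ → ℝ≥0∞) :
    (sm μ fun u => sm μ fun v => a * (p u * q v)) = a * (sm μ p * sm μ q) := by
  have e : ∀ u, (sm μ fun v => a * (p u * q v)) = (a * sm μ q) * p u := by
    intro u
    have e1 : (fun v => a * (p u * q v)) = fun v => (a * p u) * q v := by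
      funext v
      rw [mul_assoc]
    rw [e1, sm_mul]
    ring
  simp only [e]
  rw [sm_mul]
  ring

/-- words that contain the bound `m`, without a cut after its last occurrence -/
theorem gw_last (h : ∀ n, 0 < tl μ n) (L K m : ℕ) :
    (sm μ fun v => ind (∃ v₁ v₂, v = v₁ ++ m :: v₂ ∧ (∀ y ∈ v₁, y < m + 1) ∧
      (∀ y ∈ v₂, y < m) ∧ ¬ Cut L K m v₂)) ≤
      μ {m} * (ENNReal.ofReal (tl μ (m + 1))⁻¹ * Nf μ L K m) := by
  refine (sm_split μ (g := fun v₁ m' v₂ => ind (m' = m) * (ind (∀ y ∈ v₁, y < m + 1) *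
    ind ((∀ y ∈ v₂, y < m) ∧ ¬ Cut L K m v₂))) fun w hw => ?_).trans ?_
  · obtain ⟨v₁, v₂, e, h1, h2⟩ := gw_ind_ne hw
    refine ⟨v₁, m, v₂, e, ?_⟩
    rw [gw_ind_pos rfl, gw_ind_pos h1, gw_ind_pos h2, gw_ind_pos ⟨v₁, v₂, e, h1, h2⟩]
    simp
  · simp only [gw_sm_prod]
    rw [tsum_eq_single m fun m' hm => by rw [gw_ind_neg hm, zero_mul, mul_zero], gw_ind_pos rfl,
      one_mul]
    unfold Nf
    gcongr
    exact sm_lt μ (h _)

/-- Let `y = clog 2 x`. A word without a cut lies below `y`, or lies below `L` and is longer than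
`K`, or is `u ++ m :: v` (`exists_first_max`) with `y, L ≤ m < x`, `u` without a cut at level `m`,
and (`exists_last`) either `v` below `m` without a cut or `v = v₁ ++ m :: v₂` with `v₂` below `m`
without a cut. `sm_split` twice, `sm_lt`, `sm_long`. -/
theorem nf_rec (h : ∀ n, 0 < tl μ n) (L K x : ℕ) :
    Nf μ L K x ≤ ENNReal.ofReal (tl μ (Nat.clog 2 x))⁻¹ +
      ENNReal.ofReal ((1 - tl μ L) ^ K / tl μ L) +
      ∑ m ∈ Finset.Ico (Nat.clog 2 x) x, ind (L ≤ m) * (μ {m} * (Nf μ L K m *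
        (Nf μ L K m + μ {m} * (ENNReal.ofReal (tl μ (m + 1))⁻¹ * Nf μ L K m)))) := by
  have hpow : ∀ m, Nat.clog 2 x ≤ m → x ≤ 2 ^ m := fun m hm =>
    (Nat.clog_le_iff_le_pow one_lt_two).1 hm
  set y := Nat.clog 2 x with hy
  have h1 : Nf μ L K x ≤ sm μ fun w => (ind (∀ z ∈ w, z < y) +
      ind ((∀ z ∈ w, z < L) ∧ K < w.length)) +
      ind (((∀ z ∈ w, z < x) ∧ ¬ Cut L K x w) ∧ (∃ z ∈ w, y ≤ z) ∧ ∃ z ∈ w, L ≤ z) := by
    refine sm_mono μ fun w _ => ?_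
    by_cases hA : (∀ z ∈ w, z < x) ∧ ¬ Cut L K x w
    swap
    · rw [gw_ind_neg hA]
      exact zero_le
    rw [gw_ind_pos hA]
    by_cases c1 : ∀ z ∈ w, z < y
    · rw [gw_ind_pos c1]
      exact le_self_add.trans le_self_add
    by_cases c2 : ∀ z ∈ w, z < L
    · have hw : w ≠ [] := by
        rintro rfl
        exact c1 (by simp)
      obtain ⟨u, m, v, e, hu, hv⟩ := exists_first_max hw
      have hm : m ∈ w := by rw [e]; simp
      have hmax : ∀ z ∈ w, z ≤ m := by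
        intro z hz
        rw [e, List.mem_append, List.mem_cons] at hz
        rcases hz with hz | hz | hz
        · exact (hu z hz).le
        · exact hz.le
        · exact hv z hz
      have hym : y ≤ m := by
        by_contra hc
        exact c1 fun z hz => (hmax z hz).trans_lt (not_le.1 hc)
      have hK : K < w.length := by
        by_contra hc
        exact hA.2 (Cut.stop x m w hm hmax (c2 m hm) (hpow m hym) (not_lt.1 hc))
      rw [gw_ind_pos (And.intro c2 hK)]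
      exact le_add_self.trans le_self_add
    · push Not at c1 c2
      rw [gw_ind_pos (And.intro hA (And.intro c1 c2))]
      exact le_add_self
  refine h1.trans ?_
  rw [sm_add, sm_add]
  refine add_le_add (add_le_add (sm_lt μ (h _)) (sm_long μ (h _) K)) ?_
  refine (sm_split μ (g := fun u m v => ind (m ∈ Finset.Ico y x ∧ L ≤ m) *
    (ind ((∀ z ∈ u, z < m) ∧ ¬ Cut L K m u) * (ind ((∀ z ∈ v, z < m) ∧ ¬ Cut L K m v) +
      ind (∃ v₁ v₂, v = v₁ ++ m :: v₂ ∧ (∀ y ∈ v₁, y < m + 1) ∧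
        (∀ y ∈ v₂, y < m) ∧ ¬ Cut L K m v₂)))) fun w hw => ?_).trans ?_
  · obtain ⟨hA, ⟨z₁, a1, b1⟩, z₂, a2, b2⟩ := gw_ind_ne hw
    obtain ⟨u, m, v, e, hu, hv⟩ := exists_first_max (List.ne_nil_of_mem a1)
    have hm : m ∈ w := by rw [e]; simp
    have hmax : ∀ z ∈ w, z ≤ m := by
      intro z hz
      rw [e, List.mem_append, List.mem_cons] at hz
      rcases hz with hz | hz | hz
      · exact (hu z hz).le
      · exact hz.le
      · exact hv z hz
    have hym : y ≤ m := b1.trans (hmax _ a1)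
    have hLm : L ≤ m := b2.trans (hmax _ a2)
    have hu' : ∀ z ∈ u, z ≤ m := fun z hz => (hu z hz).le
    have hcu : ¬ Cut L K m u := fun hc =>
      hA.2 (e ▸ Cut.left x m u v hu' hv hLm (hpow m hym) hc)
    refine ⟨u, m, v, e, ?_⟩
    rw [gw_ind_pos (gw_ind_ne hw), gw_ind_pos (And.intro (Finset.mem_Ico.2 ⟨hym, hA.1 m hm⟩) hLm),
      gw_ind_pos (And.intro hu hcu), one_mul, one_mul]
    rcases exists_last hv with hv' | ⟨v₁, v₂, e', h₁, h₂⟩
    · have hcv : ¬ Cut L K m v := fun hc =>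
        hA.2 (e ▸ Cut.right x m u v hu' hv hLm (hpow m hym) hc)
      rw [gw_ind_pos (And.intro hv' hcv)]
      exact le_self_add
    · have e2 : w = (u ++ m :: v₁) ++ m :: v₂ := by rw [e, e']; simp
      have hcv : ¬ Cut L K m v₂ := fun hc =>
        hA.2 (e2 ▸ Cut.right x m (u ++ m :: v₁) v₂
          (fun z hz => hmax z (by rw [e2]; exact List.mem_append_left _ hz))
          (fun z hz => (h₂ z hz).le) hLm (hpow m hym) hc)
      rw [gw_ind_pos (p := ∃ v₁ v₂, v = v₁ ++ m :: v₂ ∧ (∀ y ∈ v₁, y < m + 1) ∧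
        (∀ y ∈ v₂, y < m) ∧ ¬ Cut L K m v₂)
        ⟨v₁, v₂, e', fun z hz => Nat.lt_succ_of_le (h₁ z hz), h₂, hcv⟩]
      exact le_add_self
  · simp only [gw_sm_prod]
    rw [tsum_eq_sum (s := Finset.Ico y x) fun m hm => by
      rw [gw_ind_neg fun hc => hm hc.1, zero_mul, mul_zero]]
    refine Finset.sum_le_sum fun m hm => ?_
    by_cases hLm : L ≤ m
    · rw [gw_ind_pos (And.intro hm hLm), gw_ind_pos hLm, one_mul, one_mul, sm_add]
      have := gw_last μ h L K m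
      unfold Nf at this ⊢
      gcongr
    · rw [gw_ind_neg fun hc => hLm hc.2, zero_mul, mul_zero]
      exact zero_le

theorem gw_term (h : ∀ n, 0 < tl μ n) {δ : ℝ} (hδ : δ ≤ 1) {N : ℝ≥0∞} {m : ℕ}
    (hN : N ≤ ENNReal.ofReal ((1 - δ) / tl μ m)) :
    μ {m} * (N * (N + μ {m} * (ENNReal.ofReal (tl μ (m + 1))⁻¹ * N))) ≤
      ENNReal.ofReal ((1 - δ) ^ 2 * ((tl μ (m + 1))⁻¹ - (tl μ m)⁻¹)) := by
  have h0 := h m
  have h1 := h (m + 1)
  have hs : 0 ≤ tl μ m - tl μ (m + 1) := sub_nonneg.2 (tl_anti μ (Nat.le_succ m))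
  have hn : 0 ≤ (1 - δ) / tl μ m := div_nonneg (by linarith) h0.le
  refine le_trans (b := μ {m} * (ENNReal.ofReal ((1 - δ) / tl μ m) *
    (ENNReal.ofReal ((1 - δ) / tl μ m) + μ {m} * (ENNReal.ofReal (tl μ (m + 1))⁻¹ *
      ENNReal.ofReal ((1 - δ) / tl μ m))))) (by gcongr) (le_of_eq ?_)
  rw [mu_single, ← ENNReal.ofReal_mul (inv_nonneg.2 h1.le), ← ENNReal.ofReal_mul hs,
    ← ENNReal.ofReal_add hn (by positivity), ← ENNReal.ofReal_mul hn, ← ENNReal.ofReal_mul hs]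
  congr 1
  field_simp
  ring

/-- `δ = (1 - 2 a) / 2`, `K ≥ L` with `(1 - tl L) ^ K / tl L ≤ δ ^ 2`. Strong induction on `x`:
the term for `m` is at most `(1 - δ) ^ 2 (1 / tl (m + 1) - 1 / tl m)` (`mu_single`), the sum
telescopes, and `ρ + (1 - δ) ^ 2 (1 - ρ) + δ ^ 2 ≤ 1 - δ` for `ρ = tl x / tl y ≤ a`. -/
theorem gw (h : ∀ n, 0 < tl μ n) {a : ℝ} {L₀ : ℕ} (ha0 : 0 ≤ a) (ha : a < 1 / 2)
    (hL : ∀ x, L₀ ≤ x → tl μ x ≤ a * tl μ (Nat.clog 2 x)) :
    ∃ δ : ℝ, 0 < δ ∧ δ ≤ 1 ∧ ∀ L, L₀ ≤ L → ∃ K, L ≤ K ∧ ∀ x, L ≤ x →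
      Nf μ L K x ≤ ENNReal.ofReal ((1 - δ) / tl μ x) := by
  obtain ⟨δ, hδ⟩ : ∃ δ : ℝ, δ = 1 / 2 - a := ⟨_, rfl⟩
  have d0 : 0 < δ := by linarith
  have d1 : δ ≤ 1 / 2 := by linarith
  refine ⟨δ, d0, by linarith, fun L hL0 => ?_⟩
  have t0 := h L
  have t1 := tl_le_one μ L
  obtain ⟨K, hK⟩ := (((tendsto_pow_atTop_nhds_zero_of_lt_one (r := 1 - tl μ L) (by linarith)
    (by linarith)).eventually (gt_mem_nhds (show 0 < δ ^ 2 * tl μ L by positivity))).and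
      (eventually_ge_atTop L)).exists
  refine ⟨K, hK.2, fun x => ?_⟩
  induction x using Nat.strong_induction_on with
  | _ x ih =>
  intro hx
  have hy : Nat.clog 2 x ≤ x :=
    (Nat.clog_le_iff_le_pow one_lt_two).2 Nat.lt_two_pow_self.le
  have hnn : ∀ m, 0 ≤ (1 - δ) ^ 2 * ((tl μ (m + 1))⁻¹ - (tl μ m)⁻¹) := fun m =>
    mul_nonneg (sq_nonneg _) (sub_nonneg.2 (inv_anti₀ (h _) (tl_anti μ (Nat.le_succ m))))
  have hsum : ∑ m ∈ Finset.Ico (Nat.clog 2 x) x, ind (L ≤ m) * (μ {m} * (Nf μ L K m *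
      (Nf μ L K m + μ {m} * (ENNReal.ofReal (tl μ (m + 1))⁻¹ * Nf μ L K m)))) ≤
      ENNReal.ofReal ((1 - δ) ^ 2 * ((tl μ x)⁻¹ - (tl μ (Nat.clog 2 x))⁻¹)) := by
    rw [← Finset.sum_Ico_sub (fun m => (tl μ m)⁻¹) hy, Finset.mul_sum,
      ENNReal.ofReal_sum_of_nonneg fun m _ => hnn m]
    refine Finset.sum_le_sum fun m hm => ?_
    unfold ind
    split_ifs with hLm
    · rw [one_mul]
      exact gw_term μ h (by linarith) (ih m (Finset.mem_Ico.1 hm).2 hLm)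
    · rw [zero_mul]
      exact zero_le
  have x0 := h x
  have x1 := tl_le_one μ x
  have y0 := h (Nat.clog 2 x)
  have hxy : (tl μ (Nat.clog 2 x))⁻¹ ≤ (tl μ x)⁻¹ := inv_anti₀ x0 (tl_anti μ hy)
  have e2 : (1 - tl μ L) ^ K / tl μ L ≤ δ ^ 2 := (div_le_iff₀ t0).2 hK.1.le
  refine (nf_rec μ h L K x).trans ((add_le_add (add_le_add le_rfl
    (ENNReal.ofReal_le_ofReal e2)) hsum).trans ?_)
  rw [← ENNReal.ofReal_add (by positivity) (by positivity), ← ENNReal.ofReal_add (by positivity)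
    (mul_nonneg (sq_nonneg _) (sub_nonneg.2 hxy))]
  refine ENNReal.ofReal_le_ofReal ?_
  have e3 : (tl μ (Nat.clog 2 x))⁻¹ ≤ (1 / 2 - δ) * (tl μ x)⁻¹ := by
    rw [← div_eq_mul_inv, inv_eq_one_div, div_le_div_iff₀ y0 x0]
    have := hL x (hL0.trans hx)
    rw [show 1 / 2 - δ = a by linarith]
    linarith
  have e4 : 1 ≤ (tl μ x)⁻¹ := (one_le_inv₀ x0).2 x1
  rw [div_eq_mul_inv]
  generalize (tl μ x)⁻¹ = A at e3 e4
  generalize (tl μ (Nat.clog 2 x))⁻¹ = B at e3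
  have e5 := mul_le_mul_of_nonneg_left e3 (show 0 ≤ 2 * δ - δ ^ 2 by nlinarith)
  have e6 := mul_le_mul_of_nonneg_left e4 (sq_nonneg δ)
  have e7 : 0 ≤ δ ^ 2 * (1 / 2 - δ) * A := by
    have : 0 ≤ 1 / 2 - δ := by linarith
    positivity
  nlinarith

end Pool.Agent.Lib.MP_c59c01_pr.TH
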