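import Pool.Agent.Lib.MP_c59c01_pr.TH.Asym

set_option autoImplicit false

open MeasureTheory ProbabilityTheory Set Filter Topology
open scoped ENNReal

namespace Pool.Agent.Lib.MP_c59c01_pr.TH

/-! Laws that satisfy the two limits exist, and their logarithmic moment is infinite. -/

theorem exists_law {F : ℕ → ℝ} (hF : Antitone F) (h0 : F 0 = 1) (h1 : Tendsto F atTop (𝓝 0)) :
    ∃ μ : Measure ℕ, IsProbabilityMeasure μ ∧ μ {0} = 0 ∧ ∀ n, tl μ (n + 1) = F n := by
  have hpos : ∀ n, 0 ≤ F n := fun n => hF.le_of_tendsto h1 n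
  have hs : ∀ n, HasSum (fun i => F (i + n) - F (i + n + 1)) (F n) := by
    intro n
    rw [hasSum_iff_tendsto_nat_of_nonneg (fun i => sub_nonneg.2 (hF (Nat.le_succ _)))]
    have h2 : ∀ k, ∑ i ∈ Finset.range k, (F (i + n) - F (i + n + 1)) = F n - F (k + n) := by
      intro k
      induction k with
      | zero => simp
      | succ k ih =>
        rw [Finset.sum_range_succ, ih, show k + 1 + n = k + n + 1 by omega]
        ring
    simp only [h2]
    simpa using tendsto_const_nhds.sub (h1.comp (tendsto_add_atTop_nat n))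
  let μ : Measure ℕ := Measure.sum fun i => ENNReal.ofReal (F i - F (i + 1)) • Measure.dirac (i + 1)
  have hμ : ∀ n, μ (Ici (n + 1)) = ENNReal.ofReal (F n) := by
    intro n
    rw [Measure.sum_apply _ MeasurableSet.of_discrete, ← (hs n).tsum_eq,
      ENNReal.ofReal_tsum_of_nonneg (fun i => sub_nonneg.2 (hF (Nat.le_succ _))) (hs n).summable,
      ← Summable.sum_add_tsum_nat_add' (k := n) ENNReal.summable, Finset.sum_eq_zero, zero_add]
    · refine tsum_congr fun i => ?_
      simp [Measure.dirac_apply]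
    · intro i hi
      have : i + 1 ∉ Ici (n + 1) := by
        have := Finset.mem_range.1 hi
        simp only [mem_Ici]
        omega
      simp [indicator_of_notMem this]
  have hz : μ {0} = 0 := by
    rw [Measure.sum_apply _ MeasurableSet.of_discrete]
    simp
  refine ⟨μ, ⟨?_⟩, hz, fun n => ?_⟩
  · have h2 : (univ : Set ℕ) = {0} ∪ Ici (0 + 1) := by
      ext i
      simp only [mem_univ, mem_union, mem_singleton_iff, mem_Ici, true_iff]
      omega
    rw [h2, measure_union (by simp) MeasurableSet.of_discrete, hz, hμ, h0]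
    simp
  · rw [tl, Measure.real, hμ, ENNReal.toReal_ofReal (hpos n)]

/-- increments of the interpolated iterated logarithm -/
noncomputable def dl (x : ℕ) : ℝ :=
  if h : x = 0 then 1 else
    have : Nat.log 2 x < x := Nat.log_lt_self 2 h
    dl (Nat.log 2 x) / 2 ^ Nat.log 2 x

/-- the interpolated iterated logarithm -/
noncomputable def sl (x : ℕ) : ℝ := ∑ i ∈ Finset.range x, dl i

theorem dl_zero : dl 0 = 1 := by rw [dl]; simp

theorem dl_eq {x : ℕ} (h : x ≠ 0) : dl x = dl (Nat.log 2 x) / 2 ^ Nat.log 2 x := by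
  rw [dl]; simp [h]

theorem dl_mem (x : ℕ) : 0 ≤ dl x ∧ dl x ≤ 1 := by
  induction x using Nat.strong_induction_on with
  | _ x ih =>
    by_cases h : x = 0
    · rw [h, dl_zero]; norm_num
    · obtain ⟨a, b⟩ := ih _ (Nat.log_lt_self 2 h)
      rw [dl_eq h]
      have h1 : (1 : ℝ) ≤ 2 ^ Nat.log 2 x := one_le_pow₀ (by norm_num)
      exact ⟨by positivity, (div_le_one (by positivity)).2 (b.trans h1)⟩

theorem tendsto_log : Tendsto (Nat.log 2) atTop atTop :=
  tendsto_atTop_atTop.2 fun b => ⟨2 ^ b, fun _ ha => Nat.le_log_of_pow_le (by norm_num) ha⟩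

theorem dl_tendsto : Tendsto dl atTop (𝓝 0) := by
  have h1 : Tendsto (fun x => ((1 : ℝ) / 2) ^ Nat.log 2 x) atTop (𝓝 0) :=
    (tendsto_pow_atTop_nhds_zero_of_lt_one (by norm_num) (by norm_num)).comp tendsto_log
  refine squeeze_zero' (Eventually.of_forall fun x => (dl_mem x).1) ?_ h1
  filter_upwards [eventually_ne_atTop 0] with x hx
  rw [dl_eq hx, div_pow, one_pow]
  gcongr
  exact (dl_mem _).2

theorem sl_mono : Monotone sl := monotone_nat_of_le_succ fun n => by
  rw [sl, sl, Finset.sum_range_succ]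
  linarith [(dl_mem n).1]

theorem sl_pow (n : ℕ) : sl (2 ^ n) = sl n + 1 := by
  induction n with
  | zero => simp [sl, dl_zero]
  | succ n ih =>
    have h1 : sl (2 ^ (n + 1)) = sl (2 ^ n) + ∑ i ∈ Finset.range (2 ^ n), dl (2 ^ n + i) := by
      rw [sl, sl, pow_succ, mul_two, Finset.sum_range_add]
    have h2 : ∀ i ∈ Finset.range (2 ^ n), dl (2 ^ n + i) = dl n / 2 ^ n := by
      intro i hi
      have hi' := Finset.mem_range.1 hi
      have h3 : Nat.log 2 (2 ^ n + i) = n :=
        Nat.log_eq_of_pow_le_of_lt_pow (by omega) (by rw [pow_succ]; omega)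
      rw [dl_eq (by positivity), h3]
    rw [h1, Finset.sum_congr rfl h2, ih, sl, sl, Finset.sum_range_succ]
    simp only [Finset.sum_const, Finset.card_range, nsmul_eq_mul]
    push_cast
    field_simp
    ring

theorem sl_tendsto : Tendsto sl atTop atTop := by
  refine tendsto_atTop_atTop_of_monotone sl_mono fun b => ?_
  have h : ∀ k : ℕ, ∃ n, (k : ℝ) ≤ sl n := by
    intro k
    induction k with
    | zero => exact ⟨0, by simp [sl]⟩
    | succ k ih =>
      obtain ⟨n, hn⟩ := ih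
      exact ⟨2 ^ n, by rw [sl_pow]; push_cast; linarith⟩
  obtain ⟨k, hk⟩ := exists_nat_ge b
  obtain ⟨n, hn⟩ := h k
  exact ⟨n, hk.trans hn⟩

theorem sl_two : Tendsto (fun n => sl (2 * n) - sl n) atTop (𝓝 0) := by
  have h1 : Tendsto (fun n => dl (Nat.log 2 n) + dl (Nat.log 2 n + 1)) atTop (𝓝 0) := by
    simpa using (dl_tendsto.comp tendsto_log).add
      (dl_tendsto.comp ((tendsto_add_atTop_nat 1).comp tendsto_log))
  refine squeeze_zero' (Eventually.of_forall fun n => sub_nonneg.2 (sl_mono (by omega))) ?_ h1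
  filter_upwards [eventually_ne_atTop 0] with n hn
  have a1 := sl_mono (Nat.pow_log_le_self 2 hn)
  have a2 : 2 * n ≤ 2 ^ (Nat.log 2 n + 2) := by
    have := Nat.lt_pow_succ_log_self (b := 2) (by norm_num) n
    rw [pow_succ]
    simp only [Nat.succ_eq_add_one] at this
    omega
  have a3 := sl_mono a2
  rw [sl_pow] at a1 a3
  have a4 : sl (Nat.log 2 n + 2) = sl (Nat.log 2 n) + dl (Nat.log 2 n) + dl (Nat.log 2 n + 1) := by
    rw [sl, sl, Finset.sum_range_succ, Finset.sum_range_succ]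
  linarith

theorem laws {θ : ℝ} (h0 : 0 < θ) (h1 : θ < 1) : ∃ μ : Measure ℕ, IsProbabilityMeasure μ ∧
    μ {0} = 0 ∧ Tendsto (fun n => tl μ (2 * n) / tl μ n) atTop (𝓝 1) ∧
      Tendsto (fun n => tl μ (2 ^ n) / tl μ n) atTop (𝓝 θ) := by
  obtain ⟨μ, hμ, hz, ht⟩ := exists_law (F := fun n => θ ^ (sl (n + 1) - 1))
    (fun a b hab => Real.rpow_le_rpow_of_exponent_ge h0 h1.le
      (by linarith [sl_mono (Nat.succ_le_succ hab)]))
    (by simp [sl, dl_zero])
    ((tendsto_rpow_atTop_of_base_lt_one θ (by linarith) h1).comp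
      (tendsto_atTop_add_const_right _ (-1) (sl_tendsto.comp (tendsto_add_atTop_nat 1))))
  have ht' : ∀ n, n ≠ 0 → tl μ n = θ ^ (sl n - 1) := by
    intro n hn
    obtain ⟨k, rfl⟩ := Nat.exists_eq_succ_of_ne_zero hn
    exact ht k
  refine ⟨μ, hμ, hz, ?_, ?_⟩
  · have h2 : Tendsto (fun n => θ ^ (sl (2 * n) - sl n)) atTop (𝓝 1) := by
      simpa [Function.comp_def] using
        ((Real.continuousAt_const_rpow (b := 0) h0.ne').tendsto).comp sl_two
    refine h2.congr' ?_
    filter_upwards [eventually_ne_atTop 0] with n hn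
    rw [ht' n hn, ht' _ (by omega), ← Real.rpow_sub h0]
    congr 1
    ring
  · refine tendsto_const_nhds.congr' ?_
    filter_upwards [eventually_ne_atTop 0] with n hn
    rw [ht' n hn, ht' _ (by positivity), ← Real.rpow_sub h0, sl_pow]
    simp

theorem log_inf {μ : Measure ℕ} [IsProbabilityMeasure μ] {θ : ℝ} (hθ : 0 < θ)
    (h1 : Tendsto (fun n => tl μ (2 * n) / tl μ n) atTop (𝓝 1))
    (h2 : Tendsto (fun n => tl μ (2 ^ n) / tl μ n) atTop (𝓝 θ)) :
    ∫⁻ x, ENNReal.ofReal (Real.log (x : ℝ)) ∂μ = ⊤ := by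
  have hpos := tl_pos h1
  have hl : 0 < Real.log 2 := Real.log_pos (by norm_num)
  refine ENNReal.eq_top_of_forall_nnreal_le fun r => ?_
  have e1 := h2.eventually (lt_mem_nhds (half_lt_self hθ))
  have e2 : ∀ᶠ n : ℕ in atTop, ((r : ℝ) / (Real.log 2 * (θ / 2))) ^ 2 ≤ n :=
    tendsto_natCast_atTop_atTop.eventually_ge_atTop _
  obtain ⟨n, a1, a2, a3⟩ := (e1.and (e2.and (asym_sqrt h1))).exists
  have a4 : θ / 2 * tl μ n ≤ tl μ (2 ^ n) := ((lt_div_iff₀ (hpos n)).1 a1).le
  have a5 : tl μ (n + 1) ≤ tl μ n := tl_anti μ (Nat.le_succ n)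
  have a6 := hpos (n + 1)
  have a7 : (r : ℝ) / (Real.log 2 * (θ / 2)) ≤ n * tl μ n := by
    refine le_of_sq_le_sq ?_ (mul_nonneg (Nat.cast_nonneg n) (hpos n).le)
    have a8 : tl μ (n + 1) ^ 2 ≤ tl μ n ^ 2 := by gcongr
    have a9 : (0 : ℝ) ≤ n := Nat.cast_nonneg n
    have a10 : 1 ≤ (n : ℝ) * tl μ n ^ 2 := a3.trans (by gcongr)
    nlinarith
  have a11 : (r : ℝ) ≤ n * Real.log 2 * tl μ (2 ^ n) := by
    rw [div_le_iff₀ (by positivity)] at a7
    calc (r : ℝ) ≤ n * tl μ n * (Real.log 2 * (θ / 2)) := a7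
      _ = n * Real.log 2 * (θ / 2 * tl μ n) := by ring
      _ ≤ _ := by gcongr
  calc (r : ℝ≥0∞) = ENNReal.ofReal r := by simp
    _ ≤ ENNReal.ofReal (n * Real.log 2 * tl μ (2 ^ n)) := ENNReal.ofReal_le_ofReal a11
    _ = ENNReal.ofReal (n * Real.log 2) * μ (Ici (2 ^ n)) := by
        rw [ENNReal.ofReal_mul (by positivity), tl, ofReal_measureReal]
    _ = ∫⁻ _ in Ici (2 ^ n), ENNReal.ofReal (n * Real.log 2) ∂μ := by simp
    _ ≤ ∫⁻ x in Ici (2 ^ n), ENNReal.ofReal (Real.log (x : ℝ)) ∂μ := by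
        refine setLIntegral_mono' MeasurableSet.of_discrete fun x hx => ENNReal.ofReal_le_ofReal ?_
        rw [← Real.log_pow]
        exact Real.log_le_log (by positivity) (by exact_mod_cast hx)
    _ ≤ _ := setLIntegral_le_lintegral _ _

end Pool.Agent.Lib.MP_c59c01_pr.TH
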