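import Pool.Agent.Lib.MP_c59c01_pr.TH.Base

set_option autoImplicit false

open MeasureTheory ProbabilityTheory Set Filter Topology
open scoped ENNReal

namespace Pool.Agent.Lib.MP_c59c01_pr.TH

/-! Weighted sums over words. -/

variable (μ : Measure ℕ) [IsProbabilityMeasure μ]

theorem tl_anti : Antitone (tl μ) := by
  intro a b hab
  exact measureReal_mono (Ici_subset_Ici.2 hab)

theorem tl_le_one (n : ℕ) : tl μ n ≤ 1 := by
  exact measureReal_le_one

theorem mu_single (m : ℕ) : μ {m} = ENNReal.ofReal (tl μ m - tl μ (m + 1)) := by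
  have h : Ici m = {m} ∪ Ici (m + 1) := by
    ext y
    simp only [mem_Ici, mem_union, mem_singleton_iff]
    omega
  have h2 : tl μ m = μ.real {m} + tl μ (m + 1) := by
    unfold tl
    rw [h]
    refine measureReal_union ?_ measurableSet_Ici
    rw [disjoint_singleton_left]
    simp
  rw [h2, add_sub_cancel_right, ofReal_measureReal]

theorem tsum_ge (x : ℕ) : ∑' m, μ {m} * ind (x ≤ m) = ENNReal.ofReal (tl μ x) := by
  unfold tl
  rw [ofReal_measureReal, ← Measure.tsum_indicator_apply_singleton μ _ measurableSet_Ici]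
  refine tsum_congr fun m => ?_
  unfold ind
  by_cases h : x ≤ m
  · rw [if_pos h, mul_one, indicator_of_mem (mem_Ici.2 h)]
  · rw [if_neg h, mul_zero, indicator_of_notMem (fun k => h (mem_Ici.1 k))]

omit [IsProbabilityMeasure μ] in
theorem wt_append (u v : List ℕ) : wt μ (u ++ v) = wt μ u * wt μ v := by
  simp only [wt, List.map_append, List.prod_append]

omit [IsProbabilityMeasure μ] in
theorem wt_cons (m : ℕ) (v : List ℕ) : wt μ (m :: v) = μ {m} * wt μ v := by
  simp only [wt, List.map_cons, List.prod_cons]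

omit [IsProbabilityMeasure μ] in
theorem sm_mono {f g : List ℕ → ℝ≥0∞} (h : ∀ w, wt μ w ≠ 0 → f w ≤ g w) : sm μ f ≤ sm μ g := by
  refine ENNReal.tsum_le_tsum fun w => ?_
  by_cases hw : wt μ w = 0
  · rw [hw, zero_mul, zero_mul]
  · exact mul_le_mul' le_rfl (h w hw)

omit [IsProbabilityMeasure μ] in
theorem sm_add (f g : List ℕ → ℝ≥0∞) : sm μ (fun w => f w + g w) = sm μ f + sm μ g := by
  simp only [sm, mul_add, ENNReal.tsum_add]

omit [IsProbabilityMeasure μ] in
theorem sm_mul (a : ℝ≥0∞) (f : List ℕ → ℝ≥0∞) : sm μ (fun w => a * f w) = a * sm μ f := by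
  simp only [sm, ← ENNReal.tsum_mul_left]
  exact tsum_congr fun w => mul_left_comm _ _ _

omit [IsProbabilityMeasure μ] in
/-- Choose a decomposition of every word with `f w ≠ 0`; the choice is injective. -/
theorem sm_split {f : List ℕ → ℝ≥0∞} {g : List ℕ → ℕ → List ℕ → ℝ≥0∞}
    (h : ∀ w, f w ≠ 0 → ∃ u m v, w = u ++ m :: v ∧ f w ≤ g u m v) :
    sm μ f ≤ ∑' m, μ {m} * sm μ fun u => sm μ fun v => g u m v := by
  classical
  set G : ℕ × List ℕ × List ℕ → ℝ≥0∞ := fun t =>
    μ {t.1} * (wt μ t.2.1 * (wt μ t.2.2 * g t.2.1 t.1 t.2.2)) with hG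
  have e : (∑' m, μ {m} * sm μ fun u => sm μ fun v => g u m v) = ∑' t, G t := by
    simp only [hG, sm, ENNReal.tsum_prod', ENNReal.tsum_mul_left]
  rw [e]
  calc sm μ f ≤ ∑' w : List ℕ, ∑' t : ℕ × List ℕ × List ℕ,
        if w = t.2.1 ++ t.1 :: t.2.2 then G t else 0 := by
        refine ENNReal.tsum_le_tsum fun w => ?_
        by_cases hw : f w = 0
        · rw [hw, mul_zero]
          exact zero_le
        · obtain ⟨u, m, v, h1, h2⟩ := h w hw
          refine le_trans ?_ (ENNReal.le_tsum (m, u, v))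
          rw [if_pos h1]
          calc wt μ w * f w ≤ wt μ w * g u m v := mul_le_mul' le_rfl h2
            _ = G (m, u, v) := by
              rw [h1, wt_append, wt_cons]
              simp only [hG]
              ring
    _ = ∑' t, G t := by
        rw [ENNReal.tsum_comm]
        exact tsum_congr fun t => tsum_ite_eq _ _

theorem sm_tsum_lt (x : ℕ) : ∑' m, μ {m} * ind (m < x) ≤ ENNReal.ofReal (1 - tl μ x) := by
  have h : ∑' m, μ {m} * ind (m < x) + ENNReal.ofReal (tl μ x) = ENNReal.ofReal (tl μ 0) := by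
    rw [← tsum_ge μ x, ← tsum_ge μ 0, ← ENNReal.tsum_add]
    refine tsum_congr fun m => ?_
    by_cases hm : m < x
    · simp [ind, hm, not_le.2 hm]
    · simp [ind, hm, not_lt.1 hm]
  rw [ENNReal.ofReal_sub _ (show 0 ≤ tl μ x from measureReal_nonneg), ENNReal.ofReal_one]
  refine ENNReal.le_sub_of_add_le_right ENNReal.ofReal_ne_top ?_
  rw [h]
  exact ENNReal.ofReal_le_one.2 (tl_le_one μ 0)

/-- Induction on `n`. -/
theorem sm_len (x n : ℕ) : sm μ (fun w => ind ((∀ y ∈ w, y < x) ∧ w.length = n)) ≤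
    ENNReal.ofReal ((1 - tl μ x) ^ n) := by
  induction n with
  | zero =>
    unfold sm
    rw [tsum_eq_single []]
    · simp [wt, ind]
    · intro w hw
      have : ¬ w.length = 0 := fun h => hw (List.length_eq_zero_iff.1 h)
      simp [ind, this]
  | succ n ih =>
    have hinj : Function.Injective fun p : ℕ × List ℕ => p.1 :: p.2 := by
      rintro ⟨a, u⟩ ⟨b, v⟩ h
      simpa using h
    have h0 : 0 ≤ 1 - tl μ x := sub_nonneg.2 (tl_le_one μ x)
    unfold sm at ih ⊢
    rw [← hinj.tsum_eq, ENNReal.tsum_prod']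
    · have e : ∀ (m : ℕ) (v : List ℕ),
          wt μ (m :: v) * ind ((∀ y ∈ m :: v, y < x) ∧ (m :: v).length = n + 1) =
            μ {m} * ind (m < x) * (wt μ v * ind ((∀ y ∈ v, y < x) ∧ v.length = n)) := by
        intro m v
        rw [wt_cons]
        by_cases h1 : m < x <;> by_cases h2 : (∀ y ∈ v, y < x) ∧ v.length = n
        · have : (∀ y ∈ m :: v, y < x) ∧ (m :: v).length = n + 1 :=
            ⟨List.forall_mem_cons.2 ⟨h1, h2.1⟩, by simp [h2.2]⟩
          simp only [ind, if_pos this, if_pos h1, if_pos h2, mul_one]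
        · have : ¬ ((∀ y ∈ m :: v, y < x) ∧ (m :: v).length = n + 1) := fun h =>
            h2 ⟨(List.forall_mem_cons.1 h.1).2, by simpa using h.2⟩
          simp only [ind, if_neg this, if_neg h2, mul_zero]
        · have : ¬ ((∀ y ∈ m :: v, y < x) ∧ (m :: v).length = n + 1) := fun h =>
            h1 (List.forall_mem_cons.1 h.1).1
          simp only [ind, if_neg this, if_neg h1, mul_zero, zero_mul]
        · have : ¬ ((∀ y ∈ m :: v, y < x) ∧ (m :: v).length = n + 1) := fun h =>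
            h1 (List.forall_mem_cons.1 h.1).1
          simp only [ind, if_neg this, if_neg h1, mul_zero, zero_mul]
      simp only [e, ENNReal.tsum_mul_left, ENNReal.tsum_mul_right]
      rw [pow_succ', ENNReal.ofReal_mul h0]
      exact mul_le_mul' (sm_tsum_lt μ x) ih
    · intro w hw
      rcases w with _ | ⟨m, v⟩
      · exact absurd (by simp [ind]) hw
      · exact ⟨(m, v), rfl⟩

/-- Sort the words by their length and use `sm_len`. -/
theorem sm_len_sum (x : ℕ) (a : ℕ → ℝ≥0∞) :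
    sm μ (fun w => ind (∀ y ∈ w, y < x) * a w.length) ≤
      ∑' n, a n * ENNReal.ofReal ((1 - tl μ x) ^ n) := by
  have e : ∀ w : List ℕ, wt μ w * (ind (∀ y ∈ w, y < x) * a w.length) =
      ∑' n, a n * (wt μ w * ind ((∀ y ∈ w, y < x) ∧ w.length = n)) := by
    intro w
    rw [tsum_eq_single w.length]
    · simp only [and_true]
      ring
    · intro n hn
      simp [ind, hn.symm]
  unfold sm
  simp only [e]
  rw [ENNReal.tsum_comm]
  refine ENNReal.tsum_le_tsum fun n => ?_
  rw [ENNReal.tsum_mul_left]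
  exact mul_le_mul' le_rfl (sm_len μ x n)

theorem sm_geom {x : ℕ} (hx : 0 < tl μ x) :
    ∑' n : ℕ, ENNReal.ofReal ((1 - tl μ x) ^ n) = ENNReal.ofReal (tl μ x)⁻¹ := by
  have h0 : 0 ≤ 1 - tl μ x := sub_nonneg.2 (tl_le_one μ x)
  have h1 : 1 - tl μ x < 1 := by linarith
  rw [← ENNReal.ofReal_tsum_of_nonneg (fun n => pow_nonneg h0 n)
    (summable_geometric_of_lt_one h0 h1), tsum_geometric_of_lt_one h0 h1, sub_sub_cancel]

theorem sm_shift (K : ℕ) (b : ℕ → ℝ≥0∞) : ∑' n, ind (K ≤ n) * b n = ∑' i, b (K + i) := by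
  rw [← (add_right_injective K).tsum_eq (f := fun n => ind (K ≤ n) * b n)]
  · simp [ind]
  · intro n hn
    by_cases h : K ≤ n
    · exact ⟨n - K, by simp only; omega⟩
    · exact absurd (by simp [ind, h]) hn

theorem sm_lt {x : ℕ} (hx : 0 < tl μ x) :
    sm μ (fun w => ind (∀ y ∈ w, y < x)) ≤ ENNReal.ofReal (tl μ x)⁻¹ := by
  have h := sm_len_sum μ x fun _ => 1
  simp only [mul_one, one_mul] at h
  rwa [sm_geom μ hx] at h

theorem sm_long {x : ℕ} (hx : 0 < tl μ x) (K : ℕ) :
    sm μ (fun w => ind ((∀ y ∈ w, y < x) ∧ K < w.length)) ≤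
      ENNReal.ofReal ((1 - tl μ x) ^ K / tl μ x) := by
  have h0 : 0 ≤ 1 - tl μ x := sub_nonneg.2 (tl_le_one μ x)
  refine le_trans (sm_mono μ fun w _ => ?_) ((sm_len_sum μ x fun n => ind (K ≤ n)).trans_eq ?_)
  · by_cases h : (∀ y ∈ w, y < x) ∧ K < w.length
    · simp only [ind, if_pos h, if_pos h.1, if_pos h.2.le, mul_one, le_refl]
    · simp only [ind, if_neg h, zero_le]
  · rw [sm_shift]
    simp only [pow_add, ENNReal.ofReal_mul (pow_nonneg h0 K)]
    rw [ENNReal.tsum_mul_left, sm_geom μ hx, ← ENNReal.ofReal_mul (pow_nonneg h0 K),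
      div_eq_mul_inv]

/-- With `n = K + i`: `n + 1 ≤ (K + 1) (i + 1)` and the sum of `(i + 1) a ^ i` is `(1 - a)⁻¹ ^ 2`. -/
theorem sm_long' {x : ℕ} (hx : 0 < tl μ x) (K : ℕ) :
    sm μ (fun w => ind ((∀ y ∈ w, y < x) ∧ K ≤ w.length) * (w.length + 1)) ≤
      ENNReal.ofReal ((K + 1) * (1 - tl μ x) ^ K / tl μ x ^ 2) := by
  have h0 : 0 ≤ 1 - tl μ x := sub_nonneg.2 (tl_le_one μ x)
  have h1 : ‖1 - tl μ x‖ < 1 := by
    rw [Real.norm_of_nonneg h0]
    linarith
  have hs := (hasSum_choose_mul_geometric_of_norm_lt_one 1 h1).mul_left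
    (((K : ℝ) + 1) * (1 - tl μ x) ^ K)
  simp only [Nat.choose_one_right, sub_sub_cancel] at hs
  refine le_trans (sm_mono μ fun w _ => ?_)
    ((sm_len_sum μ x fun n => ind (K ≤ n) * ((n : ℝ≥0∞) + 1)).trans ?_)
  · by_cases h : (∀ y ∈ w, y < x) ∧ K ≤ w.length
    · simp only [ind, if_pos h, if_pos h.1, if_pos h.2, one_mul, le_refl]
    · simp only [ind, if_neg h, zero_mul, zero_le]
  · simp only [mul_assoc]
    rw [sm_shift K fun n => ((n : ℝ≥0∞) + 1) * ENNReal.ofReal ((1 - tl μ x) ^ n)]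
    have e : ((K : ℝ) + 1) * (1 - tl μ x) ^ K / tl μ x ^ 2 =
        ((K : ℝ) + 1) * (1 - tl μ x) ^ K * (1 / tl μ x ^ (1 + 1)) := by ring
    rw [e, ← hs.tsum_eq, ENNReal.ofReal_tsum_of_nonneg (fun i => by positivity) hs.summable]
    refine ENNReal.tsum_le_tsum fun i => ?_
    have e2 : (((K + i : ℕ) : ℝ≥0∞) + 1) = ENNReal.ofReal (((K + i : ℕ) : ℝ) + 1) := by
      rw [ENNReal.ofReal_add (by positivity) zero_le_one, ENNReal.ofReal_natCast,
        ENNReal.ofReal_one]
    rw [e2, ← ENNReal.ofReal_mul (by positivity)]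
    refine ENNReal.ofReal_le_ofReal ?_
    have h2 : ((K + i : ℕ) : ℝ) + 1 ≤ ((K : ℝ) + 1) * ((i + 1 : ℕ) : ℝ) := by
      push_cast
      nlinarith [mul_nonneg (Nat.cast_nonneg (α := ℝ) K) (Nat.cast_nonneg (α := ℝ) i)]
    calc (((K + i : ℕ) : ℝ) + 1) * (1 - tl μ x) ^ (K + i)
        ≤ ((K : ℝ) + 1) * ((i + 1 : ℕ) : ℝ) * (1 - tl μ x) ^ (K + i) :=
          mul_le_mul_of_nonneg_right h2 (pow_nonneg h0 _)
      _ = _ := by rw [pow_add]; ring

theorem exists_first_max {w : List ℕ} (hw : w ≠ []) :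
    ∃ u m v, w = u ++ m :: v ∧ (∀ y ∈ u, y < m) ∧ ∀ y ∈ v, y ≤ m := by
  induction w with
  | nil => exact absurd rfl hw
  | cons a w ih =>
    by_cases h : ∀ y ∈ w, y ≤ a
    · exact ⟨[], a, w, rfl, by simp, h⟩
    · have hne : w ≠ [] := by
        rintro rfl
        exact h (by simp)
      obtain ⟨u, m, v, e, h1, h2⟩ := ih hne
      refine ⟨a :: u, m, v, by rw [e, List.cons_append], fun y hy => ?_, h2⟩
      rcases List.mem_cons.1 hy with rfl | hy
      · by_contra hc
        refine h fun z hz => ?_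
        rw [e] at hz
        rcases List.mem_append.1 hz with hz | hz
        · have := h1 z hz
          omega
        · rcases List.mem_cons.1 hz with rfl | hz
          · omega
          · have := h2 z hz
            omega
      · exact h1 y hy

theorem exists_last {v : List ℕ} {m : ℕ} (hv : ∀ y ∈ v, y ≤ m) : (∀ y ∈ v, y < m) ∨
    ∃ v₁ v₂, v = v₁ ++ m :: v₂ ∧ (∀ y ∈ v₁, y ≤ m) ∧ ∀ y ∈ v₂, y < m := by
  induction v with
  | nil => exact Or.inl (by simp)
  | cons a w ih =>
    have ha : a ≤ m := hv a List.mem_cons_self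
    rcases ih (fun y hy => hv y (List.mem_cons_of_mem _ hy)) with h | ⟨v₁, v₂, e, h1, h2⟩
    · rcases ha.lt_or_eq with h3 | rfl
      · refine Or.inl fun y hy => ?_
        rcases List.mem_cons.1 hy with rfl | hy
        · exact h3
        · exact h y hy
      · exact Or.inr ⟨[], w, rfl, by simp, h⟩
    · refine Or.inr ⟨a :: v₁, v₂, by rw [e, List.cons_append], fun y hy => ?_, h2⟩
      rcases List.mem_cons.1 hy with rfl | hy
      · exact ha
      · exact h1 y hy

end Pool.Agent.Lib.MP_c59c01_pr.TH
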