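import Pool.Agent.Lib.MP_c59c01_pr.TH.QA

set_option autoImplicit false

open MeasureTheory ProbabilityTheory Set Filter Topology
open scoped ENNReal

namespace Pool.Agent.Lib.MP_c59c01_pr.TH

theorem disjoint_cutE_qa {m : ℕ} {X : ℤ → ℕ} (hX : ∀ i, 1 ≤ X i) {n n' : ℤ} {k k' : ℕ}
    (h : n + k + 1 ≤ n') : Disjoint (cutE m X n k) (cutE m X n' k') := by
  rw [Finset.disjoint_left]
  intro e he he'
  obtain ⟨x, hx, hx'⟩ := (height_of_mem_cutE hX he').1
  have a1 := (height_of_mem_cutE hX he).2 x hx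
  have a2 := bot_le_bot hX (show n + k ≤ n' by omega)
  omega

theorem separated_qa {X : ℤ → ℕ} {J K : ℕ} (h : ∀ N : ℕ, ∃ (n' : ℤ) (k' : ℕ) (n : ℤ) (k : ℕ),
      CCut X J K n' k' n k ∧ (N : ℤ) ≤ n ∧ n' + k' ≤ -N) :
    ∃ (n' : ℕ → ℤ) (k' : ℕ → ℕ) (n : ℕ → ℤ) (k : ℕ → ℕ),
      (∀ j, CCut X J K (n' j) (k' j) (n j) (k j)) ∧
      ∀ i j, i < j → n i + k i + 1 ≤ n j ∧ n' j + k' j + 1 ≤ n' i := by
  choose a a' b b' hc h1 h2 using h
  let φ : ℕ → ℕ := fun j => Nat.rec 0 (fun _ t => t + (b t + b' t + 1).toNat + (1 - a t).toNat) j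
  have hs : ∀ j, φ (j + 1) = φ j + (b (φ j) + b' (φ j) + 1).toNat + (1 - a (φ j)).toNat :=
    fun _ => rfl
  have hm : Monotone φ := monotone_nat_of_le_succ fun j => by rw [hs]; omega
  refine ⟨fun j => a (φ j), fun j => a' (φ j), fun j => b (φ j), fun j => b' (φ j),
    fun j => hc _, fun i j hij => ?_⟩
  have e1 := hm (show i + 1 ≤ j from hij)
  have e2 := hs i
  have e3 := h1 (φ j)
  have e4 := h2 (φ j)
  beta_reduce
  constructor <;> omega

theorem no_ccut_le_qa {m : ℕ} {X : ℤ → ℕ} (hX : ∀ i, 1 ≤ X i) (p q : unitInterval)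
    (hp : (2 : ℝ≥0∞) ^ (m + 1) * ((3 ^ (m + 1) : ℕ) * (unitInterval.toNNReal p : ℝ≥0∞)) ≤ 2⁻¹)
    (hq : q < 1) {J K : ℕ} {n' n : ℕ → ℤ} {k' k : ℕ → ℕ}
    (hc : ∀ j, CCut X J K (n' j) (k' j) (n j) (k j))
    (hsep : ∀ i j, i < j → n i + k i + 1 ≤ n j ∧ n' j + k' j + 1 ≤ n' i) :
    PB (edgeProb m X p q) {ω | ∀ j, ω ∈ allEq (cutE m X (n j) (k j)) false →
      ω ∈ allEq (cutE m X (n' j) (k' j)) false → ω ∈ leak m X (n' j) (k' j) (n j) (k j)} ≤
      4 ^ (m + 1) * 8 * 2⁻¹ ^ J := by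
  classical
  set P := PB (edgeProb m X p q)
  set F : ℕ → Finset (Sym2 (Vtx m)) := fun j => cutE m X (n j) (k j) ∪ cutE m X (n' j) (k' j)
    with hF
  set Q : ℕ → Set (Sym2 (Vtx m) → Bool) := fun j => allEq (F j) false with hQ
  have hq0 : (unitInterval.toNNReal (unitInterval.symm q) : ℝ≥0∞) ≠ 0 := by
    have h1 : (0 : ℝ) < 1 - (q : ℝ) := by
      have : (q : ℝ) < 1 := by exact_mod_cast hq
      linarith
    intro h
    have h2 : unitInterval.toNNReal (unitInterval.symm q) = 0 := by exact_mod_cast h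
    have h3 : ((unitInterval.toNNReal (unitInterval.symm q) : NNReal) : ℝ) = 1 - (q : ℝ) := rfl
    rw [h2] at h3
    simp at h3
    linarith
  have hq1 : (unitInterval.toNNReal (unitInterval.symm q) : ℝ≥0∞) ≤ 1 := by
    have : unitInterval.toNNReal (unitInterval.symm q) ≤ 1 := (unitInterval.symm q).2.2
    exact_mod_cast this
  have hdis : ∀ i j, i < j → Disjoint (F i) (F j) := by
    intro i j hij
    obtain ⟨s1, s2⟩ := hsep i j hij
    have l1 := (hc i).lo
    have l2 := (hc j).lo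
    have u1 := (hc i).hi
    have u2 := (hc j).hi
    simp only [hF, Finset.disjoint_union_left, Finset.disjoint_union_right]
    exact ⟨⟨disjoint_cutE_qa hX s1, disjoint_cutE_qa hX (by omega)⟩,
      ⟨(disjoint_cutE_qa hX (by omega)).symm, (disjoint_cutE_qa hX s2).symm⟩⟩
  have hout : ∀ j, ∀ e ∈ F j, e ∉ outE m X := by
    intro j e he
    rcases Finset.mem_union.1 he with h | h <;> exact not_mem_outE_of_mem_cutE h
  have h0 : P (⋂ j, (Q j)ᶜ) = 0 := by
    refine PB_iInter_compl_allEq_false _ F ?_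
      (δ := (unitInterval.toNNReal (unitInterval.symm q) : ℝ≥0∞) ^
        (K * (2 * K + 1) ^ (m + 1) * 3 ^ (m + 1) + K * (2 * K + 1) ^ (m + 1) * 3 ^ (m + 1)))
      (pow_ne_zero _ hq0) fun j => ?_
    · intro i j hij
      rcases lt_or_gt_of_ne hij with h | h
      · exact hdis i j h
      · exact (hdis j i h).symm
    · rw [PB_allEq_false, Finset.prod_congr rfl
        (g := fun _ => (unitInterval.toNNReal (unitInterval.symm q) : ℝ≥0∞))
        (fun e he => by
          rcases Finset.mem_union.1 he with h | h <;> rw [edgeProb_cut p q e h]),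
        Finset.prod_const]
      refine pow_le_pow_right_of_le_one' hq1 ((Finset.card_union_le _ _).trans (add_le_add ?_ ?_))
      · refine (card_cutE_le (hc j).s1).trans ?_
        have := (hc j).k1.2
        gcongr
      · refine (card_cutE_le (hc j).s2).trans ?_
        have := (hc j).k2.2
        gcongr
  have hQm : ∀ j, MeasurableSet[coordAlg (outE m X)ᶜ] (Q j) := fun j =>
    measurableSet_allEq_coordAlg (fun e he => hout j e he) false
  have hDm : ∀ j, MeasurableSet[coordAlg (outE m X)ᶜ] (disjointed Q j) := fun j =>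
    @MeasurableSet.disjointed _ (coordAlg (outE m X)ᶜ) _ hQm j
  have hDm' : ∀ j, MeasurableSet (disjointed Q j) := fun j =>
    MeasurableSet.disjointed (fun j => measurableSet_allEq _ _) j
  have hsub : {ω | ∀ j, ω ∈ allEq (cutE m X (n j) (k j)) false →
      ω ∈ allEq (cutE m X (n' j) (k' j)) false → ω ∈ leak m X (n' j) (k' j) (n j) (k j)} ⊆
      (⋂ j, (Q j)ᶜ) ∪ ⋃ j, disjointed Q j ∩ leak m X (n' j) (k' j) (n j) (k j) := by
    intro ω hω
    by_cases h : ω ∈ ⋃ j, Q j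
    · right
      rw [← iUnion_disjointed] at h
      obtain ⟨j, hj⟩ := mem_iUnion.1 h
      have h1 : ω ∈ Q j := disjointed_subset Q j hj
      exact mem_iUnion.2 ⟨j, hj, hω j (fun e he => h1 e (Finset.mem_union_left _ he))
        (fun e he => h1 e (Finset.mem_union_right _ he))⟩
    · left
      rwa [← compl_iUnion]
  refine (measure_mono hsub).trans ((measure_union_le _ _).trans ?_)
  rw [h0, zero_add]
  refine (measure_iUnion_le _).trans ?_
  refine (ENNReal.tsum_le_tsum fun j => measure_leak_le hX p q hp (hDm j) (hc j)).trans ?_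
  rw [ENNReal.tsum_mul_right, ← measure_iUnion (disjoint_disjointed Q) hDm']
  exact mul_le_of_le_one_left' prob_le_one

/-- For each `J` pick closed cuts whose blocks are pairwise separated (recursion on `N`); the
finite sets `cutE n k ∪ cutE n' k'` are disjoint (`height_of_mem_cutE`, `bot_le_bot`) and have at
most `2 K (2 K + 1) ^ (m + 1) 3 ^ (m + 1)` edges; `PB_iInter_compl_allEq_false`, `disjointed`,
`measure_leak_le`, `finite_of_ccut`, `measure_infinite_subOpen`. -/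
theorem theta_zero {m : ℕ} {X : ℤ → ℕ} (hX : ∀ i, 1 ≤ X i) (p q : unitInterval)
    (hp : (2 : ℝ≥0∞) ^ (m + 1) * ((3 ^ (m + 1) : ℕ) * (unitInterval.toNNReal p : ℝ≥0∞)) ≤ 2⁻¹)
    (hq : q < 1) (h : ∀ J, ∃ K, ∀ N : ℕ, ∃ (n' : ℤ) (k' : ℕ) (n : ℤ) (k : ℕ),
      CCut X J K n' k' n k ∧ (N : ℤ) ≤ n ∧ n' + k' ≤ -N) : theta m X p q = 0 := by
  set P := PB (edgeProb m X p q)
  have hU : P {ω | ¬ ∃ (J K : ℕ) (n' : ℤ) (k' : ℕ) (n : ℤ) (k : ℕ), CCut X J K n' k' n k ∧
      ω ∈ allEq (cutE m X n k) false ∧ ω ∈ allEq (cutE m X n' k') false ∧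
      ω ∉ leak m X n' k' n k} = 0 := by
    have ht : Tendsto (fun k : ℕ => (4 : ℝ≥0∞) ^ (m + 1) * 8 * 2⁻¹ ^ k) atTop (𝓝 0) := by
      have := ENNReal.Tendsto.const_mul (a := (4 : ℝ≥0∞) ^ (m + 1) * 8)
        (ENNReal.tendsto_pow_atTop_nhds_zero_of_lt_one (r := 2⁻¹) (by simp))
        (Or.inr (by finiteness))
      simpa using this
    refine le_antisymm (ge_of_tendsto' ht fun J => ?_) zero_le
    obtain ⟨K, hK⟩ := h J
    obtain ⟨n', k', n, k, hc, hsep⟩ := separated_qa hK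
    refine le_trans (measure_mono ?_) (no_ccut_le_qa hX p q hp hq hc hsep)
    intro ω hω j h1 h2
    by_contra h3
    exact hω ⟨J, K, _, _, _, _, hc j, h1, h2, h3⟩
  have hp1 : ((3 ^ (m + 1) : ℕ) : ℝ≥0∞) * (unitInterval.toNNReal p : ℝ≥0∞) < 1 := by
    have h1 : (1 : ℝ≥0∞) ≤ 2 ^ (m + 1) := one_le_pow₀ (by norm_num)
    calc ((3 ^ (m + 1) : ℕ) : ℝ≥0∞) * (unitInterval.toNNReal p : ℝ≥0∞)
        ≤ 2 ^ (m + 1) * (((3 ^ (m + 1) : ℕ) : ℝ≥0∞) * (unitInterval.toNNReal p : ℝ≥0∞)) :=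
          le_mul_of_one_le_left' h1
      _ ≤ 2⁻¹ := hp
      _ < 1 := by simp
  have hI : P (⋃ x, {ω | Set.Infinite {y | (subOpen (lattice m) (outE m X) ω).Reachable x y}})
      = 0 :=
    measure_iUnion_null fun x => measure_infinite_subOpen (lattice m) _ nbr (3 ^ (m + 1))
      mem_nbr card_nbr (outE m X) (edgeProb_out p q) hp1 x
  have hfin := measure_union_null hU hI
  refine measure_mono_null ?_ hfin
  intro ω hω
  by_contra hc
  simp only [mem_union, mem_ofPred_eq, mem_iUnion, not_or, not_not] at hc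
  obtain ⟨⟨J, K, n', k', n, k, hc, h1, h2, h3⟩, h4⟩ := hc
  refine hω (finite_of_ccut hX hc h1 h2 h3 fun x => ?_)
  by_contra h5
  exact h4 ⟨x, h5⟩

end Pool.Agent.Lib.MP_c59c01_pr.TH
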