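import Pool.Agent.Lib.MP_c59c01_pr.TH.Lists

set_option autoImplicit false

open MeasureTheory ProbabilityTheory Set Filter Topology
open scoped ENNReal

namespace Pool.Agent.Lib.MP_c59c01_pr.TH

/-! Words in the environment; product measures. -/

theorem occ_cons' {Y : ℕ → ℕ} {s m : ℕ} {v : List ℕ} :
    Occ Y s (m :: v) ↔ Y s = m ∧ Occ Y (s + 1) v := by
  constructor
  · intro h
    refine ⟨h 0 (by simp), fun i hi => ?_⟩
    have := h (i + 1) (by simpa using hi)
    rwa [show s + (i + 1) = s + 1 + i by omega, List.getElem_cons_succ] at this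
  · rintro ⟨h1, h2⟩ i hi
    cases i with
    | zero => exact h1
    | succ i =>
      rw [show s + (i + 1) = s + 1 + i by omega, List.getElem_cons_succ]
      exact h2 i _

theorem occ_append {Y : ℕ → ℕ} {s : ℕ} {u v : List ℕ} :
    Occ Y s (u ++ v) ↔ Occ Y s u ∧ Occ Y (s + u.length) v := by
  induction u generalizing s with
  | nil => simp [Occ]
  | cons m u ih =>
    rw [List.cons_append, occ_cons', occ_cons', ih, List.length_cons, and_assoc,
      show s + 1 + u.length = s + (u.length + 1) by omega]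

theorem occ_cons {Y : ℕ → ℕ} {s m : ℕ} {v : List ℕ} :
    Occ Y s (m :: v) ↔ Y s = m ∧ Occ Y (s + 1) v := by
  exact occ_cons'

theorem Occ.mem {Y : ℕ → ℕ} {s : ℕ} {w : List ℕ} (h : Occ Y s w) {i : ℕ} (h1 : s ≤ i)
    (h2 : i < s + w.length) : Y i ∈ w := by
  have h3 : i - s < w.length := by omega
  have h4 := h (i - s) h3
  rw [show s + (i - s) = i by omega] at h4
  rw [h4]
  exact List.getElem_mem h3

theorem Occ.gap {Y : ℕ → ℕ} {s : ℕ} {w : List ℕ} (h : Occ Y (s + 1) w) :
    gap Y s (s + 1 + w.length) = w.sum := by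
  induction w using List.reverseRecOn with
  | nil =>
    have : Finset.Ioo s (s + 1) = ∅ := by
      ext i
      simp only [Finset.mem_Ioo, Finset.notMem_empty, iff_false]
      omega
    simp [TH.gap, this]
  | append_singleton u m ih =>
    obtain ⟨h1, h2⟩ := occ_append.1 h
    have h3 := (occ_cons.1 h2).1
    have h4 : Finset.Ioo s (s + 1 + (u ++ [m]).length) =
        insert (s + 1 + u.length) (Finset.Ioo s (s + 1 + u.length)) := by
      ext i
      simp only [Finset.mem_Ioo, Finset.mem_insert, List.length_append, List.length_singleton]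
      omega
    have h5 := ih h1
    unfold TH.gap at h5 ⊢
    rw [h4, Finset.sum_insert (by simp), h5, h3, List.sum_append, List.sum_singleton, add_comm]

theorem exists_occ (Y : ℕ → ℕ) (s n : ℕ) : ∃ w : List ℕ, w.length = n ∧ Occ Y s w := by
  refine ⟨(List.range n).map fun i => Y (s + i), by simp, fun i h => ?_⟩
  simp

theorem exists_run {Y : ℕ → ℕ} {s x : ℕ} (h : ∃ i, s ≤ i ∧ x ≤ Y i) :
    ∃ w : List ℕ, Occ Y s w ∧ (∀ y ∈ w, y < x) ∧ x ≤ Y (s + w.length) := by
  classical
  have h' : ∃ n, x ≤ Y (s + n) := by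
    obtain ⟨i, h1, h2⟩ := h
    exact ⟨i - s, by rwa [show s + (i - s) = i by omega]⟩
  obtain ⟨w, h1, h2⟩ := exists_occ Y s (Nat.find h')
  refine ⟨w, h2, fun y hy => ?_, by rw [h1]; exact Nat.find_spec h'⟩
  obtain ⟨i, hi, rfl⟩ := List.getElem_of_mem hy
  rw [← h2 i hi]
  exact not_le.1 (Nat.find_min h' (h1 ▸ hi))

theorem le_gap {Y : ℕ → ℕ} {a b i : ℕ} (h1 : a < i) (h2 : i < b) : Y i ≤ gap Y a b := by
  exact Finset.single_le_sum (f := Y) (fun _ _ => Nat.zero_le _) (Finset.mem_Ioo.2 ⟨h1, h2⟩)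

theorem measurableSet_occ (s : ℕ) (w : List ℕ) : MeasurableSet {Y : ℕ → ℕ | Occ Y s w} := by
  have : {Y : ℕ → ℕ | Occ Y s w} =
      ⋂ i : Fin w.length, (fun Y : ℕ → ℕ => Y (s + i)) ⁻¹' {w[(i : ℕ)]} := by
    ext Y
    simp only [Occ, mem_ofPred_eq, mem_iInter, mem_preimage, mem_singleton_iff]
    exact ⟨fun h i => h i i.2, fun h i hi => h ⟨i, hi⟩⟩
  rw [this]
  exact MeasurableSet.iInter fun i => measurable_pi_apply _ (measurableSet_singleton _)

/-- `Measure.eq_infinitePi`; the preimage of a box is a box. -/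
theorem pres_comp {ι κ α : Type} [MeasurableSpace α] (P : κ → Measure α)
    [∀ k, IsProbabilityMeasure (P k)] {f : ι → κ} (hf : Function.Injective f) :
    MeasurePreserving (fun (ω : κ → α) (i : ι) => ω (f i)) (Measure.infinitePi P)
      (Measure.infinitePi fun i => P (f i)) := by
  exact ⟨by fun_prop, Measure.map_infinitePi_infinitePi_of_inj hf⟩

variable (μ : Measure ℕ) [IsProbabilityMeasure μ]

instance : IsProbabilityMeasure (nu μ) := by
  unfold nu
  infer_instance

theorem nu_occ (w : List ℕ) : nu μ {Y | Occ Y 0 w} = wt μ w := by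
  have h1 : {Y : ℕ → ℕ | Occ Y 0 w} =
      Set.pi (Finset.range w.length : Finset ℕ) fun i => {w.getD i 0} := by
    ext Y
    simp only [Occ, mem_ofPred_eq, Set.mem_pi, Finset.coe_range, mem_Iio, mem_singleton_iff,
      zero_add]
    refine forall_congr' fun i => forall_congr' fun hi => ?_
    rw [List.getD_eq_getElem _ _ hi]
  rw [h1, nu, Measure.infinitePi_pi _ fun _ _ => measurableSet_singleton _]
  clear h1
  induction w with
  | nil => simp [wt]
  | cons m w ih =>
    rw [List.length_cons, Finset.prod_range_succ']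
    simp only [List.getD_cons_succ, List.getD_cons_zero]
    rw [ih, mul_comm]
    simp [wt]

theorem ae_unbounded (h : ∀ n, 0 < tl μ n) : ∀ᵐ Y ∂(nu μ), ∀ s x, ∃ i, s ≤ i ∧ x ≤ Y i := by
  rw [ae_all_iff]
  intro s
  rw [ae_all_iff]
  intro x
  have hlt : μ (Iio x) < 1 := by
    have h1 : μ (Ici x) ≠ 0 := by
      intro h0
      have := h x
      simp [tl, Measure.real, h0] at this
    rw [← compl_Ici, prob_compl_eq_one_sub measurableSet_Ici]
    exact ENNReal.sub_lt_self ENNReal.one_ne_top one_ne_zero h1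
  rw [ae_iff]
  refine le_antisymm (ge_of_tendsto' (ENNReal.tendsto_pow_atTop_nhds_zero_of_lt_one hlt)
    fun n => ?_) bot_le
  have h2 : {Y : ℕ → ℕ | ¬ ∃ i, s ≤ i ∧ x ≤ Y i} ⊆
      Set.pi (Finset.Ico s (s + n) : Finset ℕ) fun _ => Iio x := by
    intro Y hY i hi
    simp only [Finset.coe_Ico, mem_Ico] at hi
    exact not_le.1 fun hx => hY ⟨i, hi.1, hx⟩
  refine (measure_mono h2).trans ?_
  rw [nu, Measure.infinitePi_pi _ fun _ _ => measurableSet_Iio]
  simp

theorem ae_pos (h : μ {0} = 0) : ∀ᵐ Y ∂(nu μ), ∀ i, 1 ≤ Y i := by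
  rw [ae_all_iff]
  intro i
  rw [ae_iff]
  have h1 : {Y : ℕ → ℕ | ¬ 1 ≤ Y i} = Set.pi ({i} : Finset ℕ) fun _ => {0} := by
    ext Y
    simp
  rw [h1, nu, Measure.infinitePi_pi _ fun _ _ => measurableSet_singleton _]
  simp [h]

end Pool.Agent.Lib.MP_c59c01_pr.TH
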