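import Pool.Agent.Lib.MP_c59c01_pr.TH.Conn
import Pool.Agent.Lib.MP_c59c01_pr.TH.ArcP
import Pool.Agent.Lib.MP_c59c01_pr.TH.Occ

set_option autoImplicit false

open MeasureTheory ProbabilityTheory Set Filter Topology
open scoped ENNReal

namespace Pool.Agent.Lib.MP_c59c01_pr.TH

/-! Percolation along a cheap family of jumps. -/

theorem reach_column {c : E2 → Bool} {x s : ℤ} (n : ℕ)
    (h : ∀ t : ℤ, s ≤ t → t < s + n → c (x, t, false) = true) : Reach c (x, s) (x, s + n) := by
  induction n with
  | zero => rw [Nat.cast_zero, add_zero]; exact Relation.ReflTransGen.refl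
  | succ n ih =>
    refine Relation.ReflTransGen.tail (ih fun t h1 h2 => h t h1 (by omega))
      ⟨(x, s + n, false), h _ (by omega) (by omega), Or.inl ⟨rfl, ?_⟩⟩
    simp only [tgt, Bool.false_eq_true, if_false, Prod.mk.injEq, true_and]
    push_cast
    ring

/-- Keep a good entry point at the bottom of the upper rectangle of a jump; `conn` and the open
column lead to the entry point of the next jump, whose height is larger. -/
theorem infinite_of_arcs {c : E2 → Bool} {Y : ℕ → ℕ} {z : ℕ → ℤ} {A : Set (ℕ × ℕ)}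
    (hA : A.Nonempty) (hz : ∀ a ∈ A, z a.1 + 2 * Y a.1 ≤ z a.2 ∧ z a.1 < z a.2)
    (hn : ∀ a ∈ A, ∃ b, (a.2, b) ∈ A)
    (h : ∀ a ∈ A, ArcOK c (z a.1) (Y a.1) (z a.2) (Y a.2)) :
    ∃ a, {b | Reach c a b}.Infinite := by
  have hx := fun a ha => (h a ha).2.2
  choose! x x1 x2 x3 x4 x5 using hx
  have step : ∀ a ∈ A, ∃ a' ∈ A, Reach c (x a, z a.2) (x a', z a'.2) ∧ z a.2 < z a'.2 := by
    intro a ha
    obtain ⟨b, hb⟩ := hn a ha
    refine ⟨(a.2, b), hb, ?_, (hz _ hb).2⟩
    refine (conn (x2 a ha) (x1 _ hb) (x4 a ha) (x3 _ hb) (h a ha).2.1).trans ?_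
    obtain ⟨n, hn'⟩ := Int.eq_ofNat_of_zero_le (sub_nonneg.2 (hz _ hb).1)
    have e : z b = z a.2 + 2 * Y a.2 + n := by simp only at hn'; omega
    have := reach_column (c := c) (x := x (a.2, b)) (s := z a.2 + 2 * Y a.2) n
      fun t h1 h2 => x5 _ hb t h1 (by simp only; omega)
    rw [← e] at this
    exact this
  obtain ⟨a0, ha0⟩ := hA
  have iter : ∀ n : ℕ, ∃ a ∈ A, Reach c (x a0, z a0.2) (x a, z a.2) ∧ z a0.2 + n ≤ z a.2 := by
    intro n
    induction n with
    | zero => exact ⟨a0, ha0, Relation.ReflTransGen.refl, by simp⟩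
    | succ n ih =>
      obtain ⟨a, ha, k1, k2⟩ := ih
      obtain ⟨a', ha', k3, k4⟩ := step a ha
      exact ⟨a', ha', k1.trans k3, by omega⟩
  refine ⟨(x a0, z a0.2), Set.Infinite.of_image Prod.snd
    (Set.infinite_of_forall_exists_gt fun t => ?_)⟩
  obtain ⟨a, -, k1, k2⟩ := iter ((t - z a0.2).toNat + 1)
  exact ⟨z a.2, ⟨_, k1, rfl⟩, by omega⟩

lemma finite_energy_op {E : Type} [DecidableEq E] (e : E) :
    @Measurable (E → Bool) (E → Bool) (coordAlg ({e} : Set E)ᶜ) _
      (fun ω => Function.update ω e true) := by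
  refine @measurable_pi_lambda _ _ _ (coordAlg ({e} : Set E)ᶜ) _ _ fun f => ?_
  by_cases hf : f = e
  · subst hf
    simp only [Function.update_self]
    exact measurable_const
  · simp only [Function.update_of_ne hf]
    refine Measurable.of_comap_le ?_
    exact le_iSup₂ (f := fun e' (_ : e' ∈ ({e} : Set E)ᶜ) =>
      MeasurableSpace.comap (fun ω : E → Bool => ω e') inferInstance) f hf

lemma finite_energy_null {E : Type} [DecidableEq E] {prob : E → unitInterval} (e : E)
    (h0 : 0 < prob e) {A B : Set (E → Bool)} (hA : PB prob A = 0)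
    (hB : ∀ ω ∈ B, Function.update ω e true ∈ A) : PB prob B = 0 := by
  obtain ⟨N, hAN, hN, hN0⟩ := exists_measurable_superset_of_null hA
  have h1 : MeasurableSet[coordAlg ({e} : Set E)ᶜ] ((fun ω => Function.update ω e true) ⁻¹' N) :=
    finite_energy_op e hN
  have h2 := PB_inter_allEq_true prob (S := {e}) (p := prob e) (by rintro _ rfl; rfl) h1 {e}
    (by simp)
  have h3 : PB prob ((fun ω => Function.update ω e true) ⁻¹' N ∩ allEq {e} true) = 0 := by
    refine measure_mono_null ?_ hN0
    rintro ω ⟨h4, h5⟩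
    have h6 : Function.update ω e true = ω := by
      rw [← h5 e (Finset.mem_singleton_self e), Function.update_eq_self]
    have h7 : Function.update ω e true ∈ N := h4
    rwa [h6] at h7
  rw [h3, Finset.card_singleton, pow_one] at h2
  have h4 : (unitInterval.toNNReal (prob e) : ℝ≥0∞) ≠ 0 := by
    intro h5
    have h6 : unitInterval.toNNReal (prob e) = 0 := by exact_mod_cast h5
    have h7 : ((prob e : unitInterval) : ℝ) = 0 := congrArg (fun x : NNReal => (x : ℝ)) h6
    exact h0.ne' (Subtype.ext h7)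
  exact measure_mono_null (t := (fun ω => Function.update ω e true) ⁻¹' N)
    (fun ω hω => hAN (hB ω hω)) ((mul_eq_zero.mp h2.symm).resolve_right h4)

lemma finite_energy_step {m : ℕ} {prob : Sym2 (Vtx m) → unitInterval} (h0 : ∀ e, 0 < prob e)
    {x y : Vtx m} (hxy : (lattice m).Adj x y)
    (h : PB prob {ω | {z | (openGraph ω).Reachable x z}.Infinite} = 0) :
    PB prob {ω | {z | (openGraph ω).Reachable y z}.Infinite} = 0 := by
  classical
  refine finite_energy_null s(x, y) (h0 _) h fun ω hω => ?_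
  have hle : openGraph ω ≤ openGraph (Function.update ω s(x, y) true) := by
    intro a b hab
    rw [openGraph_adj] at hab ⊢
    refine ⟨hab.1, ?_⟩
    by_cases h1 : s(a, b) = s(x, y)
    · rw [h1, Function.update_self]
    · rw [Function.update_of_ne h1]
      exact hab.2
  have hadj : (openGraph (Function.update ω s(x, y) true)).Adj x y := by
    rw [openGraph_adj]
    exact ⟨hxy, Function.update_self ..⟩
  exact Set.Infinite.mono (fun z hz => hadj.reachable.trans (SimpleGraph.Reachable.mono hle hz)) hω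

lemma finite_energy_all {m : ℕ} {S : Vtx m → Prop} (h0 : S 0)
    (hS : ∀ x y, (lattice m).Adj x y → S x → S y) (w : Vtx m) : S w := by
  have hl0 : l1 (0 : Fin m → ℤ) = 0 := by simp [l1]
  have hl1 : ∀ (i : Fin m) (k : ℤ), l1 (Pi.single i k : Fin m → ℤ) = k.natAbs := by
    intro i k
    unfold l1
    rw [Finset.sum_eq_single i]
    · rw [Pi.single_eq_same]
    · intro j _ hj
      rw [Pi.single_eq_of_ne hj]
      rfl
    · intro hi
      exact absurd (Finset.mem_univ i) hi
  have h1 : ∀ t : ℤ, S (0, t) := by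
    intro t
    induction t using Int.induction_on with
    | zero => exact h0
    | succ k ih =>
      refine hS _ _ ?_ ih
      rw [lattice_adj, sub_self, hl0]
      show 0 + ((k : ℤ) - (k + 1)).natAbs = 1
      omega
    | pred k ih =>
      refine hS _ _ ?_ ih
      rw [lattice_adj, sub_self, hl0]
      show 0 + (-(k : ℤ) - (-k - 1)).natAbs = 1
      omega
  have h2 : ∀ (i : Fin m) (x : Fin m → ℤ) (t a b : ℤ), (a - b).natAbs = 1 →
      S (x + Pi.single i a, t) → S (x + Pi.single i b, t) := by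
    intro i x t a b hab
    refine hS _ _ ?_
    rw [lattice_adj, add_sub_add_left_eq_sub, ← Pi.single_sub, hl1, sub_self, hab]
    rfl
  have h3 : ∀ (i : Fin m) (x : Fin m → ℤ) (t k : ℤ), S (x, t) → S (x + Pi.single i k, t) := by
    intro i x t k hx
    induction k using Int.induction_on with
    | zero => simpa using hx
    | succ k ih => exact h2 i x t _ _ (by omega) ih
    | pred k ih => exact h2 i x t _ _ (by omega) ih
  have h4 : ∀ s : Finset (Fin m), S (∑ i ∈ s, Pi.single i (w.1 i), w.2) := by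
    intro s
    induction s using Finset.induction_on with
    | empty => simpa using h1 w.2
    | insert i s hi ih =>
      rw [Finset.sum_insert hi, add_comm]
      exact h3 i _ _ _ ih
  have h5 := h4 Finset.univ
  rwa [Finset.univ_sum_single] at h5

/-- Open a finite path `F` from the origin to a vertex `w` whose cluster is infinite with positive
probability: the event that the configuration with `F` opened has an infinite cluster at `w` is
measurable for `coordAlg Fᶜ` (`indep_coordAlg`, `PB_allEq_true`). -/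
theorem finite_energy {m : ℕ} {prob : Sym2 (Vtx m) → unitInterval} (h0 : ∀ e, 0 < prob e)
    (h : PB prob {ω | ∀ w, {y | (openGraph ω).Reachable w y}.Finite} < 1) :
    0 < percProb prob := by
  rw [pos_iff_ne_zero]
  intro hz
  have h1 : ∀ w, PB prob {ω | {z | (openGraph ω).Reachable w z}.Infinite} = 0 :=
    finite_energy_all (S := fun w => PB prob {ω | {z | (openGraph ω).Reachable w z}.Infinite} = 0)
      hz fun x y hxy hx => finite_energy_step h0 hxy hx
  have h2 : PB prob {ω | ∀ w, {y | (openGraph ω).Reachable w y}.Finite}ᶜ = 0 := by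
    refine measure_mono_null ?_ (measure_iUnion_null h1)
    intro ω hω
    obtain ⟨w, hw⟩ := not_forall.mp hω
    exact mem_iUnion.mpr ⟨w, hw⟩
  have h3 := measure_univ_le_add_compl (μ := PB prob)
    {ω | ∀ w, {y | (openGraph ω).Reachable w y}.Finite}
  rw [h2, add_zero, measure_univ] at h3
  exact absurd h (not_lt.mpr h3)

/-- the planar section -/
def tp_emb {m : ℕ} (i : Fin m) (a : ℤ × ℤ) : Vtx m := (Pi.single i a.1, a.2)

theorem tp_emb_inj {m : ℕ} (i : Fin m) : Function.Injective (tp_emb i) := by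
  intro a b h
  have h1 := congrFun (congrArg Prod.fst h) i
  have h2 := congrArg Prod.snd h
  simp only [tp_emb, Pi.single_eq_same] at h1 h2
  exact Prod.ext h1 h2

theorem tp_l1 {m : ℕ} (i : Fin m) (x : ℤ) : l1 (Pi.single i x : Fin m → ℤ) = x.natAbs := by
  unfold l1
  rw [Finset.sum_eq_single i (fun j _ hj => by simp [Pi.single_eq_of_ne hj]) (by simp)]
  simp

/-- the pair of ends of a planar edge -/
def tp_lift {m : ℕ} (i : Fin m) (e : E2) : Sym2 (Vtx m) :=
  s(tp_emb i (src e), tp_emb i (tgt e))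

theorem tp_lift_inj {m : ℕ} (i : Fin m) : Function.Injective (tp_lift i) := by
  rintro ⟨x, t, b⟩ ⟨x', t', b'⟩ h
  rw [tp_lift, tp_lift, Sym2.eq_iff] at h
  simp only [(tp_emb_inj i).eq_iff] at h
  cases b <;> cases b' <;> simp [src, tgt] at h ⊢ <;> omega

theorem tp_adj {m : ℕ} (i : Fin m) (e : E2) :
    (lattice m).Adj (tp_emb i (src e)) (tp_emb i (tgt e)) := by
  obtain ⟨x, t, b⟩ := e
  rw [lattice_adj]
  simp only [tp_emb]
  rw [← Pi.single_sub, tp_l1]
  cases b <;> simp [src, tgt]

theorem tp_reach {m : ℕ} (i : Fin m) (ω : Sym2 (Vtx m) → Bool) {a b : ℤ × ℤ}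
    (h : Reach (fun e => ω (tp_lift i e)) a b) :
    (openGraph ω).Reachable (tp_emb i a) (tp_emb i b) := by
  induction h with
  | refl => exact SimpleGraph.Reachable.refl _
  | tail _ h ih =>
    obtain ⟨e, h1, h2⟩ := h
    have h3 : (openGraph ω).Adj (tp_emb i (src e)) (tp_emb i (tgt e)) :=
      (openGraph_adj _ _ _).2 ⟨tp_adj i e, h1⟩
    rcases h2 with ⟨rfl, rfl⟩ | ⟨rfl, rfl⟩
    · exact ih.trans h3.reachable
    · exact ih.trans h3.symm.reachable

theorem tp_bot (X : ℤ → ℕ) {a b : ℕ} (h : a < b) :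
    bot X (b + 1) = bot X (a + 1) + 2 * (up X a : ℕ) + 2 * (gap (up X) a b : ℕ) := by
  have step : ∀ n : ℕ, bot X ((n + 1 : ℕ) + 1) = bot X (n + 1) + 2 * (up X n : ℕ) := by
    intro n
    have h1 := bot_succ X (n + 1)
    simp only [bot, up] at h1 ⊢
    push_cast
    linarith
  induction b, h using Nat.le_induction with
  | base =>
    have : Finset.Ioo a (a + 1) = ∅ := by ext; simp only [Finset.mem_Ioo]; simp
    rw [step, gap, this]
    simp
  | succ b hb ih =>
    have : Finset.Ioo a (b + 1) = insert b (Finset.Ioo a b) := by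
      ext; simp only [Finset.mem_Ioo, Finset.mem_insert]; omega
    rw [step, ih, gap, gap, this, Finset.sum_insert (by simp)]
    push_cast
    ring

theorem tp_region {m : ℕ} (i : Fin m) (X : ℤ → ℕ) (a : ℕ) {v : ℤ × ℤ}
    (h : inV (bot X (a + 1)) (up X a) v) : tp_emb i v ∈ region m X := by
  refine mem_region_iff.2 ⟨a + 1, ?_⟩
  obtain ⟨h1, h2, h3, h4⟩ := h
  simp only [bot, up] at h2 h3 h4
  refine ⟨?_, h3, ?_⟩
  · simp only [tp_emb]
    rw [tp_l1]
    omega
  · simp only [tp_emb]
    linarith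

/-- Embed the plane by `(x, t) ↦ (Pi.single 0 x, t)`, lift an edge to the pair of its ends
(injective), `pres_comp` and `Measure.le_map_apply`. Rectangle `a` has bottom `bot X (a + 1)` and
width `up X a`; its edges have both ends in the box `a + 1`. Union bound over the jumps with
`arc_le`, `ε = 1 / (2 (C + 1))`, then `infinite_of_arcs` and `finite_energy`. -/
theorem theta_pos {m : ℕ} (hm : 1 ≤ m) {p : unitInterval} (hp : 0 < (p : ℝ)) :
    ∃ (c : ℕ) (ε : ℝ≥0∞), 0 < ε ∧ ∀ (q : unitInterval) (X : ℤ → ℕ), p ≤ q →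
      (999 / 1000 : ℝ) ≤ q → Path c (up X) ε → 0 < theta m X p q := by
  obtain ⟨c, C, hC⟩ := arc_le hp p.2.2
  refine ⟨c, (2 * (C + 1))⁻¹, ENNReal.inv_pos.2 (by finiteness), fun q X hpq hq hP => ?_⟩
  obtain ⟨A, hA, hA1, hA2⟩ := hP
  set i : Fin m := ⟨0, hm⟩
  have hle : ∀ e, p ≤ edgeProb m X p q e := by
    intro e
    unfold edgeProb
    split_ifs
    · exact hpq
    · exact le_rfl
  have hin : ∀ (a : ℕ) (e : E2), inR (bot X (a + 1)) (up X a) e →
      (999 / 1000 : ℝ) ≤ edgeProb m X p q (tp_lift i e) := by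
    intro a e he
    unfold edgeProb
    rw [if_pos]
    · exact hq
    · intro v hv
      rcases Sym2.mem_iff.1 hv with rfl | rfl
      · exact tp_region i X a he.1
      · exact tp_region i X a he.2
  refine finite_energy (prob := edgeProb m X p q) (fun e => lt_of_lt_of_le hp (hle e)) ?_
  set S : Set (E2 → Bool) := ⋃ a : ℕ × ℕ, {c | a ∈ A ∧
    ¬ ArcOK c (bot X (a.1 + 1)) (up X a.1) (bot X (a.2 + 1)) (up X a.2)} with hS
  have hsub : {ω : Sym2 (Vtx m) → Bool | ∀ w, {y | (openGraph ω).Reachable w y}.Finite} ⊆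
      (fun ω e => ω (tp_lift i e)) ⁻¹' S := by
    intro ω hω
    by_contra hc
    obtain ⟨a, ha⟩ := infinite_of_arcs (c := fun e => ω (tp_lift i e)) (Y := up X)
      (z := fun a => bot X (a + 1)) hA (fun a ha => by
        obtain ⟨⟨h1, h2⟩, -⟩ := hA1 a ha
        have h3 := tp_bot X h1
        have h4 : 1 ≤ up X a.1 := (Nat.one_le_two_pow.trans h2).trans (min_le_left _ _)
        constructor <;> omega) (fun a ha => (hA1 a ha).2) (fun a ha => by
        by_contra h
        exact hc (mem_iUnion.2 ⟨a, ha, h⟩))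
    refine (ha.image (tp_emb_inj i).injOn) ((hω (tp_emb i a)).subset ?_)
    rintro _ ⟨b, hb, rfl⟩
    exact tp_reach i ω hb
  have hpres := pres_comp (fun e => bernoulliMeasure true false (edgeProb m X p q e))
    (tp_lift_inj i)
  have h1 : PB (edgeProb m X p q) ((fun ω e => ω (tp_lift i e)) ⁻¹' S) ≤
      PB (fun e => edgeProb m X p q (tp_lift i e)) S := by
    have := Measure.le_map_apply hpres.measurable.aemeasurable
      (μ := PB (edgeProb m X p q)) S
    exact this.trans (le_of_eq (congrArg (fun ν : Measure (E2 → Bool) => ν S) hpres.map_eq))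
  have h2 : PB (fun e => edgeProb m X p q (tp_lift i e)) S ≤ C * cost (up X) A := by
    refine (measure_iUnion_le _).trans ?_
    rw [cost, ← ENNReal.tsum_mul_left]
    refine ENNReal.tsum_le_tsum fun a => ?_
    by_cases ha : a ∈ A
    · rw [indicator_of_mem ha]
      obtain ⟨⟨h1, h2⟩, -⟩ := hA1 a ha
      refine le_trans (measure_mono fun c hc => hc.2) (hC _ _ _ _ _ _ (fun e => hle _)
        (fun e he => he.elim (hin _ e) (hin _ e)) (tp_bot X h1) h2)
    · simp [ha]
  refine ((measure_mono hsub).trans (h1.trans (h2.trans (mul_le_mul_right hA2 _)))).trans_lt ?_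
  rw [← div_eq_mul_inv, ENNReal.div_lt_iff (Or.inl (by simp)) (Or.inl (by finiteness)), one_mul]
  have : (C : ℝ≥0∞) < ((2 * (C + 1) : ℕ) : ℝ≥0∞) := by exact_mod_cast (by omega)
  simpa using this

end Pool.Agent.Lib.MP_c59c01_pr.TH
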