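import Pool.Agent.Lib.MP_c59c01_pr.TH.SegV

set_option autoImplicit false

open MeasureTheory ProbabilityTheory Set Filter Topology
open scoped ENNReal

namespace Pool.Agent.Lib.MP_c59c01_pr.TH

/-! The expected crossing cost. -/

theorem rec_pos {p : Prop} (h : p) : ind p = 1 := if_pos h

theorem rec_neg {p : Prop} (h : ¬ p) : ind p = 0 := if_neg h

theorem rec_one {μ : Measure ℕ} (h0 : μ {0} = 0) {w : List ℕ} (hw : wt μ w ≠ 0) :
    ∀ v ∈ w, 1 ≤ v := by
  intro v hv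
  by_contra hlt
  obtain rfl : v = 0 := by omega
  exact hw (List.prod_eq_zero (List.mem_map.2 ⟨0, hv, h0⟩))

theorem rec_prod (μ : Measure ℕ) (a : ℝ≥0∞) (A B : List ℕ → ℝ≥0∞) :
    (sm μ fun u => sm μ fun v => a * (A u * B v + B u * A v)) =
      a * (sm μ B * sm μ A + sm μ A * sm μ B) := by
  have h1 : ∀ u, (sm μ fun v => a * (A u * B v + B u * A v)) =
      a * (sm μ B * A u + sm μ A * B u) := fun u => by
    rw [sm_mul, sm_add, sm_mul, sm_mul, mul_comm (A u), mul_comm (B u)]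
  simp only [h1]
  rw [sm_mul, sm_add, sm_mul, sm_mul]

theorem rec_split (μ : Measure ℕ) [IsProbabilityMeasure μ] (h : ∀ n, 0 < tl μ n) {c n Y l : ℕ}
    {Φ : ℕ → ℝ} (hΦ : ∀ l, 0 ≤ Φ l)
    (ih : ∀ m, 1 ≤ m → sm μ (fun w => ind ((∀ v ∈ w, v ≤ m) ∧ w.length < n) * V c m w) ≤
      ENNReal.ofReal (Φ m)) :
    sm μ (fun w => ind ((∀ v ∈ w, v ≤ l) ∧ w.length < n + 1 ∧ ∃ v ∈ w, Y < v) * V c l w) ≤
      ENNReal.ofReal
        (∑ m ∈ Finset.Ioc Y l, (tl μ m - tl μ (m + 1)) * (2 * Φ m / tl μ (m + 1))) := by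
  refine (sm_split μ (g := fun u m v => ind (m ∈ Finset.Ioc Y l) *
    (ind ((∀ x ∈ u, x ≤ m) ∧ u.length < n) * V c m u * ind (∀ x ∈ v, x < m + 1) +
      ind (∀ x ∈ u, x < m + 1) * (ind ((∀ x ∈ v, x ≤ m) ∧ v.length < n) * V c m v))) ?_).trans ?_
  · intro w hw
    have hp : (∀ v ∈ w, v ≤ l) ∧ w.length < n + 1 ∧ ∃ v ∈ w, Y < v := by
      by_contra hn
      exact hw (by rw [rec_neg hn, zero_mul])
    obtain ⟨x, hx, hxY⟩ := hp.2.2
    obtain ⟨u, m, v, rfl, hu, hv⟩ := exists_first_max (List.ne_nil_of_mem hx)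
    have hxm : x ≤ m := by
      rcases List.mem_append.1 hx with h1 | h1
      · exact (hu x h1).le
      · rcases List.mem_cons.1 h1 with h2 | h2
        · exact h2.le
        · exact hv x h2
    have hml : m ≤ l := hp.1 m (List.mem_append_right _ List.mem_cons_self)
    have hlen := hp.2.1
    rw [List.length_append, List.length_cons] at hlen
    refine ⟨u, m, v, rfl, ?_⟩
    rw [rec_pos hp, rec_pos (Finset.mem_Ioc.2 ⟨hxY.trans_le hxm, hml⟩),
      rec_pos (p := (∀ x ∈ u, x ≤ m) ∧ u.length < n) ⟨fun x hx => (hu x hx).le, by omega⟩,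
      rec_pos (p := (∀ x ∈ v, x ≤ m) ∧ v.length < n) ⟨hv, by omega⟩,
      rec_pos (p := ∀ x ∈ v, x < m + 1) fun x hx => Nat.lt_succ_of_le (hv x hx),
      rec_pos (p := ∀ x ∈ u, x < m + 1) fun x hx => Nat.lt_succ_of_lt (hu x hx)]
    simp only [one_mul, mul_one]
    exact V_split hml le_rfl u v
  · have hnn : ∀ m, 0 ≤ tl μ m - tl μ (m + 1) := fun m =>
      sub_nonneg.2 (tl_anti μ (Nat.le_succ m))
    rw [ENNReal.ofReal_sum_of_nonneg fun m _ => mul_nonneg (hnn m)
      (div_nonneg (mul_nonneg zero_le_two (hΦ m)) (h _).le),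
      tsum_eq_sum (s := Finset.Ioc Y l) fun m hm => by
        rw [rec_prod μ _ (fun u => ind ((∀ x ∈ u, x ≤ m) ∧ u.length < n) * V c m u)
          (fun u => ind (∀ x ∈ u, x < m + 1)), rec_neg hm, zero_mul, mul_zero]]
    refine Finset.sum_le_sum fun m hm => ?_
    rw [rec_prod μ _ (fun u => ind ((∀ x ∈ u, x ≤ m) ∧ u.length < n) * V c m u)
      (fun u => ind (∀ x ∈ u, x < m + 1)), rec_pos hm, one_mul, mu_single,
      ENNReal.ofReal_mul (hnn m)]
    have h1 := ih m (by have := (Finset.mem_Ioc.1 hm).1; omega)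
    have h2 := sm_lt μ (h (m + 1))
    have h3 : 0 ≤ (tl μ (m + 1))⁻¹ := (inv_pos.2 (h _)).le
    have e : 2 * Φ m / tl μ (m + 1) = (tl μ (m + 1))⁻¹ * Φ m + Φ m * (tl μ (m + 1))⁻¹ := by ring
    rw [e, ENNReal.ofReal_add (mul_nonneg h3 (hΦ m)) (mul_nonneg (hΦ m) h3),
      ENNReal.ofReal_mul h3, ENNReal.ofReal_mul (hΦ m)]
    exact mul_le_mul' le_rfl (add_le_add (mul_le_mul' h2 h1) (mul_le_mul' h1 h2))

theorem rec_sup (μ : Measure ℕ) {P : List ℕ → Prop} {f : List ℕ → ℝ≥0∞} {B : ℝ≥0∞}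
    (h : ∀ n, sm μ (fun w => ind (P w ∧ w.length < n) * f w) ≤ B) :
    sm μ (fun w => ind (P w) * f w) ≤ B := by
  unfold sm
  rw [ENNReal.tsum_eq_iSup_sum]
  refine iSup_le fun s => le_trans ?_ (h (s.sup List.length + 1))
  refine le_trans (Finset.sum_le_sum fun w hw => ?_) (ENNReal.sum_le_tsum s)
  beta_reduce
  by_cases hP : P w
  · have := Finset.le_sup (f := List.length) hw
    rw [rec_pos hP, rec_pos (p := P w ∧ w.length < s.sup List.length + 1) ⟨hP, by omega⟩]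
  · rw [rec_neg hP, zero_mul, mul_zero]
    exact zero_le

/-- Induction on `n` for the words of length below `n`, for all `l ≥ 1`; then the supremum. In
the first case `V_triv` and `sm_long'` with `K = 0`. In the second a word with all values at most
`y l` is short (`V_arc`, its sum is at most `y l * y l`) or long (`V_triv`, `sm_long'`); otherwise
split at the maximum `m` (`exists_first_max`, `V_split`, `sm_split`, `sm_lt`). Words with a zero
have weight zero. -/
theorem cost_le (μ : Measure ℕ) [IsProbabilityMeasure μ] (h0 : μ {0} = 0) (h : ∀ n, 0 < tl μ n)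
    {c : ℕ} {y : ℕ → ℕ} {Φ : ℕ → ℝ} (hΦ : ∀ l, 0 ≤ Φ l)
    (hs : ∀ l, 1 / tl μ (l + 1) ^ 2 ≤ Φ l ∨ (2 ^ (c * (y l * y l)) ≤ l ∧
      (l : ℝ)⁻¹ * (tl μ (y l + 1))⁻¹ +
        (y l + 1) * (1 - tl μ (y l + 1)) ^ y l / tl μ (y l + 1) ^ 2 +
        ∑ m ∈ Finset.Ioc (y l) l, (tl μ m - tl μ (m + 1)) * (2 * Φ m / tl μ (m + 1)) ≤ Φ l))
    {l : ℕ} (hl : 1 ≤ l) :
    sm μ (fun w => ind (∀ v ∈ w, v ≤ l) * V c l w) ≤ ENNReal.ofReal (Φ l) := by
  refine rec_sup μ fun n => ?_
  induction n generalizing l with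
  | zero =>
    have e : (fun w : List ℕ => ind ((∀ v ∈ w, v ≤ l) ∧ w.length < 0) * V c l w) =
        fun w => 0 * V c l w := funext fun w => by
      rw [rec_neg fun hp => Nat.not_lt_zero _ hp.2]
    rw [e, sm_mul, zero_mul]
    exact zero_le
  | succ n ih =>
    rcases hs l with h1 | ⟨h1, h2⟩
    · refine le_trans (sm_mono μ fun w hw => ?_) ((sm_long' μ (h (l + 1)) 0).trans
        (ENNReal.ofReal_le_ofReal (by simpa using h1)))
      by_cases hp : (∀ v ∈ w, v ≤ l) ∧ w.length < n + 1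
      · rw [rec_pos hp, rec_pos (p := (∀ v ∈ w, v < l + 1) ∧ 0 ≤ w.length)
          ⟨fun v hv => Nat.lt_succ_of_le (hp.1 v hv), Nat.zero_le _⟩]
        exact mul_le_mul' le_rfl (V_triv hl (rec_one h0 hw))
      · rw [rec_neg hp, zero_mul]
        exact zero_le
    · have k1 : sm μ (fun w => ind ((∀ v ∈ w, v ≤ l) ∧ w.length < n + 1) * V c l w) ≤
          sm μ (fun w => ((l : ℝ≥0∞)⁻¹ * ind (∀ v ∈ w, v < y l + 1) +
            ind ((∀ v ∈ w, v < y l + 1) ∧ y l ≤ w.length) * (w.length + 1)) +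
            ind ((∀ v ∈ w, v ≤ l) ∧ w.length < n + 1 ∧ ∃ v ∈ w, y l < v) * V c l w) := by
        refine sm_mono μ fun w hw => ?_
        by_cases hp : (∀ v ∈ w, v ≤ l) ∧ w.length < n + 1
        · rw [rec_pos hp, one_mul]
          by_cases hy : ∃ v ∈ w, y l < v
          · rw [rec_pos (p := (∀ v ∈ w, v ≤ l) ∧ w.length < n + 1 ∧ ∃ v ∈ w, y l < v)
              ⟨hp.1, hp.2, hy⟩, one_mul]
            exact le_add_self
          · have hy' : ∀ v ∈ w, v ≤ y l := fun v hv => not_lt.1 fun hlt => hy ⟨v, hv, hlt⟩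
            have hy'' : ∀ v ∈ w, v < y l + 1 := fun v hv => Nat.lt_succ_of_le (hy' v hv)
            refine le_trans ?_ le_self_add
            rcases le_total (y l) w.length with hlen | hlen
            · rw [rec_pos (p := (∀ v ∈ w, v < y l + 1) ∧ y l ≤ w.length) ⟨hy'', hlen⟩, one_mul]
              exact (V_triv hl (rec_one h0 hw)).trans le_add_self
            · have hsum : w.sum ≤ y l * y l :=
                (List.sum_le_card_nsmul w (y l) hy').trans (Nat.mul_le_mul_right _ hlen)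
              rw [rec_pos hy'', mul_one]
              exact (V_arc ((Nat.pow_le_pow_right (by norm_num)
                (Nat.mul_le_mul_left c hsum)).trans h1)).trans le_self_add
        · rw [rec_neg hp, zero_mul]
          exact zero_le
      rw [sm_add, sm_add, sm_mul] at k1
      have hl0 : (0 : ℝ) < l := by exact_mod_cast hl
      have k2 : (l : ℝ≥0∞)⁻¹ = ENNReal.ofReal (l : ℝ)⁻¹ := by
        rw [ENNReal.ofReal_inv_of_pos hl0, ENNReal.ofReal_natCast]
      have k3 := sm_lt μ (h (y l + 1))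
      have k4 := sm_long' μ (h (y l + 1)) (y l)
      have k5 := rec_split μ h (c := c) (n := n) (Y := y l) (l := l) hΦ fun m hm => ih hm
      have p1 : 0 ≤ (l : ℝ)⁻¹ := (inv_pos.2 hl0).le
      have p2 : 0 ≤ (tl μ (y l + 1))⁻¹ := (inv_pos.2 (h _)).le
      have p3 : 0 ≤ ((y l : ℝ) + 1) * (1 - tl μ (y l + 1)) ^ y l / tl μ (y l + 1) ^ 2 :=
        div_nonneg (mul_nonneg (by positivity) (pow_nonneg (sub_nonneg.2 (tl_le_one μ _)) _))
          (sq_nonneg _)
      have p4 : 0 ≤ ∑ m ∈ Finset.Ioc (y l) l,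
          (tl μ m - tl μ (m + 1)) * (2 * Φ m / tl μ (m + 1)) :=
        Finset.sum_nonneg fun m _ => mul_nonneg (sub_nonneg.2 (tl_anti μ (Nat.le_succ m)))
          (div_nonneg (mul_nonneg zero_le_two (hΦ m)) (h _).le)
      refine k1.trans (le_trans ?_ (ENNReal.ofReal_le_ofReal h2))
      rw [ENNReal.ofReal_add (add_nonneg (mul_nonneg p1 p2) p3) p4,
        ENNReal.ofReal_add (mul_nonneg p1 p2) p3, ENNReal.ofReal_mul p1, ← k2]
      exact add_le_add (add_le_add (mul_le_mul' le_rfl k3) k4) k5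

end Pool.Agent.Lib.MP_c59c01_pr.TH
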