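import Pool.Agent.Lib.MP_c59c01_pr.TH.Asym

set_option autoImplicit false

open MeasureTheory ProbabilityTheory Set Filter Topology
open scoped ENNReal

namespace Pool.Agent.Lib.MP_c59c01_pr.TH

/-! A supersolution of the cost recursion. -/

theorem sup_pw {u t D γ : ℝ} {k : ℕ} (hu : 0 < u) (ht : 0 < t) (hD : 1 ≤ D) (h : t ≤ D * u)
    (h0 : γ ≤ 0) (hk : -γ ≤ k) : u ^ γ ≤ D ^ k * t ^ γ := by
  have hD0 : 0 < D := by linarith
  have h1 : (D * u) ^ γ ≤ t ^ γ := Real.rpow_le_rpow_of_nonpos ht h h0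
  have h2 : D ^ (-γ) ≤ D ^ k := by
    rw [← Real.rpow_natCast]
    exact Real.rpow_le_rpow_of_exponent_le hD hk
  have h3 : u ^ γ = D ^ (-γ) * (D * u) ^ γ := by
    rw [Real.mul_rpow hD0.le hu.le, ← mul_assoc, ← Real.rpow_add hD0]
    simp
  rw [h3]
  exact mul_le_mul h2 h1 (by positivity) (by positivity)

theorem sup_neg {u t γ : ℝ} (hu : 0 < u) (ht : 0 < t) (h0 : γ ≤ 0) :
    -γ * (t - u) * t ^ (γ - 1) ≤ u ^ γ - t ^ γ := by
  have hx : 0 < u / t := div_pos hu ht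
  have h1 : 1 + γ * (u / t - 1) ≤ (u / t) ^ γ := by
    rw [Real.rpow_def_of_pos hx]
    have h2 := Real.add_one_le_exp (Real.log (u / t) * γ)
    have h3 := Real.log_le_sub_one_of_pos hx
    nlinarith
  have h4 : 0 < t ^ γ := Real.rpow_pos_of_pos ht γ
  rw [Real.div_rpow hu.le ht.le, le_div_iff₀ h4] at h1
  have h5 : -γ * (t - u) * t ^ (γ - 1) = γ * (u / t - 1) * t ^ γ := by
    rw [Real.rpow_sub_one ht.ne']
    field_simp
    ring
  rw [h5]
  linarith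

theorem sup_pos {u t β : ℝ} (hu : 0 < u) (ht : 0 < t) (h0 : 0 ≤ β) (h1 : β ≤ 1) :
    β * (t - u) * t ^ (β - 1) ≤ t ^ β - u ^ β := by
  have hx : 0 < u / t := div_pos hu ht
  have h2 := rpow_one_add_le_one_add_mul_self (s := u / t - 1) (by linarith) h0 h1
  have h4 : 0 < t ^ β := Real.rpow_pos_of_pos ht β
  rw [add_sub_cancel, Real.div_rpow hu.le ht.le, div_le_iff₀ h4] at h2
  have h5 : β * (t - u) * t ^ (β - 1) = -(β * (u / t - 1) * t ^ β) := by
    rw [Real.rpow_sub_one ht.ne']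
    field_simp
    ring
  rw [h5]
  linarith

theorem sup_tail {U : ℝ} {y : ℕ} (hU : 0 < U) (h1 : U ≤ 1) (h : 1 ≤ (y : ℝ) * U ^ 2) :
    ((y : ℝ) + 1) * (1 - U) ^ y / U ^ 2 ≤ 48 := by
  have hy : (1 : ℝ) ≤ y := by nlinarith [Nat.cast_nonneg (α := ℝ) y, pow_le_one₀ (n := 2) hU.le h1]
  have h2 : (1 - U) ^ y ≤ Real.exp (-(y * U)) := by
    rw [show -((y : ℝ) * U) = y * -U by ring, Real.exp_nat_mul]
    exact pow_le_pow_left₀ (by linarith) (by linarith [Real.add_one_le_exp (-U)]) y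
  have h3 := Real.pow_div_factorial_le_exp (y * U) (by positivity) 4
  have h4 : (y : ℝ) ^ 2 * (y * U ^ 2) ≤ (y * U) ^ 4 := by
    have e : ((y : ℝ) * U) ^ 4 = (y : ℝ) ^ 2 * (y * U ^ 2) * (y * U ^ 2) := by ring
    rw [e]
    exact le_mul_of_one_le_right (by positivity) h
  have h5 : ((Nat.factorial 4 : ℕ) : ℝ) = 24 := by norm_num [Nat.factorial]
  rw [h5] at h3
  have h6 : (1 - U) ^ y * Real.exp (y * U) ≤ 1 := by
    have := mul_le_mul_of_nonneg_right h2 (Real.exp_pos (y * U)).le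
    rwa [← Real.exp_add, neg_add_cancel, Real.exp_zero] at this
  have h7 : 0 ≤ (1 - U) ^ y := pow_nonneg (by linarith) y
  have h8 : (1 - U) ^ y * ((y : ℝ) ^ 2 * (y * U ^ 2)) ≤ 24 := by nlinarith
  rw [div_le_iff₀ (by positivity)]
  have h9 : ((y : ℝ) + 1) * (1 - U) ^ y ≤ 2 * y * (1 - U) ^ y :=
    mul_le_mul_of_nonneg_right (by linarith) h7
  have h10 : (1 - U) ^ y * (y : ℝ) ^ 2 ≤ 24 := by
    refine le_trans ?_ h8
    exact mul_le_mul_of_nonneg_left (le_mul_of_one_le_right (by positivity) h) h7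
  have h11 : (1 - U) ^ y * (y : ℝ) ≤ 24 * U ^ 2 := by
    refine le_of_mul_le_mul_right (a := (y : ℝ)) ?_ (by linarith)
    nlinarith
  nlinarith

theorem sup_tel (f : ℕ → ℝ) {y l : ℕ} (h : y ≤ l) :
    ∑ m ∈ Finset.Ioc y l, (f (m + 1) - f m) = f (l + 1) - f (y + 1) := by
  induction l, h using Nat.le_induction with
  | base => simp
  | succ l h ih => rw [Finset.sum_Ioc_succ_top h, ih]; ring

/-- `Φ l = C * tl (l + 1) ^ (β - 1)` with `β, δ > 0` so small that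
`2 (1 + δ) ^ 2 (1 - a) / (1 - β) = 1 - κ < 1`. With `U m = tl (m + 1) ≤ tl m ≤ (1 + δ) U m`:
`(tl m - U m) U m ^ (β - 2) ≤ (1 + δ) ^ 2 (U m ^ (β - 1) - tl m ^ (β - 1)) / (1 - β)` and
`(tl m - U m) U m ^ (β - 1) ≤ (1 + δ) (tl m ^ β - U m ^ β) / β` (Bernoulli or the mean value
theorem); both sums telescope. The first two terms are at most `U l ^ (β - 1)` and a constant
(`U y ≥ y ^ (- 1 / 2)`). `C` is large for the finitely many other `l`. -/
theorem super {T : ℕ → ℝ} (hpos : ∀ n, 0 < T n) (h1 : ∀ n, T n ≤ 1) (hanti : Antitone T)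
    (hstep : ∀ δ : ℝ, 0 < δ → ∀ᶠ m in atTop, T m ≤ (1 + δ) * T (m + 1))
    (hsq : ∀ᶠ y : ℕ in atTop, 1 ≤ (y : ℝ) * T (y + 1) ^ 2) {a : ℝ} {y : ℕ → ℕ} (ha : 1 / 2 < a)
    (hy : Tendsto y atTop atTop) {G : ℕ → Prop}
    (h : ∀ᶠ l in atTop, G l ∧ y l ≤ l ∧ a * T (y l + 1) ≤ T (l + 1)) :
    ∃ Φ : ℕ → ℝ, (∀ l, 0 ≤ Φ l) ∧ Summable (fun m => (T m - T (m + 1)) * Φ m) ∧
      ∀ l, 1 / T (l + 1) ^ 2 ≤ Φ l ∨ (G l ∧ (l : ℝ)⁻¹ * (T (y l + 1))⁻¹ +
        (y l + 1) * (1 - T (y l + 1)) ^ y l / T (y l + 1) ^ 2 +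
        ∑ m ∈ Finset.Ioc (y l) l, (T m - T (m + 1)) * (2 * Φ m / T (m + 1)) ≤ Φ l) := by
  obtain ⟨η, hη0, hη1, hηa⟩ : ∃ η : ℝ, 0 < η ∧ η ≤ 1 ∧ (1 + η) / 2 ≤ a :=
    ⟨min 1 (2 * a - 1), lt_min one_pos (by linarith), min_le_left _ _,
      by linarith [min_le_right 1 (2 * a - 1)]⟩
  obtain ⟨M, hM⟩ := eventually_atTop.1 (hstep (η / 8) (by positivity))
  obtain ⟨L, hL⟩ := eventually_atTop.1
    (h.and (hsq.and ((hy.eventually hsq).and (hy.eventually_ge_atTop M))))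
  obtain ⟨C, hC1, hC2⟩ : ∃ C : ℝ, 1 / T L ^ 2 ≤ C ∧ 196 / η ≤ C :=
    ⟨max _ _, le_max_left _ _, le_max_right _ _⟩
  have hC0 : 0 ≤ C := le_trans (by positivity) hC2
  have hone : ∀ l, 1 ≤ T l ^ (η / 4 - 1) := fun l =>
    Real.one_le_rpow_of_pos_of_le_one_of_nonpos (hpos l) (h1 l) (by linarith)
  have hd : ∀ m, 0 ≤ T m - T (m + 1) := fun m => sub_nonneg.2 (hanti (Nat.le_succ m))
  refine ⟨fun l => C * T (l + 1) ^ (η / 4 - 1),
    fun l => mul_nonneg hC0 (zero_le_one.trans (hone _)), ?_, fun l => ?_⟩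
  · have hs : Summable fun m => T m ^ (η / 4) - T (m + 1) ^ (η / 4) := by
      refine summable_of_sum_range_le (c := T 0 ^ (η / 4)) (fun m => sub_nonneg.2
        (Real.rpow_le_rpow (hpos _).le (hanti (Nat.le_succ m)) (by positivity))) fun n => ?_
      rw [Finset.sum_range_sub' fun m => T m ^ (η / 4)]
      linarith [Real.rpow_pos_of_pos (hpos n) (η / 4)]
    refine (hs.mul_left (8 * C / η)).of_norm_bounded_eventually_nat ?_
    filter_upwards [hstep 1 one_pos] with m hm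
    have e1 := sup_pw (k := 1) (γ := η / 4 - 1) (hpos (m + 1)) (hpos m) (by norm_num) hm
      (by linarith) (by push_cast; linarith)
    have e2 := sup_pos (β := η / 4) (hpos (m + 1)) (hpos m) (by positivity) (by linarith)
    rw [Real.norm_of_nonneg (mul_nonneg (hd m) (mul_nonneg hC0 (zero_le_one.trans (hone _))))]
    calc (T m - T (m + 1)) * (C * T (m + 1) ^ (η / 4 - 1))
        ≤ (T m - T (m + 1)) * (C * ((1 + 1) ^ 1 * T m ^ (η / 4 - 1))) :=
          mul_le_mul_of_nonneg_left (mul_le_mul_of_nonneg_left e1 hC0) (hd m)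
      _ = 8 * C / η * (η / 4 * (T m - T (m + 1)) * T m ^ (η / 4 - 1)) := by
          field_simp
          ring
      _ ≤ _ := mul_le_mul_of_nonneg_left e2 (by positivity)
  · by_cases hl : l < L
    · refine Or.inl (le_trans (le_trans ?_ hC1) (le_mul_of_one_le_right hC0 (hone _)))
      exact one_div_le_one_div_of_le (pow_pos (hpos L) 2)
        (pow_le_pow_left₀ (hpos L).le (hanti hl) 2)
    obtain ⟨⟨g1, g2, g3⟩, g4, g5, g6⟩ := hL l (not_lt.1 hl)
    refine Or.inr ⟨g1, ?_⟩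
    beta_reduce
    have p1 := hpos (l + 1)
    have p2 := hpos (y l + 1)
    have p3 : T (l + 1) ≤ T (y l + 1) := hanti (Nat.succ_le_succ g2)
    have t1 : (l : ℝ)⁻¹ * (T (y l + 1))⁻¹ ≤ 1 := by
      rw [← mul_inv]
      refine inv_le_one_of_one_le₀ (g4.trans (mul_le_mul_of_nonneg_left ?_ (Nat.cast_nonneg l)))
      nlinarith [h1 (l + 1)]
    have t2 := sup_tail p2 (h1 _) g5
    have hb : 0 < 1 - η / 4 := by linarith
    have t3 : ∑ m ∈ Finset.Ioc (y l) l,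
        (T m - T (m + 1)) * (2 * (C * T (m + 1) ^ (η / 4 - 1)) / T (m + 1)) ≤
        ∑ m ∈ Finset.Ioc (y l) l, 2 * C * (1 + η / 8) ^ 2 / (1 - η / 4) *
          (T (m + 1) ^ (η / 4 - 1) - T m ^ (η / 4 - 1)) := by
      refine Finset.sum_le_sum fun m hm => ?_
      have e0 := hM m (g6.trans (Finset.mem_Ioc.1 hm).1.le)
      have e1 := sup_pw (k := 2) (γ := η / 4 - 1 - 1) (hpos (m + 1)) (hpos m) (by linarith) e0
        (by linarith) (by push_cast; linarith)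
      have e2 := sup_neg (γ := η / 4 - 1) (hpos (m + 1)) (hpos m) (by linarith)
      calc (T m - T (m + 1)) * (2 * (C * T (m + 1) ^ (η / 4 - 1)) / T (m + 1))
          = 2 * C * (T m - T (m + 1)) * T (m + 1) ^ (η / 4 - 1 - 1) := by
            rw [Real.rpow_sub_one (hpos (m + 1)).ne' (η / 4 - 1)]
            ring
        _ ≤ 2 * C * (T m - T (m + 1)) * ((1 + η / 8) ^ 2 * T m ^ (η / 4 - 1 - 1)) :=
            mul_le_mul_of_nonneg_left e1 (mul_nonneg (by positivity) (hd m))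
        _ = 2 * C * (1 + η / 8) ^ 2 / (1 - η / 4) *
            (-(η / 4 - 1) * (T m - T (m + 1)) * T m ^ (η / 4 - 1 - 1)) := by
            rw [neg_sub, div_mul_eq_mul_div, eq_div_iff hb.ne']
            ring
        _ ≤ _ := mul_le_mul_of_nonneg_left e2 (by positivity)
    rw [← Finset.mul_sum, sup_tel (fun m => T m ^ (η / 4 - 1)) g2] at t3
    have ha0 : 0 < (1 + η) / 2 := by positivity
    have t4 : (1 + η) / 2 * T (l + 1) ^ (η / 4 - 1) ≤ T (y l + 1) ^ (η / 4 - 1) := by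
      have e1 := sup_pw (k := 1) (γ := η / 4 - 1) (D := ((1 + η) / 2)⁻¹) p1 p2
        ((one_le_inv₀ ha0).2 (by linarith))
        (by rw [le_inv_mul_iff₀ ha0]; exact (mul_le_mul_of_nonneg_right hηa p2.le).trans g3)
        (by linarith) (by push_cast; linarith)
      rwa [pow_one, le_inv_mul_iff₀ ha0] at e1
    have hP := hone (l + 1)
    generalize T (l + 1) ^ (η / 4 - 1) = P at t3 t4 hP ⊢
    have t5 : 2 * C * (1 + η / 8) ^ 2 / (1 - η / 4) * (P - T (y l + 1) ^ (η / 4 - 1)) ≤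
        (1 - η / 4) * (C * P) := by
      have e1 : P - T (y l + 1) ^ (η / 4 - 1) ≤ (1 - η) / 2 * P := by linarith
      refine (mul_le_mul_of_nonneg_left e1 (by positivity)).trans ?_
      rw [div_mul_eq_mul_div, div_le_iff₀ hb]
      have e2 : (1 + η / 8) ^ 2 * (1 - η) ≤ (1 - η / 4) * (1 - η / 4) := by
        nlinarith [mul_pos hη0 hη0, mul_pos (mul_pos hη0 hη0) hη0]
      have e3 : 0 ≤ C * P := mul_nonneg hC0 (by linarith)
      nlinarith [mul_le_mul_of_nonneg_right e2 e3]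
    have t6 : 49 ≤ η / 4 * (C * P) := by
      rw [div_le_iff₀ hη0] at hC2
      nlinarith [mul_le_mul_of_nonneg_left hP (mul_nonneg hC0 hη0.le)]
    linarith

end Pool.Agent.Lib.MP_c59c01_pr.TH
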