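import Pool.Agent.Lib.MP_c59c01_pr.TH.CutDet

set_option autoImplicit false

open MeasureTheory ProbabilityTheory Set Filter Topology
open scoped ENNReal

namespace Pool.Agent.Lib.MP_c59c01_pr.TH

/-! Cuts at infinitely many scales. -/

variable (μ : Measure ℕ) [IsProbabilityMeasure μ]

theorem zeroone_indep : iIndep (fun i : ℤ =>
    MeasurableSpace.comap (fun X : ℤ → ℕ => X i) inferInstance)
    (Measure.infinitePi fun _ : ℤ => μ) :=
  (iIndepFun_infinitePi (P := fun _ : ℤ => μ) (X := fun _ b => b) fun _ => measurable_id).iIndep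

theorem zeroone_meas {t : Set ℤ} {i : ℤ} (hi : i ∈ t) :
    Measurable[⨆ j ∈ t, MeasurableSpace.comap (fun X : ℤ → ℕ => X j) inferInstance]
      fun X : ℤ → ℕ => X i :=
  Measurable.of_comap_le (le_iSup₂_of_le (f := fun j (_ : j ∈ t) =>
    MeasurableSpace.comap (fun X : ℤ → ℕ => X j) inferInstance) i hi le_rfl)

/-- Kolmogorov: `measure_zero_or_one_of_measurableSet_limsup` (filter `cofinite`, or re-index by
`|i|`); `A` is the preimage of `A` under the map that resets the coordinates of a finite set. -/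
theorem zero_one {A : Set (ℤ → ℕ)} (hA : MeasurableSet A)
    (h : ∀ (X X' : ℤ → ℕ) (N : ℕ), (∀ i : ℤ, (N : ℤ) ≤ |i| → X i = X' i) → X ∈ A → X' ∈ A) :
    Measure.infinitePi (fun _ : ℤ => μ) A = 0 ∨ Measure.infinitePi (fun _ : ℤ => μ) A = 1 := by
  classical
  refine measure_zero_or_one_of_measurableSet_limsup (f := cofinite) (p := Set.Finite)
    (ns := fun F : Finset ℤ => (F : Set ℤ)) (fun i => (measurable_pi_apply i).comap_le)
    (zeroone_indep μ) (fun t ht => ht.compl_mem_cofinite)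
    (fun a b => ⟨a ∪ b, by simp, by simp⟩) (fun a => a.finite_toSet)
    (fun n => ⟨{n}, by simp⟩) ?_
  rw [limsup_eq_iInf_iSup]
  simp only [MeasurableSpace.measurableSet_iInf]
  intro t ht
  obtain ⟨N, hN⟩ := ((mem_cofinite.1 ht).image Int.natAbs).bddAbove
  have h1 : ∀ (X : ℤ → ℕ) (i : ℤ), ((N + 1 : ℕ) : ℤ) ≤ |i| →
      X i = if i ∈ t then X i else 0 := fun X i hi => by
    rw [if_pos]
    by_contra hc
    have := hN ⟨i, hc, rfl⟩
    rw [Int.abs_eq_natAbs] at hi
    omega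
  have h2 : A = (fun (X : ℤ → ℕ) (i : ℤ) => if i ∈ t then X i else 0) ⁻¹' A := by
    ext X
    exact ⟨h _ _ _ (h1 X), h _ _ _ fun i hi => (h1 X i hi).symm⟩
  rw [h2]
  refine (@measurable_pi_lambda _ _ _ (_) _ _ fun i => ?_) hA
  by_cases hi : i ∈ t
  · simpa only [if_pos hi] using zeroone_meas hi
  · simpa only [if_neg hi] using measurable_const

/-- Independence of disjoint blocks of coordinates (as in `indep_coordAlg`) and `pres_comp`. -/
theorem two_sided {A B : Set (ℕ → ℕ)} (hA : MeasurableSet A) (hB : MeasurableSet B) :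
    Measure.infinitePi (fun _ : ℤ => μ) {X | up X ∈ A ∧ dn X ∈ B} = nu μ A * nu μ B := by
  have h1 := indep_iSup_of_disjoint (fun i => (measurable_pi_apply i).comap_le) (zeroone_indep μ)
    (S := Ioi 0) (T := Iio 0) (disjoint_left.2 fun i a b => lt_asymm (mem_Ioi.1 a) (mem_Iio.1 b))
  have h2 := (Indep_iff _ _ _).1 h1 (up ⁻¹' A) (dn ⁻¹' B)
    ((@measurable_pi_lambda _ _ _ (_) _ _ fun i : ℕ =>
      zeroone_meas (i := i + 1) (mem_Ioi.2 (by omega))) hA)
    ((@measurable_pi_lambda _ _ _ (_) _ _ fun i : ℕ =>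
      zeroone_meas (i := -1 - i) (mem_Iio.2 (by omega))) hB)
  have h3 := (pres_comp (fun _ : ℤ => μ) (f := fun i : ℕ => (i : ℤ) + 1)
    fun a b e => by simpa using e).measure_preimage hA.nullMeasurableSet
  have h4 := (pres_comp (fun _ : ℤ => μ) (f := fun i : ℕ => -1 - (i : ℤ))
    fun a b e => by simpa using e).measure_preimage hB.nullMeasurableSet
  exact h2.trans (congrArg₂ (· * ·) h3 h4)

theorem zeroone_mside (J K x : ℕ) :
    MeasurableSet {X : ℤ → ℕ | Side J K x (up X) ∧ Side J K x (dn X)} := by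
  have h1 : Measurable (up : (ℤ → ℕ) → ℕ → ℕ) :=
    measurable_pi_lambda _ fun i => measurable_pi_apply _
  have h2 : Measurable (dn : (ℤ → ℕ) → ℕ → ℕ) :=
    measurable_pi_lambda _ fun i => measurable_pi_apply _
  exact (h1 (measurableSet_side J K x)).inter (h2 (measurableSet_side J K x))

theorem zeroone_tail {J K : ℕ} (X X' : ℤ → ℕ) (M : ℕ)
    (he : ∀ i : ℤ, (M : ℤ) ≤ |i| → X i = X' i)
    (h : ∀ N, ∃ x, N ≤ x ∧ Side J K x (up X) ∧ Side J K x (dn X)) (N : ℕ) :
    ∃ x, N ≤ x ∧ Side J K x (up X') ∧ Side J K x (dn X') := by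
  obtain ⟨x, hx, h1, h2⟩ :=
    h (N + (∑ i ∈ Finset.Icc (-(M : ℤ)) M, (X i + X' i) + 1))
  have hb : ∀ i : ℤ, -(M : ℤ) ≤ i → i ≤ M → X i < x ∧ X' i < x := by
    intro i a1 a2
    have := Finset.single_le_sum (f := fun i => X i + X' i) (fun _ _ => Nat.zero_le _)
      (Finset.mem_Icc.2 ⟨a1, a2⟩)
    constructor <;> omega
  refine ⟨x, by omega, side_modify (N := M) h1 (fun i hi => he _ ?_)
    (fun i hi => (hb _ (by omega) (by omega)).1) (fun i hi => (hb _ (by omega) (by omega)).2),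
    side_modify (N := M) h2 (fun i hi => he _ ?_)
    (fun i hi => (hb _ (by omega) (by omega)).1) (fun i hi => (hb _ (by omega) (by omega)).2)⟩
  · exact le_abs.2 (Or.inl (by omega))
  · exact le_abs.2 (Or.inr (by omega))

/-- The decreasing events `∃ x ≥ N` have measure at least `(1 - b) ^ 2`; `zero_one` with
`side_modify`. -/
theorem ae_sides {J K L : ℕ} {b : ℝ≥0∞} (hb : b < 1)
    (h : ∀ x, L ≤ x → nu μ {Y | ¬ Side J K x Y} ≤ b) :
    ∀ᵐ X ∂(Measure.infinitePi fun _ : ℤ => μ),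
      ∀ N, ∃ x, N ≤ x ∧ Side J K x (up X) ∧ Side J K x (dn X) := by
  let B : ℕ → Set (ℤ → ℕ) := fun N =>
    {X | ∃ x, N ≤ x ∧ Side J K x (up X) ∧ Side J K x (dn X)}
  have hB : ∀ N, MeasurableSet (B N) := fun N =>
    measurableSet_setOfPred.2 (Measurable.exists fun x =>
      measurable_const.and (measurableSet_setOfPred.1 (zeroone_mside J K x)))
  have hanti : Antitone B := fun N N' hN X ⟨x, h1, h2⟩ => ⟨x, hN.trans h1, h2⟩
  have hA : MeasurableSet (⋂ N, B N) := MeasurableSet.iInter hB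
  have hone : ∀ x, L ≤ x → 1 - b ≤ nu μ {Y | Side J K x Y} := by
    intro x hx
    have h1 := prob_compl_eq_one_sub (μ := nu μ) (measurableSet_side J K x).compl
    rw [compl_compl] at h1
    rw [h1]
    exact tsub_le_tsub_left (h x hx) 1
  have hlow : ∀ N, (1 - b) * (1 - b) ≤ Measure.infinitePi (fun _ : ℤ => μ) (B N) := by
    intro N
    have h1 := two_sided μ (measurableSet_side J K (max N L)) (measurableSet_side J K (max N L))
    have h2 := hone (max N L) (le_max_right _ _)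
    refine (mul_le_mul' h2 h2).trans (h1.symm.le.trans (measure_mono fun X hX => ?_))
    exact ⟨max N L, le_max_left _ _, hX⟩
  have hpos : (1 - b) * (1 - b) ≠ 0 :=
    mul_ne_zero (tsub_pos_of_lt hb).ne' (tsub_pos_of_lt hb).ne'
  have hinf : (1 - b) * (1 - b) ≤ Measure.infinitePi (fun _ : ℤ => μ) (⋂ N, B N) := by
    rw [hanti.measure_iInter (fun N => (hB N).nullMeasurableSet) ⟨0, measure_ne_top _ _⟩]
    exact le_iInf hlow
  have h01 := zero_one μ hA fun X X' M he hX =>
    mem_iInter.2 (zeroone_tail X X' M he (mem_iInter.1 hX))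
  have h1 : Measure.infinitePi (fun _ : ℤ => μ) (⋂ N, B N) = 1 :=
    h01.resolve_left fun h0 => hpos (le_zero_iff.1 (h0 ▸ hinf))
  have h2 : ∀ᵐ X ∂(Measure.infinitePi fun _ : ℤ => μ), X ∈ ⋂ N, B N :=
    (prob_compl_eq_zero_iff hA).2 h1
  filter_upwards [h2] with X hX using mem_iInter.1 hX

end Pool.Agent.Lib.MP_c59c01_pr.TH
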