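import Pool.Agent.Lib.MP_c59c01_pr.TH.SideP
import Pool.Agent.Lib.MP_c59c01_pr.TH.ZeroOne
import Pool.Agent.Lib.MP_c59c01_pr.TH.QA2
import Pool.Agent.Lib.MP_c59c01_pr.TH.QB
import Pool.Agent.Lib.MP_c59c01_pr.TH.Super
import Pool.Agent.Lib.MP_c59c01_pr.TH.Rec
import Pool.Agent.Lib.MP_c59c01_pr.TH.EnvB

set_option autoImplicit false

open MeasureTheory ProbabilityTheory Set Filter Topology
open scoped ENNReal

namespace Pool.Agent.Lib.MP_c59c01_pr.TH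

/-! Glue. -/

theorem low_zero (μ : Measure ℕ) [IsProbabilityMeasure μ] (h0 : μ {0} = 0) {θ : ℝ} (hθ : θ < 1 / 2)
    (h1 : Tendsto (fun n => tl μ (2 * n) / tl μ n) atTop (𝓝 1))
    (h2 : Tendsto (fun n => tl μ (2 ^ n) / tl μ n) atTop (𝓝 θ)) {m : ℕ} (p : unitInterval)
    (hp : (2 : ℝ≥0∞) ^ (m + 1) * ((3 ^ (m + 1) : ℕ) * (unitInterval.toNNReal p : ℝ≥0∞)) ≤ 2⁻¹) :
    ∀ᵐ X ∂(Measure.infinitePi fun _ : ℤ => μ), ∀ q : unitInterval, q < 1 → theta m X p q = 0 := by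
  have hpos := tl_pos h1
  obtain ⟨a, L₀, ha0, ha, hL⟩ := asym_low h1 h2 hθ
  obtain ⟨δ, hδ0, hδ1, hgw⟩ := gw μ hpos ha0 ha hL
  have hJ : ∀ J : ℕ, ∃ K : ℕ, ∀ᵐ X ∂(Measure.infinitePi fun _ : ℤ => μ),
      ∀ N, ∃ x, N ≤ x ∧ Side J K x (up X) ∧ Side J K x (dn X) := by
    intro J
    obtain ⟨K, hK, hN⟩ := hgw (max L₀ (2 ^ J)) (le_max_left _ _)
    refine ⟨K, ae_sides μ (L := max L₀ (2 ^ J)) (b := ENNReal.ofReal (1 - δ / 2)) ?_ ?_⟩
    · rw [← ENNReal.ofReal_one]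
      exact (ENNReal.ofReal_lt_ofReal_iff one_pos).2 (by linarith)
    · intro x hx
      refine side_prob μ hpos hδ0 hδ1 (le_max_right _ _) hK hx hN ?_
      have h3 : L₀ ≤ 2 ^ x := ((le_max_left _ _).trans hx).trans Nat.lt_two_pow_self.le
      have h4 := hL _ h3
      rw [Nat.clog_pow 2 x (by norm_num)] at h4
      have h5 := hpos x
      nlinarith
  choose K hK using hJ
  have hX : ∀ᵐ X ∂(Measure.infinitePi fun _ : ℤ => μ), ∀ i, 1 ≤ X i := by
    rw [ae_all_iff]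
    intro i
    have hm := measurePreserving_eval_infinitePi (fun _ : ℤ => μ) i
    have h3 : ∀ᵐ y ∂μ, 1 ≤ y := by
      rw [ae_iff]
      refine measure_mono_null (fun y hy => ?_) h0
      simp only [mem_ofPred_eq, not_le] at hy
      simp only [mem_singleton_iff]
      omega
    exact hm.quasiMeasurePreserving.ae h3
  filter_upwards [hX, ae_all_iff.2 hK] with X hX1 hX2 q hq
  refine theta_zero hX1 p q hp hq fun J => ⟨K J, fun N => ?_⟩
  obtain ⟨x, hx, s1, s2⟩ := hX2 J (∑ i ∈ Finset.Icc (-(N : ℤ)) N, X i + 1)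
  refine ccut_of_side s1 s2 fun i hi => ?_
  have h3 : X i ≤ ∑ i ∈ Finset.Icc (-(N : ℤ)) N, X i :=
    Finset.single_le_sum (f := X) (fun _ _ => Nat.zero_le _) (Finset.mem_Icc.2 (abs_le.1 hi))
  omega

theorem high_pos (μ : Measure ℕ) [IsProbabilityMeasure μ] (h0 : μ {0} = 0) {θ : ℝ} (hθ : 1 / 2 < θ)
    (h1 : Tendsto (fun n => tl μ (2 * n) / tl μ n) atTop (𝓝 1))
    (h2 : Tendsto (fun n => tl μ (2 ^ n) / tl μ n) atTop (𝓝 θ)) {m : ℕ} (hm : 1 ≤ m)
    (p q : unitInterval) (hp : 0 < (p : ℝ)) (hpq : p ≤ q) (hq : (999 / 1000 : ℝ) ≤ q) :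
    0 < Measure.infinitePi (fun _ : ℤ => μ) {X | 0 < theta m X p q} := by
  have hpos := tl_pos h1
  obtain ⟨c, ε, hε, hth⟩ := theta_pos hm hp
  obtain ⟨a, y, ha, hy, hev⟩ := asym_high h1 h2 hθ c
  obtain ⟨Φ, hΦ, hs, hrec⟩ := super (T := tl μ) hpos (tl_le_one μ) (tl_anti μ)
    (fun δ hδ => asym_step h1 hδ) (asym_sqrt h1) ha hy (G := fun l => 2 ^ (c * (y l * y l)) ≤ l) hev
  have hP := path_prob μ hpos (c := c) hΦ hs (fun l hl => cost_le μ h0 hpos hΦ hrec hl)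
    (by filter_upwards [asym_step h1 one_pos] with l hl; linarith) hε
  have hf : Function.Injective fun i : ℕ => (i : ℤ) + 1 := fun i j h => by
    simp only at h
    omega
  have hmp := pres_comp (fun _ : ℤ => μ) hf
  have h3 : Measure.infinitePi (fun _ : ℤ => μ) {X | ¬ Path c (up X) ε} < 1 := by
    refine lt_of_le_of_lt ?_ hP
    have h4 := Measure.le_map_apply (μ := Measure.infinitePi fun _ : ℤ => μ)
      hmp.measurable.aemeasurable {Y | ¬ Path c Y ε}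
    rw [hmp.map_eq] at h4
    exact h4
  rw [pos_iff_ne_zero]
  intro h5
  have h6 : (univ : Set (ℤ → ℕ)) ⊆ {X | ¬ Path c (up X) ε} ∪ {X | 0 < theta m X p q} := by
    intro X _
    by_cases h : Path c (up X) ε
    · exact Or.inr (hth q X hpq hq h)
    · exact Or.inl h
  have h7 := (measure_mono (μ := Measure.infinitePi fun _ : ℤ => μ) h6).trans (measure_union_le _ _)
  rw [h5, add_zero, measure_univ] at h7
  exact absurd h3 (not_lt.2 h7)

theorem exists_small (m : ℕ) : ∃ p : unitInterval, 0 < (p : ℝ) ∧ (p : ℝ) < pc m ∧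
    (2 : ℝ≥0∞) ^ (m + 1) * ((3 ^ (m + 1) : ℕ) * (unitInterval.toNNReal p : ℝ≥0∞)) ≤ 2⁻¹ := by
  have h6 : (1 : ℝ) ≤ 6 ^ (m + 1) := one_le_pow₀ (by norm_num)
  have h63 : (6 : ℝ) ^ (m + 1) = 2 ^ (m + 1) * 3 ^ (m + 1) := by rw [← mul_pow]; norm_num
  have h2 : (2 : ℝ) ≤ 2 ^ (m + 1) := le_self_pow₀ (by norm_num) (by omega)
  let p : unitInterval := ⟨1 / (2 * 6 ^ (m + 1)), by positivity, by
    rw [div_le_one (by positivity)]; linarith⟩
  let p' : unitInterval := ⟨1 / 6 ^ (m + 1), by positivity, by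
    rw [div_le_one (by positivity)]; linarith⟩
  have hp : (p : ℝ) = 1 / (2 * 6 ^ (m + 1)) := rfl
  have hp' : (p' : ℝ) = 1 / 6 ^ (m + 1) := rfl
  refine ⟨p, by rw [hp]; positivity, lt_pc p p' ?_ ?_, ?_⟩
  · rw [hp, hp']
    exact one_div_lt_one_div_of_lt (by positivity) (by linarith)
  · have h : ((3 ^ (m + 1) : ℕ) : NNReal) * unitInterval.toNNReal p' < 1 := by
      rw [← NNReal.coe_lt_coe]
      push_cast
      change (3 : ℝ) ^ (m + 1) * (p' : ℝ) < 1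
      rw [hp', h63, mul_one_div, div_lt_one (by positivity)]
      have : (0 : ℝ) < 3 ^ (m + 1) := by positivity
      nlinarith
    exact_mod_cast h
  · have h : (2 : NNReal) ^ (m + 1) * (((3 ^ (m + 1) : ℕ) : NNReal) * unitInterval.toNNReal p)
        ≤ 2⁻¹ := by
      rw [← NNReal.coe_le_coe]
      push_cast
      change (2 : ℝ) ^ (m + 1) * ((3 : ℝ) ^ (m + 1) * (p : ℝ)) ≤ 2⁻¹
      rw [hp, h63]
      apply le_of_eq
      field_simp
    have h' := ENNReal.coe_le_coe.2 h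
    simpa using h'

theorem pc_le_one (m : ℕ) : pc m ≤ 1 := by
  refine Real.sSup_le ?_ zero_le_one
  rintro r ⟨s, rfl, -⟩
  exact s.2.2

theorem main (μ : Measure ℕ) [IsProbabilityMeasure μ] (h0 : μ {0} = 0) {θ : ℝ} (hθ : θ ≠ 1 / 2)
    (h1 : Tendsto (fun n => tl μ (2 * n) / tl μ n) atTop (𝓝 1))
    (h2 : Tendsto (fun n => tl μ (2 ^ n) / tl μ n) atTop (𝓝 θ)) {m : ℕ} (hm : 1 ≤ m) :
    (∀ p : unitInterval, 0 < (p : ℝ) → (p : ℝ) < pc m → ∃ q₀ : ℝ, q₀ < 1 ∧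
      ∀ q : unitInterval, q₀ < q → (q : ℝ) < 1 →
        0 < Measure.infinitePi (fun _ : ℤ => μ) {X | 0 < theta m X p q}) ↔ 1 / 2 < θ := by
  constructor
  · intro h
    by_contra hc
    have hlt : θ < 1 / 2 := lt_of_le_of_ne (not_lt.1 hc) hθ
    obtain ⟨p, hp0, hp1, hp⟩ := exists_small m
    obtain ⟨q₀, hq₀, hq⟩ := h p hp0 hp1
    have hm1 : max q₀ 0 < 1 := max_lt hq₀ one_pos
    have hm0 : 0 ≤ max q₀ 0 := le_max_right _ _
    have hm2 : q₀ ≤ max q₀ 0 := le_max_left _ _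
    let q : unitInterval := ⟨(max q₀ 0 + 1) / 2, by linarith, by linarith⟩
    have hqv : (q : ℝ) = (max q₀ 0 + 1) / 2 := rfl
    have hq1 : (q : ℝ) < 1 := by rw [hqv]; linarith
    have h3 := hq q (by rw [hqv]; linarith) hq1
    have h4 := low_zero μ h0 hlt h1 h2 p hp
    refine absurd ?_ h3.ne'
    refine measure_mono_null (fun X hX => ?_) (ae_iff.1 h4)
    intro h5
    have h6 := h5 q (by exact_mod_cast hq1)
    simp only [mem_ofPred_eq] at hX
    exact hX.ne' h6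
  · intro h p hp0 hp1
    refine ⟨max p (999 / 1000), max_lt (hp1.trans_le (pc_le_one m)) (by norm_num), ?_⟩
    intro q hq _
    refine high_pos μ h0 h h1 h2 hm p q hp0 ?_ ((le_max_right _ _).trans hq.le)
    exact_mod_cast (le_max_left _ _).trans hq.le

end Pool.Agent.Lib.MP_c59c01_pr.TH
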