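import Pool.Agent.Lib.MP_c59c01_pr.TH.Base

set_option autoImplicit false

open MeasureTheory ProbabilityTheory Set Filter Topology
open scoped ENNReal

namespace Pool.Agent.Lib.MP_c59c01_pr.TH

/-! No percolation when there are closed cuts at infinitely many scales. Adapt `finite_of_cuts`,
`measure_bypass_le`, `measure_no_cut_le`, `theta_eq_zero` of the file `Env`. -/

/-- A closed cut: lower block `n', ..., n' + k' - 1`, upper block `n, ..., n + k - 1`. -/
structure CCut (X : ℤ → ℕ) (J K : ℕ) (n' : ℤ) (k' : ℕ) (n : ℤ) (k : ℕ) : Prop where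
  lo : n' + k' ≤ 0
  hi : 1 ≤ n
  k1 : 1 ≤ k ∧ k ≤ K
  k2 : 1 ≤ k' ∧ k' ≤ K
  s1 : ∀ i < k, X (n + (i : ℕ)) ≤ K
  s2 : ∀ i < k', X (n' + (i : ℕ)) ≤ K
  j1 : J ≤ ∑ i ∈ Finset.Ico n (n + k), X i
  j2 : J ≤ ∑ i ∈ Finset.Ico n' (n' + k'), X i
  up : ∀ a b, n' + k' ≤ a → a < n → n + k ≤ b → min (X a) (X b) ≤ 2 ^ ∑ i ∈ Finset.Ioo a b, X i
  down : ∀ a b, a < n' → n' + k' ≤ b → b < n → min (X a) (X b) ≤ 2 ^ ∑ i ∈ Finset.Ioo a b, X i

/-- An open path outside the region joins an inner box to an outer box. -/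
def leak (m : ℕ) (X : ℤ → ℕ) (n' : ℤ) (k' : ℕ) (n : ℤ) (k : ℕ) : Set (Sym2 (Vtx m) → Bool) :=
  {ω | ∃ a b : ℤ, n' + k' ≤ a ∧ a < n ∧ (n + k ≤ b ∨ b < n') ∧ ∃ x ∈ bx m X a, ∃ y ∈ bx m X b,
    (subOpen (lattice m) (outE m X) ω).Reachable x y}

theorem qa_gap_up (X : ℤ → ℕ) (a b : ℕ) :
    gap (up X) a b = ∑ i ∈ Finset.Ioo ((a : ℤ) + 1) ((b : ℤ) + 1), X i := by
  unfold gap up
  refine Finset.sum_nbij' (fun i : ℕ => (i : ℤ) + 1) (fun i : ℤ => (i - 1).toNat) ?_ ?_ ?_ ?_ ?_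
  · intro i hi
    simp only [Finset.mem_Ioo] at hi ⊢
    omega
  · intro i hi
    simp only [Finset.mem_Ioo] at hi ⊢
    omega
  · intro i _
    simp
  · intro i hi
    simp only [Finset.mem_Ioo] at hi
    omega
  · intro i _
    rfl

theorem qa_gap_dn (X : ℤ → ℕ) (a b : ℕ) :
    gap (dn X) a b = ∑ i ∈ Finset.Ioo (-1 - (b : ℤ)) (-1 - (a : ℤ)), X i := by
  unfold gap dn
  refine Finset.sum_nbij' (fun i : ℕ => -1 - (i : ℤ)) (fun i : ℤ => (-1 - i).toNat) ?_ ?_ ?_ ?_ ?_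
  · intro i hi
    simp only [Finset.mem_Ioo] at hi ⊢
    omega
  · intro i hi
    simp only [Finset.mem_Ioo] at hi ⊢
    omega
  · intro i _
    simp
  · intro i hi
    simp only [Finset.mem_Ioo] at hi
    omega
  · intro i _
    rfl

theorem qa_block_up (X : ℤ → ℕ) (n k : ℕ) :
    ∑ i ∈ Finset.range k, up X (n + i) =
      ∑ i ∈ Finset.Ico ((n : ℤ) + 1) ((n : ℤ) + 1 + k), X i := by
  unfold up
  refine Finset.sum_nbij' (fun i : ℕ => (n : ℤ) + 1 + i) (fun i : ℤ => (i - 1 - n).toNat)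
    ?_ ?_ ?_ ?_ ?_
  · intro i hi
    simp only [Finset.mem_Ico, Finset.mem_range] at hi ⊢
    omega
  · intro i hi
    simp only [Finset.mem_Ico, Finset.mem_range] at hi ⊢
    omega
  · intro i _
    omega
  · intro i hi
    simp only [Finset.mem_Ico] at hi
    omega
  · intro i _
    congr 1
    push_cast
    ring

theorem qa_block_dn (X : ℤ → ℕ) (n k : ℕ) :
    ∑ i ∈ Finset.range k, dn X (n + i) =
      ∑ i ∈ Finset.Ico (-((n : ℤ) + k)) (-((n : ℤ) + k) + k), X i := by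
  unfold dn
  refine Finset.sum_nbij' (fun i : ℕ => -1 - (n : ℤ) - i) (fun i : ℤ => (-1 - n - i).toNat)
    ?_ ?_ ?_ ?_ ?_
  · intro i hi
    simp only [Finset.mem_Ico, Finset.mem_range] at hi ⊢
    omega
  · intro i hi
    simp only [Finset.mem_Ico, Finset.mem_range] at hi ⊢
    omega
  · intro i _
    omega
  · intro i hi
    simp only [Finset.mem_Ico] at hi
    omega
  · intro i _
    congr 1
    push_cast
    ring

theorem qa_between {X : ℤ → ℕ} {x y : ℕ} {a b c : ℤ} (hy : y ≤ 2 ^ x) (hc : x ≤ X c) (h1 : a < c)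
    (h2 : c < b) : y ≤ 2 ^ ∑ i ∈ Finset.Ioo a b, X i :=
  hy.trans (Nat.pow_le_pow_right (by norm_num) (hc.trans
    (Finset.single_le_sum (f := X) (fun _ _ => Nat.zero_le _) (Finset.mem_Ioo.2 ⟨h1, h2⟩))))

/-- Blocks `n₁ + 1` and `-(n₂ + k₂)`. An inner value on the other side of the origin, or at the
origin, is at most `2 ^ x`, and a value at least `x` lies between. -/
theorem ccut_of_side {X : ℤ → ℕ} {J K x N : ℕ} (h1 : Side J K x (up X)) (h2 : Side J K x (dn X))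
    (hN : ∀ i : ℤ, |i| ≤ N → X i < x) :
    ∃ (n' : ℤ) (k' : ℕ) (n : ℤ) (k : ℕ), CCut X J K n' k' n k ∧ (N : ℤ) ≤ n ∧ n' + k' ≤ -N := by
  obtain ⟨n₁, k₁, a1, a2, a3, a4, a5, ⟨c₁, hc₁, hx₁⟩, a7⟩ := h1
  obtain ⟨n₂, k₂, b1, b2, b3, b4, b5, ⟨c₂, hc₂, hx₂⟩, b7⟩ := h2
  have hin : ∀ a : ℤ, -(n₂ : ℤ) ≤ a → a < (n₁ : ℤ) + 1 → X a ≤ 2 ^ x := by
    intro a ha hb
    rcases lt_trichotomy a 0 with h | h | h
    · have := b5 (-1 - a).toNat (by omega)
      unfold dn at this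
      rwa [show -1 - (((-1 - a).toNat : ℕ) : ℤ) = a by omega] at this
    · subst h
      exact (hN 0 (by simp)).le.trans Nat.lt_two_pow_self.le
    · have := a5 (a - 1).toNat (by omega)
      unfold up at this
      rwa [show (((a - 1).toNat : ℕ) : ℤ) + 1 = a by omega] at this
  unfold up at hx₁
  unfold dn at hx₂
  have hN₁ : N < c₁ + 1 := by
    by_contra h
    have := hN ((c₁ : ℤ) + 1) (by rw [abs_le]; omega)
    omega
  have hN₂ : N < c₂ + 1 := by
    by_contra h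
    have := hN (-1 - (c₂ : ℤ)) (by rw [abs_le]; omega)
    omega
  refine ⟨-((n₂ : ℤ) + k₂), k₂, (n₁ : ℤ) + 1, k₁,
    ⟨by omega, by omega, ⟨a1, a2⟩, ⟨b1, b2⟩, ?_, ?_, ?_, ?_, ?_, ?_⟩, by omega, by omega⟩
  · intro i hi
    have := a3 i hi
    unfold up at this
    rwa [show ((n₁ + i : ℕ) : ℤ) + 1 = (n₁ : ℤ) + 1 + i by omega] at this
  · intro i hi
    have := b3 (k₂ - 1 - i) (by omega)
    unfold dn at this
    rwa [show -1 - ((n₂ + (k₂ - 1 - i) : ℕ) : ℤ) = -((n₂ : ℤ) + k₂) + i by omega] at this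
  · rw [← qa_block_up]
    exact a4
  · rw [← qa_block_dn]
    exact b4
  · intro a b ha hb hab
    by_cases h : 1 ≤ a
    · have := a7 (a - 1).toNat (b - 1).toNat (by omega) (by omega)
      rw [qa_gap_up] at this
      unfold up at this
      rwa [show (((a - 1).toNat : ℕ) : ℤ) + 1 = a by omega,
        show (((b - 1).toNat : ℕ) : ℤ) + 1 = b by omega] at this
    · exact qa_between ((min_le_left _ _).trans (hin a (by omega) hb)) hx₁ (by omega) (by omega)
  · intro a b ha hb hab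
    by_cases h : b ≤ -1
    · have := b7 (-1 - b).toNat (-1 - a).toNat (by omega) (by omega)
      rw [qa_gap_dn] at this
      unfold dn at this
      rwa [show -1 - (((-1 - a).toNat : ℕ) : ℤ) = a by omega,
        show -1 - (((-1 - b).toNat : ℕ) : ℤ) = b by omega, min_comm] at this
    · exact qa_between ((min_le_right _ _).trans (hin b (by omega) hab)) hx₂ (by omega) (by omega)

/-- Every vertex of the cluster is reached by outside edges from an inner box. -/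
theorem finite_of_ccut {m : ℕ} {X : ℤ → ℕ} (hX : ∀ i, 1 ≤ X i) {J K : ℕ} {n' n : ℤ} {k' k : ℕ}
    (h : CCut X J K n' k' n k) {ω : Sym2 (Vtx m) → Bool} (h1 : ω ∈ allEq (cutE m X n k) false)
    (h2 : ω ∈ allEq (cutE m X n' k') false) (h3 : ω ∉ leak m X n' k' n k)
    (hfin : ∀ x, Set.Finite {y | (subOpen (lattice m) (outE m X) ω).Reachable x y}) :
    Set.Finite {y | (openGraph ω).Reachable 0 y} := by
  have hF : Set.Finite (⋃ i ∈ Finset.Ico (n' + k') n, ⋃ u ∈ bxF m X i,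
      {y | (subOpen (lattice m) (outE m X) ω).Reachable u y}) :=
    (Finset.Ico (n' + k') n).finite_toSet.biUnion fun i _ =>
      (bxF m X i).finite_toSet.biUnion fun u _ => hfin u
  refine hF.subset fun y hy => ?_
  have hlo := h.lo
  have hhi := h.hi
  have hk1 := h.k1.1
  have hk2 := h.k2.1
  have key : ∃ a, n' + k' ≤ a ∧ a < n ∧ ∃ u ∈ bx m X a,
      (subOpen (lattice m) (outE m X) ω).Reachable u y := by
    refine reachable_induction
      (p := fun v => ∃ a, n' + k' ≤ a ∧ a < n ∧ ∃ u ∈ bx m X a,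
        (subOpen (lattice m) (outE m X) ω).Reachable u v)
      ?_ hy ⟨0, hlo, by omega, 0, zero_mem_bx m X, SimpleGraph.Reachable.refl _⟩
    rintro v v' ⟨a, ha1, ha2, u, hu, huv⟩ hvv'
    rw [openGraph_adj] at hvv'
    by_cases hS : s(v, v') ∈ outE m X
    · exact ⟨a, ha1, ha2, u, hu, huv.trans
        (SimpleGraph.Adj.reachable ((subOpen_adj _ _ _ _ _).2 ⟨hvv'.1, hS, hvv'.2⟩))⟩
    · have hR : ∀ z ∈ s(v, v'), z ∈ region m X := by
        by_contra hc; exact hS hc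
      have hR' : ∀ z ∈ s(v', v), z ∈ region m X := by
        rw [Sym2.eq_swap]; exact hR
      obtain ⟨i, hi⟩ := mem_region_iff.1 (hR v (by simp))
      obtain ⟨j, hj⟩ := mem_region_iff.1 (hR v' (by simp))
      have c1 : ∀ {N : ℤ} {l : ℕ}, ω ∈ allEq (cutE m X N l) false →
          ¬ (N ≤ i ∧ i < N + l) ∧ ¬ (N ≤ j ∧ j < N + l) := fun hQ => ⟨fun c => by
        have := hQ _ (mem_cutE hvv'.1 hR c.1 c.2 hi)
        rw [hvv'.2] at this; exact absurd this (by simp), fun c => by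
        have := hQ _ (mem_cutE hvv'.1.symm hR' c.1 c.2 hj)
        rw [Sym2.eq_swap, hvv'.2] at this; exact absurd this (by simp)⟩
      have c2 := c1 h1
      have c3 := c1 h2
      have c4 : ¬ (n + k ≤ i ∨ i < n') := fun c => h3 ⟨a, i, ha1, ha2, c, u, hu, v, hi, huv⟩
      have a1 := height_of_mem_bx hi
      have a2 := height_of_mem_bx hj
      have a4 := adj_height hvv'.1
      have c5 : ¬ i + 2 ≤ j := fun c => by
        have a3 := bot_le_bot hX (show i + 1 ≤ j by omega)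
        omega
      have c6 : ¬ j + 2 ≤ i := fun c => by
        have a3 := bot_le_bot hX (show j + 1 ≤ i by omega)
        omega
      exact ⟨j, by omega, by omega, v', hj, SimpleGraph.Reachable.refl _⟩
  obtain ⟨a, ha1, ha2, u, hu, huy⟩ := key
  simp only [mem_iUnion]
  exact ⟨a, Finset.mem_Ico.2 ⟨ha1, ha2⟩, u, mem_boxF hu, huy⟩

theorem measure_leak_le_height (X : ℤ → ℕ) {a b : ℤ} (h : a + 1 ≤ b) :
    bot X (a + 1) + (∑ i ∈ Finset.Ioo a b, X i : ℕ) ≤ bot X b := by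
  induction b, h using Int.leInduction with
  | base =>
    have : Finset.Ioo a (a + 1) = ∅ := by
      ext x; simp only [Finset.mem_Ioo, Finset.notMem_empty, iff_false]; omega
    simp [this]
  | succ b hb ih =>
    have : Finset.Ioo a (b + 1) = insert b (Finset.Ioo a b) := by
      ext x; simp only [Finset.mem_Ioo, Finset.mem_insert]; omega
    rw [this, Finset.sum_insert (by simp), bot_succ X b]
    have e : bot X b = center X b - X b := rfl
    omega

theorem measure_leak_le_gap {X : ℤ → ℕ} (hX : ∀ i, 1 ≤ X i) {n : ℤ} {k J : ℕ}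
    (hJ : J ≤ ∑ i ∈ Finset.Ico n (n + k), X i) (s t : ℕ) :
    J + s + t ≤ ∑ i ∈ Finset.Ioo (n - 1 - s) (n + k + t), X i := by
  have hs : Finset.Ico n (n + k) ⊆ Finset.Ioo (n - 1 - s) (n + k + t) := by
    intro x
    simp only [Finset.mem_Ioo, Finset.mem_Ico]
    omega
  have h1 := Finset.card_nsmul_le_sum (Finset.Ioo (n - 1 - s) (n + k + t) \ Finset.Ico n (n + k))
    (fun i => X i) 1 fun i _ => hX i
  rw [Finset.card_sdiff_of_subset hs, Int.card_Ioo, Int.card_Ico, smul_eq_mul] at h1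
  rw [← Finset.sum_sdiff hs]
  omega

/-- An open path outside the region joins two boxes across the block. -/
def measure_leak_le_ev (m : ℕ) (X : ℤ → ℕ) (a b : ℤ) : Set (Sym2 (Vtx m) → Bool) :=
  {ω | min (X a) (X b) ≤ 2 ^ ∑ i ∈ Finset.Ioo a b, X i ∧ ∃ x ∈ bx m X a, ∃ y ∈ bx m X b,
    (subOpen (lattice m) (outE m X) ω).Reachable x y}

theorem measure_leak_le_pair {m : ℕ} {X : ℤ → ℕ} (p q : unitInterval)
    (hp : (2 : ℝ≥0∞) ^ (m + 1) * ((3 ^ (m + 1) : ℕ) * (unitInterval.toNNReal p : ℝ≥0∞)) ≤ 2⁻¹)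
    {B : Set (Sym2 (Vtx m) → Bool)} (hB : MeasurableSet[coordAlg (outE m X)ᶜ] B) {a b : ℤ}
    (hab : a + 1 ≤ b) : PB (edgeProb m X p q) (B ∩ measure_leak_le_ev m X a b) ≤
      PB (edgeProb m X p q) B * (4 ^ (m + 1) * 2⁻¹ ^ ∑ i ∈ Finset.Ioo a b, X i) := by
  have hh : ∀ x ∈ bx m X a, ∀ y ∈ bx m X b,
      ∑ i ∈ Finset.Ioo a b, X i ≤ (x.2 - y.2).natAbs := by
    intro x hx y hy
    have a1 := (height_of_mem_bx hx).2
    have a2 := (height_of_mem_bx hy).1
    have a3 := measure_leak_le_height X hab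
    omega
  by_cases h0 : min (X a) (X b) ≤ 2 ^ ∑ i ∈ Finset.Ioo a b, X i
  · rcases min_le_iff.1 h0 with h | h
    · refine le_trans (measure_mono ?_) (measure_from_box_le p q hp hB _ _ h)
      rintro ω ⟨hωB, -, x, hx, y, hy, hxy⟩
      refine ⟨hωB, ?_⟩
      simp only [mem_iUnion]
      exact ⟨x, mem_boxF hx, mem_longTrail_of_reachable _ _ _ hxy fun w =>
        (hh x hx y hy).trans (height_le_length w)⟩
    · refine le_trans (measure_mono ?_) (measure_from_box_le p q hp hB _ _ h)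
      rintro ω ⟨hωB, -, x, hx, y, hy, hxy⟩
      refine ⟨hωB, ?_⟩
      simp only [mem_iUnion]
      refine ⟨y, mem_boxF hy, mem_longTrail_of_reachable _ _ _ hxy.symm fun w => ?_⟩
      have a1 := hh x hx y hy
      have a2 := height_le_length w
      omega
  · have : B ∩ measure_leak_le_ev m X a b = ∅ :=
      eq_empty_of_forall_notMem fun ω hω => h0 hω.2.1
    rw [this, measure_empty]
    exact zero_le

theorem measure_leak_le_side {m : ℕ} {X : ℤ → ℕ} (hX : ∀ i, 1 ≤ X i) (p q : unitInterval)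
    (hp : (2 : ℝ≥0∞) ^ (m + 1) * ((3 ^ (m + 1) : ℕ) * (unitInterval.toNNReal p : ℝ≥0∞)) ≤ 2⁻¹)
    {B : Set (Sym2 (Vtx m) → Bool)} (hB : MeasurableSet[coordAlg (outE m X)ᶜ] B) {n : ℤ}
    {k J : ℕ} (hJ : J ≤ ∑ i ∈ Finset.Ico n (n + k), X i) :
    PB (edgeProb m X p q)
      (⋃ s : ℕ, ⋃ t : ℕ, B ∩ measure_leak_le_ev m X (n - 1 - s) (n + k + t)) ≤
      PB (edgeProb m X p q) B * (4 ^ (m + 1) * 4 * 2⁻¹ ^ J) := by
  set P := PB (edgeProb m X p q)
  have hst : ∀ s t : ℕ, P (B ∩ measure_leak_le_ev m X (n - 1 - s) (n + k + t)) ≤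
      P B * (4 ^ (m + 1) * 2⁻¹ ^ (J + s + t)) := fun s t =>
    (measure_leak_le_pair p q hp hB (by omega)).trans (mul_le_mul_right (mul_le_mul_right
      (pow_le_pow_right_of_le_one' (by simp) (measure_leak_le_gap hX hJ s t)) _) _)
  refine (measure_iUnion_le _).trans ?_
  refine (ENNReal.tsum_le_tsum fun s => (measure_iUnion_le _).trans
    (ENNReal.tsum_le_tsum fun t => hst s t)).trans (le_of_eq ?_)
  have hg : ∑' t : ℕ, (2⁻¹ : ℝ≥0∞) ^ t = 2 := ENNReal.tsum_geometric_two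
  calc ∑' (s : ℕ) (t : ℕ), P B * (4 ^ (m + 1) * 2⁻¹ ^ (J + s + t))
      = ∑' (s : ℕ) (t : ℕ), (P B * (4 ^ (m + 1) * 2⁻¹ ^ J)) * 2⁻¹ ^ s * 2⁻¹ ^ t := by
        refine tsum_congr fun s => tsum_congr fun t => ?_
        rw [pow_add, pow_add]; ring
    _ = ∑' (s : ℕ), (P B * (4 ^ (m + 1) * 2⁻¹ ^ J)) * 2 * 2⁻¹ ^ s := by
        refine tsum_congr fun s => ?_
        rw [ENNReal.tsum_mul_left, hg]; ring
    _ = P B * (4 ^ (m + 1) * 4 * 2⁻¹ ^ J) := by
        rw [ENNReal.tsum_mul_left, hg]; ring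

/-- For boxes `a < b` let `H` be the sum of the values between; the heights differ by at least
`H` (`bot_succ`), `measure_from_box_le` with `i = H`, and `H ≥ J + s + t` with `s`, `t` the
distances of `a`, `b` to the block. -/
theorem measure_leak_le {m : ℕ} {X : ℤ → ℕ} (hX : ∀ i, 1 ≤ X i) (p q : unitInterval)
    (hp : (2 : ℝ≥0∞) ^ (m + 1) * ((3 ^ (m + 1) : ℕ) * (unitInterval.toNNReal p : ℝ≥0∞)) ≤ 2⁻¹)
    {B : Set (Sym2 (Vtx m) → Bool)} (hB : MeasurableSet[coordAlg (outE m X)ᶜ] B) {J K : ℕ}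
    {n' n : ℤ} {k' k : ℕ} (h : CCut X J K n' k' n k) :
    PB (edgeProb m X p q) (B ∩ leak m X n' k' n k) ≤
      PB (edgeProb m X p q) B * (4 ^ (m + 1) * 8 * 2⁻¹ ^ J) := by
  have hsub : B ∩ leak m X n' k' n k ⊆
      (⋃ s : ℕ, ⋃ t : ℕ, B ∩ measure_leak_le_ev m X (n - 1 - s) (n + k + t)) ∪
      ⋃ s : ℕ, ⋃ t : ℕ, B ∩ measure_leak_le_ev m X (n' - 1 - s) (n' + k' + t) := by
    rintro ω ⟨hB, a, b, h1, h2, h3 | h3, x, hx, y, hy, hxy⟩
    · left
      simp only [mem_iUnion]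
      refine ⟨(n - 1 - a).toNat, (b - (n + k)).toNat, hB, ?_⟩
      rw [show n - 1 - ((n - 1 - a).toNat : ℤ) = a by omega,
        show n + k + ((b - (n + k)).toNat : ℤ) = b by omega]
      exact ⟨h.up a b h1 h2 h3, x, hx, y, hy, hxy⟩
    · right
      simp only [mem_iUnion]
      refine ⟨(n' - 1 - b).toNat, (a - (n' + k')).toNat, hB, ?_⟩
      rw [show n' - 1 - ((n' - 1 - b).toNat : ℤ) = b by omega,
        show n' + k' + ((a - (n' + k')).toNat : ℤ) = a by omega]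
      exact ⟨h.down b a h3 h1 h2, y, hy, x, hx, hxy.symm⟩
  refine ((measure_mono hsub).trans (measure_union_le _ _)).trans ((add_le_add
    (measure_leak_le_side hX p q hp hB h.j1) (measure_leak_le_side hX p q hp hB h.j2)).trans
    (le_of_eq ?_))
  ring

end Pool.Agent.Lib.MP_c59c01_pr.TH
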