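import Pool.Agent.Lib.MP_c59c01_pr.TH.Occ

set_option autoImplicit false

open MeasureTheory ProbabilityTheory Set Filter Topology
open scoped ENNReal

namespace Pool.Agent.Lib.MP_c59c01_pr.TH

/-! The crossing cost of a word. -/

variable {c : ℕ}

theorem cost_iUnion (Y : ℕ → ℕ) {ι : Type} (A : ι → Set (ℕ × ℕ)) :
    cost Y (⋃ i, A i) ≤ ∑' i, cost Y (A i) := by
  unfold cost
  rw [ENNReal.tsum_comm]
  refine ENNReal.tsum_le_tsum fun a => ?_
  by_cases ha : a ∈ ⋃ i, A i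
  · obtain ⟨i, hi⟩ := mem_iUnion.1 ha
    refine le_trans ?_ (ENNReal.le_tsum i)
    rw [indicator_of_mem ha, indicator_of_mem hi]
  · rw [indicator_of_notMem ha]
    exact zero_le

theorem segv_cost_union (Y : ℕ → ℕ) (A B : Set (ℕ × ℕ)) :
    cost Y (A ∪ B) ≤ cost Y A + cost Y B := by
  unfold cost
  rw [← ENNReal.tsum_add]
  refine ENNReal.tsum_le_tsum fun a => ?_
  by_cases ha : a ∈ A
  · rw [indicator_of_mem (mem_union_left B ha), indicator_of_mem ha]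
    exact le_self_add
  · by_cases hb : a ∈ B
    · rw [indicator_of_mem (mem_union_right A hb), indicator_of_mem hb]
      exact le_add_self
    · rw [indicator_of_notMem (fun h => h.elim ha hb)]
      exact zero_le

theorem segv_cost_single (Y : ℕ → ℕ) (a : ℕ × ℕ) :
    cost Y {a} = ((min (Y a.1) (Y a.2) : ℕ) : ℝ≥0∞)⁻¹ := by
  unfold cost
  rw [tsum_eq_single a fun b hb => indicator_of_notMem (fun h => hb (mem_singleton_iff.1 h)) _,
    indicator_of_mem (mem_singleton a)]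

theorem Seg.trans {Y : ℕ → ℕ} {s m e : ℕ} {t t' : ℝ≥0∞} (h : Seg c Y s m t) (h' : Seg c Y m e t') :
    Seg c Y s e (t + t') := by
  obtain ⟨A, ⟨b, hb⟩, hA, hc⟩ := h
  obtain ⟨B, ⟨b', hb'⟩, hB, hc'⟩ := h'
  refine ⟨A ∪ B, ⟨b, Or.inl hb⟩, fun a ha => ?_, (segv_cost_union Y A B).trans (add_le_add hc hc')⟩
  rcases ha with ha | ha
  · obtain ⟨h1, h2 | ⟨d, h2⟩⟩ := hA a ha
    · exact ⟨h1, Or.inr ⟨b', Or.inr (h2 ▸ hb')⟩⟩
    · exact ⟨h1, Or.inr ⟨d, Or.inl h2⟩⟩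
  · obtain ⟨h1, h2 | ⟨d, h2⟩⟩ := hB a ha
    · exact ⟨h1, Or.inl h2⟩
    · exact ⟨h1, Or.inr ⟨d, Or.inr h2⟩⟩

theorem V_arc {l : ℕ} {w : List ℕ} (h : 2 ^ (c * w.sum) ≤ l) : V c l w ≤ (l : ℝ≥0∞)⁻¹ := by
  refine sInf_le fun Y s hO h1 h2 => ?_
  refine ⟨{(s, s + 1 + w.length)}, ⟨_, rfl⟩, fun a ha => ?_, ?_⟩
  · rw [mem_singleton_iff.1 ha]
    refine ⟨⟨by dsimp only; omega, ?_⟩, Or.inl rfl⟩
    dsimp only
    rw [hO.gap]
    exact h.trans (le_min h1 h2)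
  · rw [segv_cost_single]
    exact ENNReal.inv_le_inv.2 (Nat.cast_le.2 (le_min h1 h2))

theorem V_split {l l' y : ℕ} (h1 : l' ≤ l) (h2 : l' ≤ y) (u v : List ℕ) :
    V c l (u ++ y :: v) ≤ V c l' u + V c l' v := by
  unfold V
  rw [ENNReal.sInf_add]
  refine le_iInf₂ fun t ht => ?_
  rw [add_comm, ENNReal.sInf_add]
  refine le_iInf₂ fun t' ht' => ?_
  rw [add_comm t' t]
  refine sInf_le fun Y s hO h3 h4 => ?_
  obtain ⟨hu, hv⟩ := occ_append.1 hO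
  obtain ⟨hy, hv⟩ := occ_cons.1 hv
  have e : s + 1 + (u ++ y :: v).length = s + 1 + u.length + 1 + v.length := by
    simp only [List.length_append, List.length_cons]
    omega
  rw [e] at h4 ⊢
  exact (ht Y s hu (h1.trans h3) (hy ▸ h2)).trans (ht' Y _ hv (hy ▸ h2) (h1.trans h4))

theorem V_triv {l : ℕ} (hl : 1 ≤ l) {w : List ℕ} (hw : ∀ y ∈ w, 1 ≤ y) :
    V c l w ≤ w.length + 1 := by
  have h0 : ∀ k : ℕ, 1 ≤ k → V c k [] ≤ 1 := fun k hk => by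
    refine (V_arc (by simpa using hk)).trans ?_
    exact ENNReal.inv_le_one.2 (by exact_mod_cast hk)
  induction w generalizing l with
  | nil => simpa using h0 l hl
  | cons y v ih =>
    have h1 := V_split (c := c) hl (hw y List.mem_cons_self) [] v
    rw [List.nil_append] at h1
    refine h1.trans ((add_le_add (h0 1 le_rfl)
      (ih le_rfl fun z hz => hw z (List.mem_cons_of_mem _ hz))).trans (le_of_eq ?_))
    rw [List.length_cons]
    push_cast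
    ring

/-- Start points `R`; every start point has a segment to another one. -/
theorem path_of_segs {Y : ℕ → ℕ} {R : Set ℕ} (hR : R.Nonempty) {t : ℕ → ℝ≥0∞}
    (h : ∀ s ∈ R, ∃ e ∈ R, Seg c Y s e (t s)) : Path c Y (∑' s, R.indicator t s) := by
  choose e he A hs hA hc using h
  refine ⟨⋃ s : R, A s s.2, ?_, fun a ha => ?_, ?_⟩
  · obtain ⟨s, hsR⟩ := hR
    obtain ⟨b, hb⟩ := hs s hsR
    exact ⟨(s, b), mem_iUnion.2 ⟨⟨s, hsR⟩, hb⟩⟩
  · obtain ⟨s, ha⟩ := mem_iUnion.1 ha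
    obtain ⟨h1, h2 | ⟨d, h2⟩⟩ := hA s s.2 a ha
    · obtain ⟨b, hb⟩ := hs (e s s.2) (he s s.2)
      refine ⟨h1, b, mem_iUnion.2 ⟨⟨e s s.2, he s s.2⟩, ?_⟩⟩
      rw [h2]
      exact hb
    · exact ⟨h1, d, mem_iUnion.2 ⟨s, h2⟩⟩
  · rw [← tsum_subtype R t]
    exact (cost_iUnion Y _).trans (ENNReal.tsum_le_tsum fun s => hc s s.2)

end Pool.Agent.Lib.MP_c59c01_pr.TH
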