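import Pool.Agent.Lib.MP_c59c01_pr.TH.CutDet
import Pool.Agent.Lib.MP_c59c01_pr.TH.GW

set_option autoImplicit false

open MeasureTheory ProbabilityTheory Set Filter Topology
open scoped ENNReal

namespace Pool.Agent.Lib.MP_c59c01_pr.TH

/-! The probability of a one-sided cut. -/

theorem sideP_and (p q : Prop) : ind (p ∧ q) = ind p * ind q := by
  unfold ind
  by_cases hp : p <;> by_cases hq : q <;> simp [hp, hq]

theorem sideP_pos {p : Prop} (hp : p) : ind p = 1 := by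
  unfold ind
  simp [hp]

theorem sideP_neg {p : Prop} (hp : ¬ p) : ind p = 0 := by
  unfold ind
  simp [hp]

theorem sideP_union (μ : Measure ℕ) [IsProbabilityMeasure μ] {ι : Type} [Countable ι]
    (word : ι → List ℕ) (P : ι → Prop) :
    nu μ (⋃ i, {Y | P i ∧ Occ Y 0 (word i)}) ≤ ∑' i, wt μ (word i) * ind (P i) := by
  refine (measure_iUnion_le _).trans (ENNReal.tsum_le_tsum fun i => ?_)
  by_cases hp : P i
  · simp only [hp, true_and]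
    rw [nu_occ, sideP_pos trivial, mul_one]
  · simp [hp]

theorem sideP_prod (μ : Measure ℕ) (f : List ℕ → ℝ≥0∞) (g : ℕ → ℝ≥0∞) :
    ∑' p : List ℕ × ℕ, (wt μ p.1 * f p.1) * (μ {p.2} * g p.2) = sm μ f * ∑' m, μ {m} * g m := by
  rw [ENNReal.tsum_prod']
  simp only [ENNReal.tsum_mul_left]
  rw [ENNReal.tsum_mul_right]
  rfl

theorem sideP_nil (μ : Measure ℕ) : wt μ [] = 1 := by simp [wt]

/-- Off the null set of `ae_unbounded`, use `exists_run` twice: `Y` starts with `u ++ [m]`,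
`m > 2 ^ x` (weight at most `tl (2 ^ x + 1) / tl x ≤ 1 / 2`), or with `u ++ m :: w ++ [m']`,
`x ≤ m ≤ 2 ^ x`, `w` below `m` without a cut, `m ≤ m'` (weight at most
`(1 - δ) (tl x - tl (2 ^ x + 1)) / tl x`). `nu_occ`, `sm_lt`, `tsum_ge`, `side_of_cut`. -/
theorem side_prob (μ : Measure ℕ) [IsProbabilityMeasure μ] (h : ∀ n, 0 < tl μ n) {δ : ℝ}
    (h0 : 0 < δ) (h1 : δ ≤ 1) {J L K x : ℕ} (hJ : 2 ^ J ≤ L) (hK : L ≤ K) (hx : L ≤ x)
    (hN : ∀ m, L ≤ m → Nf μ L K m ≤ ENNReal.ofReal ((1 - δ) / tl μ m))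
    (ht : tl μ (2 ^ x) ≤ 1 / 2 * tl μ x) :
    nu μ {Y | ¬ Side J K x Y} ≤ ENNReal.ofReal (1 - δ / 2) := by
  have hx2 : x < 2 ^ x := Nat.lt_two_pow_self
  let P₁ : List ℕ × ℕ → Prop := fun p => (∀ y ∈ p.1, y < x) ∧ 2 ^ x < p.2
  let P₂ : (List ℕ × ℕ) × (List ℕ × ℕ) → Prop := fun p =>
    ((∀ y ∈ p.1.1, y < x) ∧ x ≤ p.1.2 ∧ p.1.2 ≤ 2 ^ x) ∧
      ((∀ y ∈ p.2.1, y < p.1.2) ∧ ¬ Cut L K p.1.2 p.2.1) ∧ p.1.2 ≤ p.2.2
  have hsub : {Y | ¬ Side J K x Y} ≤ᵐ[nu μ]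
      ((⋃ p : List ℕ × ℕ, {Y | P₁ p ∧ Occ Y 0 (p.1 ++ [p.2])}) ∪
        ⋃ p : (List ℕ × ℕ) × (List ℕ × ℕ),
          {Y | P₂ p ∧ Occ Y 0 (p.1.1 ++ p.1.2 :: (p.2.1 ++ [p.2.2]))} : Set (ℕ → ℕ)) := by
    filter_upwards [ae_unbounded μ h] with Y hY hB
    obtain ⟨u, ou, hu, hm⟩ := exists_run (hY 0 x)
    by_cases hbig : 2 ^ x < Y (0 + u.length)
    · refine Or.inl (mem_iUnion.2 ⟨(u, Y (0 + u.length)), ⟨hu, hbig⟩, ?_⟩)
      exact occ_append.2 ⟨ou, occ_cons.2 ⟨rfl, fun i hi => absurd hi (Nat.not_lt_zero i)⟩⟩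
    · obtain ⟨w, ow, hw, hm'⟩ := exists_run (hY (0 + u.length + 1) (Y (0 + u.length)))
      have ho : Occ Y 0 (u ++ Y (0 + u.length) :: w) :=
        occ_append.2 ⟨ou, occ_cons.2 ⟨rfl, ow⟩⟩
      refine Or.inr (mem_iUnion.2 ⟨((u, Y (0 + u.length)), (w, Y (0 + u.length + 1 + w.length))),
        ⟨⟨hu, hm, not_lt.1 hbig⟩, ⟨hw, fun hc => hB ?_⟩, hm'⟩, ?_⟩)
      · refine side_of_cut hJ hK hx ho hu hm (not_lt.1 hbig) hw ?_ hc
        simpa only [Nat.zero_add] using hm'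
      · exact occ_append.2 ⟨ou, occ_cons.2 ⟨rfl, occ_append.2
          ⟨ow, occ_cons.2 ⟨rfl, fun i hi => absurd hi (Nat.not_lt_zero i)⟩⟩⟩⟩
  have b1 : ∑' p : List ℕ × ℕ, wt μ (p.1 ++ [p.2]) * ind (P₁ p) =
      sm μ (fun u => ind (∀ y ∈ u, y < x)) * ∑' m, μ {m} * ind (2 ^ x < m) := by
    rw [← sideP_prod]
    refine tsum_congr fun p => ?_
    rw [wt_append, wt_cons, sideP_nil, sideP_and]
    ring
  have b2 : ∑' p : (List ℕ × ℕ) × (List ℕ × ℕ),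
      wt μ (p.1.1 ++ p.1.2 :: (p.2.1 ++ [p.2.2])) * ind (P₂ p) ≤
      sm μ (fun u => ind (∀ y ∈ u, y < x)) *
        ∑' m, μ {m} * (ind (x ≤ m ∧ m ≤ 2 ^ x) * ENNReal.ofReal (1 - δ)) := by
    rw [← sideP_prod, ENNReal.tsum_prod']
    refine ENNReal.tsum_le_tsum fun p => ?_
    have e : ∑' q : List ℕ × ℕ, wt μ (p.1 ++ p.2 :: (q.1 ++ [q.2])) * ind (P₂ (p, q)) =
        (wt μ p.1 * ind (∀ y ∈ p.1, y < x)) * (μ {p.2} * (ind (x ≤ p.2 ∧ p.2 ≤ 2 ^ x) *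
          (Nf μ L K p.2 * ENNReal.ofReal (tl μ p.2)))) := by
      rw [← tsum_ge μ p.2, Nf, ← sideP_prod, ← ENNReal.tsum_mul_left, ← ENNReal.tsum_mul_left,
        ← ENNReal.tsum_mul_left]
      refine tsum_congr fun q => ?_
      rw [wt_append, wt_cons, wt_append, wt_cons, sideP_nil, sideP_and, sideP_and,
        sideP_and (_ ∧ _) (p.2 ≤ q.2)]
      ring
    rw [e]
    by_cases hp : x ≤ p.2 ∧ p.2 ≤ 2 ^ x
    · have k : Nf μ L K p.2 * ENNReal.ofReal (tl μ p.2) ≤ ENNReal.ofReal (1 - δ) := by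
        refine (mul_le_mul_left (hN p.2 (hx.trans hp.1)) _).trans ?_
        rw [← ENNReal.ofReal_mul (div_nonneg (by linarith) (h _).le),
          div_mul_cancel₀ _ (h _).ne']
      gcongr
    · rw [sideP_neg hp]
      simp
  have b3 : (∑' m, μ {m} * ind (2 ^ x < m)) +
      ∑' m, μ {m} * (ind (x ≤ m ∧ m ≤ 2 ^ x) * ENNReal.ofReal (1 - δ)) ≤
      ENNReal.ofReal (1 - δ) * ENNReal.ofReal (tl μ x) +
        ENNReal.ofReal δ * ENNReal.ofReal (tl μ (2 ^ x)) := by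
    rw [← tsum_ge μ x, ← tsum_ge μ (2 ^ x), ← ENNReal.tsum_mul_left, ← ENNReal.tsum_mul_left,
      ← ENNReal.tsum_add, ← ENNReal.tsum_add]
    refine ENNReal.tsum_le_tsum fun m => ?_
    have k : ind (2 ^ x < m) + ind (x ≤ m ∧ m ≤ 2 ^ x) * ENNReal.ofReal (1 - δ) ≤
        ENNReal.ofReal (1 - δ) * ind (x ≤ m) + ENNReal.ofReal δ * ind (2 ^ x ≤ m) := by
      by_cases hm : 2 ^ x < m
      · rw [sideP_pos hm, sideP_neg (fun hh : x ≤ m ∧ m ≤ 2 ^ x => absurd hm (not_lt.2 hh.2)),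
          sideP_pos (hx2.trans hm).le, sideP_pos hm.le, zero_mul, add_zero, mul_one, mul_one,
          ← ENNReal.ofReal_add (by linarith) h0.le]
        simp
      · rw [sideP_neg hm, zero_add]
        by_cases hm' : x ≤ m
        · rw [sideP_pos (⟨hm', not_lt.1 hm⟩ : x ≤ m ∧ m ≤ 2 ^ x), sideP_pos hm', one_mul, mul_one]
          exact le_self_add
        · rw [sideP_neg (fun hh : x ≤ m ∧ m ≤ 2 ^ x => hm' hh.1), zero_mul]
          exact zero_le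
    calc _ = μ {m} * (ind (2 ^ x < m) + ind (x ≤ m ∧ m ≤ 2 ^ x) * ENNReal.ofReal (1 - δ)) := by
          ring
      _ ≤ μ {m} * (ENNReal.ofReal (1 - δ) * ind (x ≤ m) + ENNReal.ofReal δ * ind (2 ^ x ≤ m)) := by
          gcongr
      _ = _ := by ring
  have hxp := h x
  calc nu μ {Y | ¬ Side J K x Y} ≤ _ := measure_mono_ae hsub
    _ ≤ _ := measure_union_le _ _
    _ ≤ _ := add_le_add ((sideP_union μ _ P₁).trans b1.le) ((sideP_union μ _ P₂).trans b2)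
    _ = sm μ (fun u => ind (∀ y ∈ u, y < x)) * ((∑' m, μ {m} * ind (2 ^ x < m)) +
        ∑' m, μ {m} * (ind (x ≤ m ∧ m ≤ 2 ^ x) * ENNReal.ofReal (1 - δ))) := (mul_add _ _ _).symm
    _ ≤ ENNReal.ofReal (tl μ x)⁻¹ * (ENNReal.ofReal (1 - δ) * ENNReal.ofReal (tl μ x) +
        ENNReal.ofReal δ * ENNReal.ofReal (tl μ (2 ^ x))) := mul_le_mul' (sm_lt μ hxp) b3
    _ = ENNReal.ofReal ((tl μ x)⁻¹ * ((1 - δ) * tl μ x + δ * tl μ (2 ^ x))) := by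
        rw [← ENNReal.ofReal_mul (by linarith), ← ENNReal.ofReal_mul h0.le,
          ← ENNReal.ofReal_add (mul_nonneg (by linarith) hxp.le) (mul_nonneg h0.le (h _).le),
          ← ENNReal.ofReal_mul (inv_nonneg.2 hxp.le)]
    _ ≤ _ := by
        refine ENNReal.ofReal_le_ofReal ?_
        rw [inv_mul_le_iff₀ hxp]
        nlinarith [mul_le_mul_of_nonneg_left ht h0.le]

end Pool.Agent.Lib.MP_c59c01_pr.TH
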