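import Pool.Agent.Lib.MP_c59c01_pr.TH.Main

set_option autoImplicit false

open MeasureTheory ProbabilityTheory Set Filter Topology
open scoped ENNReal

namespace Pool.Agent.Lib.MP_c59c01_pr.TH

/-! The almost sure form of the percolation side. -/

theorem path_ae (μ : Measure ℕ) [IsProbabilityMeasure μ] (h : ∀ n, 0 < tl μ n) {c : ℕ} {Φ : ℕ → ℝ}
    (hΦ : ∀ l, 0 ≤ Φ l) (hs : Summable fun m => (tl μ m - tl μ (m + 1)) * Φ m)
    (h1 : ∀ l, 1 ≤ l → sm μ (fun w => ind (∀ v ∈ w, v ≤ l) * V c l w) ≤ ENNReal.ofReal (Φ l))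
    (h2 : ∀ᶠ l in atTop, tl μ l ≤ 2 * tl μ (l + 1)) {ε : ℝ≥0∞} (hε : 0 < ε) :
    nu μ {Y | ¬ Path c Y ε} = 0 := by
  let g : ℕ → ℝ≥0∞ := fun m => ENNReal.ofReal (2 * ((tl μ m - tl μ (m + 1)) * Φ m))
  have hg : ∑' m, g m ≠ ∞ := (hs.mul_left 2).tsum_ofReal_ne_top
  refine le_antisymm (le_of_forall_gt_imp_ge_of_dense fun η hη => ?_) zero_le
  have h3 : ∀ᶠ x in atTop, ∑' k, g (k + x) < ε * η :=
    (ENNReal.tendsto_sum_nat_add g hg).eventually (gt_mem_nhds (ENNReal.mul_pos hε.ne' hη.ne'))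
  obtain ⟨x0, hx0⟩ := eventually_atTop.1 h2
  obtain ⟨x, hx1, hx2, hx3⟩ := (h3.and ((eventually_ge_atTop x0).and (eventually_ge_atTop 1))).exists
  have h4 := lintegral_tot μ h (c := c) (x := x) hΦ (fun l hl => h1 l (le_trans hx3 hl))
    (fun l hl => hx0 l (le_trans hx2 hl))
  have h5 : ∑' m, ind (x ≤ m) * g m = ∑' k, g (k + x) := by
    rw [← Summable.sum_add_tsum_nat_add' (f := fun m => ind (x ≤ m) * g m) (k := x)
      ENNReal.summable, Finset.sum_eq_zero, zero_add]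
    · refine tsum_congr fun k => ?_
      rw [envB_ind_pos (Nat.le_add_left x k), one_mul]
    · intro m hm
      rw [envB_ind_neg (not_le.2 (Finset.mem_range.1 hm)), zero_mul]
  have h6 : ∫⁻ Y, tot c x Y ∂(nu μ) < ε * η := lt_of_le_of_lt (le_trans h4 h5.le) hx1
  have h7 := mul_meas_ge_le_lintegral₀ (μ := nu μ) (envB_measurable c x).aemeasurable ε
  have h8 : nu μ {Y | ¬ Path c Y ε} ≤ nu μ {Y | ε ≤ tot c x Y} := by
    refine measure_mono_ae ?_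
    filter_upwards [ae_unbounded μ h] with Y hY hP
    exact not_lt.1 fun hlt => hP (path_of_tot hY hlt)
  refine h8.trans (not_lt.1 fun h9 => ?_)
  have h10 : ε * η ≤ ε * nu μ {Y | ε ≤ tot c x Y} := by gcongr
  exact absurd (le_trans h10 h7) (not_le.2 h6)

theorem high_ae (μ : Measure ℕ) [IsProbabilityMeasure μ] (h0 : μ {0} = 0) {θ : ℝ} (hθ : 1 / 2 < θ)
    (h1 : Tendsto (fun n => tl μ (2 * n) / tl μ n) atTop (𝓝 1))
    (h2 : Tendsto (fun n => tl μ (2 ^ n) / tl μ n) atTop (𝓝 θ)) {m : ℕ} (hm : 1 ≤ m)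
    (p : unitInterval) (hp : 0 < (p : ℝ)) :
    ∀ᵐ X ∂(Measure.infinitePi fun _ : ℤ => μ), ∀ q : unitInterval, p ≤ q →
      (999 / 1000 : ℝ) ≤ q → 0 < theta m X p q := by
  have hpos := tl_pos h1
  obtain ⟨c, ε, hε, hth⟩ := theta_pos hm hp
  obtain ⟨a, y, ha, hy, hev⟩ := asym_high h1 h2 hθ c
  obtain ⟨Φ, hΦ, hs, hrec⟩ := super (T := tl μ) hpos (tl_le_one μ) (tl_anti μ)
    (fun δ hδ => asym_step h1 hδ) (asym_sqrt h1) ha hy (G := fun l => 2 ^ (c * (y l * y l)) ≤ l) hev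
  have hP := path_ae μ hpos (c := c) hΦ hs (fun l hl => cost_le μ h0 hpos hΦ hrec hl)
    (by filter_upwards [asym_step h1 one_pos] with l hl; linarith) hε
  have hf : Function.Injective fun i : ℕ => (i : ℤ) + 1 := fun i j h => by
    simp only at h
    omega
  have hmp := pres_comp (fun _ : ℤ => μ) hf
  have h3 : ∀ᵐ Y ∂(nu μ), Path c Y ε := ae_iff.2 hP
  filter_upwards [hmp.quasiMeasurePreserving.ae h3] with X hX q hpq hq
  exact hth q X hpq hq hX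

theorem main_tfae (μ : Measure ℕ) [IsProbabilityMeasure μ] (h0 : μ {0} = 0) {θ : ℝ}
    (hθ : θ ≠ 1 / 2) (h1 : Tendsto (fun n => tl μ (2 * n) / tl μ n) atTop (𝓝 1))
    (h2 : Tendsto (fun n => tl μ (2 ^ n) / tl μ n) atTop (𝓝 θ)) {m : ℕ} (hm : 1 ≤ m) :
    List.TFAE [
      ∀ p : unitInterval, 0 < (p : ℝ) → (p : ℝ) < pc m → ∃ q₀ : ℝ, q₀ < 1 ∧
        ∀ q : unitInterval, q₀ < (q : ℝ) → (q : ℝ) < 1 →
          0 < Measure.infinitePi (fun _ : ℤ => μ) {X | 0 < theta m X p q},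
      ∀ p : unitInterval, 0 < (p : ℝ) → (p : ℝ) < pc m → ∃ q₀ : ℝ, q₀ < 1 ∧
        ∀ᵐ X ∂(Measure.infinitePi fun _ : ℤ => μ), ∀ q : unitInterval, q₀ < (q : ℝ) →
          0 < theta m X p q,
      1 / 2 < θ] := by
  tfae_have 1 → 3 := (main μ h0 hθ h1 h2 hm).1
  tfae_have 3 → 2 := by
    intro h p hp0 hp1
    refine ⟨max p (999 / 1000), max_lt (hp1.trans_le (pc_le_one m)) (by norm_num), ?_⟩
    filter_upwards [high_ae μ h0 h h1 h2 hm p hp0] with X hX q hq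
    refine hX q ?_ ((le_max_right _ _).trans hq.le)
    exact_mod_cast (le_max_left _ _).trans hq.le
  tfae_have 2 → 1 := by
    intro h p hp0 hp1
    obtain ⟨q₀, hq₀, hX⟩ := h p hp0 hp1
    refine ⟨q₀, hq₀, fun q hq _ => ?_⟩
    rw [pos_iff_ne_zero]
    intro h3
    have h4 : ∀ᵐ X ∂(Measure.infinitePi fun _ : ℤ => μ), ¬ 0 < theta m X p q := by
      rw [ae_iff]
      simpa only [not_not] using h3
    obtain ⟨X, a, b⟩ := (hX.and h4).exists
    exact b (a q hq)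
  tfae_finish

end Pool.Agent.Lib.MP_c59c01_pr.TH
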